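import Pool.Agent.RBO.Tmin

set_option autoImplicit false

/-! Module Cl: closure of the union of the orbits.  Let `y` be a limit of `y_n = φ t_n (ψ σ_n p)`; we may take `t_n ∈ [0, T1]` (subtract a multiple of the period).  If `y ≠ a, b`: choose disjoint neighbourhoods: `y ∉ closure U_a, closure U_b` for small closed
neighbourhoods (Hausdorff); by `ha`, `hb'` the numbers `σ_n` are bounded for large `n`.  Subsequence: `σ_n → σ`, `t_n → t`, `y = φ t (ψ σ p)`. -/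

namespace Pool.Agent.RBO

open Set Filter Topology

variable {M : Type} [MetricSpace M] [CompactSpace M] {φ ψ : ℝ → M → M} {f ρ : M → ℝ}

theorem cl (S : SD φ ψ f ρ) {p : M} (T1 : ℝ) (hb : ∀ σ, Per φ (ψ σ p) ∧ Tm φ (ψ σ p) ≤ T1) (a b : M)
    (hb' : ∀ U ∈ 𝓝 b, ∃ σ0 : ℝ, ∀ σ, σ0 ≤ σ → ∀ t, φ t (ψ σ p) ∈ U)
    (ha : ∀ U ∈ 𝓝 a, ∃ σ0 : ℝ, ∀ σ, σ ≤ σ0 → ∀ t, φ t (ψ σ p) ∈ U) :
    IsClosed ({x | ∃ σ t, x = φ t (ψ σ p)} ∪ {a, b}) := by
  apply IsSeqClosed.isClosed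
  intro y z hy hyz
  by_cases hza : z = a
  · exact Or.inr (by rw [hza]; simp)
  by_cases hzb : z = b
  · exact Or.inr (by rw [hzb]; simp)
  obtain ⟨Va, Ua, hVa, hUa, hzVa, haUa, hdA⟩ := t2_separation hza
  obtain ⟨Vb, Ub, hVb, hUb, hzVb, hbUb, hdB⟩ := t2_separation hzb
  obtain ⟨σa, hσa⟩ := ha Ua (hUa.mem_nhds haUa)
  obtain ⟨σb, hσb⟩ := hb' Ub (hUb.mem_nhds hbUb)
  have h1 : ∀ᶠ n in atTop, y n ∈ Va ∧ y n ∈ Vb :=
    (hyz.eventually (hVa.mem_nhds hzVa)).and (hyz.eventually (hVb.mem_nhds hzVb))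
  obtain ⟨N, hN⟩ := eventually_atTop.mp h1
  have h2 : ∀ n, ∃ q : ℝ × ℝ, q ∈ Icc σa σb ×ˢ Icc 0 T1 ∧ y (n + N) = φ q.2 (ψ q.1 p) := by
    intro n
    have hVn := hN (n + N) (by omega)
    rcases hy (n + N) with ⟨σ, t, hσt⟩ | hab
    · have hper := (hb σ).1
      have hTm := (hb σ).2
      obtain ⟨hT0, hTx⟩ := tm_spec S hper
      have hP : Function.Periodic (fun t => φ t (ψ σ p)) (Tm φ (ψ σ p)) := by
        intro u
        change φ (u + Tm φ (ψ σ p)) (ψ σ p) = φ u (ψ σ p)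
        rw [S.pa, hTx]
      obtain ⟨t', ht', htt'⟩ := hP.exists_mem_Ico₀ hT0 t
      refine ⟨(σ, t'), ⟨⟨?_, ?_⟩, ⟨ht'.1, ht'.2.le.trans hTm⟩⟩, by rw [hσt]; exact htt'⟩
      · by_contra hlt
        have h3 := hσa σ (not_le.mp hlt).le t
        rw [← hσt] at h3
        exact Set.disjoint_left.mp hdA hVn.1 h3
      · by_contra hlt
        have h3 := hσb σ (not_le.mp hlt).le t
        rw [← hσt] at h3
        exact Set.disjoint_left.mp hdB hVn.2 h3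
    · exfalso
      rcases hab with hab | hab
      · rw [hab] at hVn
        exact Set.disjoint_left.mp hdA hVn.1 haUa
      · rw [hab] at hVn
        exact Set.disjoint_left.mp hdB hVn.2 hbUb
  choose q hq hqy using h2
  obtain ⟨q₀, hq₀, s, hs, hsq⟩ := (isCompact_Icc.prod isCompact_Icc).tendsto_subseq hq
  refine Or.inl ⟨q₀.1, q₀.2, ?_⟩
  have hcont : Continuous (fun q : ℝ × ℝ => φ q.2 (ψ q.1 p)) :=
    S.pC.comp (continuous_snd.prodMk (S.sC.comp (continuous_fst.prodMk continuous_const)))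
  have h3 : Tendsto (fun n => φ (q (s n)).2 (ψ (q (s n)).1 p)) atTop
      (𝓝 (φ q₀.2 (ψ q₀.1 p))) := (hcont.tendsto q₀).comp hsq
  have h4 : Tendsto (fun n => y (s n + N)) atTop (𝓝 z) :=
    hyz.comp (tendsto_atTop_mono (fun n => Nat.le_add_right _ _) hs.tendsto_atTop)
  have h5 : (fun n => φ (q (s n)).2 (ψ (q (s n)).1 p)) = fun n => y (s n + N) := by
    funext n
    exact (hqy (s n)).symm
  rw [h5] at h3
  exact tendsto_nhds_unique h4 h3

end Pool.Agent.RBO
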