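import Pool.Agent.RBO.Tmin

set_option autoImplicit false

/-! Module Op: the map `(σ, t) ↦ φ t (ψ σ p)` is open.  Let `(s, t₀)` be given, `y = φ t₀ (ψ s p)`, `x = ψ s p` (not critical), `ε > 0`; `r` from `SD.arc` at `q = x` with `τ = ε`.
`σ ↦ f(ψ σ p)` is continuous and strictly increasing (`grad_mono`), so there is `0 < δ ≤ ε` with `ψ σ p ∈ B(x, r)` for `|σ - s| ≤ δ`, and `f` takes on this interval all values in `(f(x) - η, f(x) + η)` for some `η > 0`.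
If `y'` is close to `y` then `x' = φ (-t₀) y'` is in `B(x, r)` and `|f x' - f x| < η`: there is `σ` with `|σ - s| ≤ δ`, `f(ψ σ p) = f x'`, so `x' = φ u (ψ σ p)` with `|u| < ε`, `y' = φ (t₀ + u) (ψ σ p)`, the image of the point `(σ, t₀ + u)`
which is `ε`-close to `(s, t₀)`.  (`isOpenMap_iff_nhds_le` or `IsOpenMap` via `Metric`.) -/

namespace Pool.Agent.RBO

open Set Filter Topology

variable {M : Type} [MetricSpace M] [CompactSpace M] {φ ψ : ℝ → M → M} {f ρ : M → ℝ}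

theorem op_map (S : SD φ ψ f ρ) {p : M} (hp : ¬ Crit φ p) :
    IsOpenMap (fun q : ℝ × ℝ => φ q.2 (ψ q.1 p)) := by
  rw [isOpenMap_iff_nhds_le]
  rintro ⟨s, t₀⟩
  intro V hV
  rw [mem_map] at hV
  obtain ⟨ε, hε, hball⟩ := Metric.mem_nhds_iff.mp hV
  have hx : ¬ Crit φ (ψ s p) := fun h => hp ((crit_grad S s p).mp h)
  obtain ⟨r, hr, harc⟩ := S.arc (ψ s p) hx ε hε
  have hcs : Continuous (fun σ => ψ σ p) := S.sC.comp (continuous_id.prodMk continuous_const)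
  have hFc : Continuous (fun σ => f (ψ σ p)) := S.fC.comp hcs
  have hF := grad_mono S hp
  obtain ⟨δ₀, hδ₀, hδ₀'⟩ := Metric.continuousAt_iff.mp (hcs.continuousAt (x := s)) r hr
  set δ : ℝ := min (δ₀ / 2) (ε / 2) with hδ
  have hδ0 : 0 < δ := by positivity
  have hδ1 : δ < δ₀ := lt_of_le_of_lt (min_le_left _ _) (by linarith)
  have hδ2 : δ < ε := lt_of_le_of_lt (min_le_right _ _) (by linarith)
  have hcφ : Continuous (fun y' => φ (-t₀) y') :=
    S.pC.comp (continuous_const.prodMk continuous_id)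
  have hback : φ (-t₀) (φ t₀ (ψ s p)) = ψ s p := by
    rw [← S.pa, neg_add_cancel, S.p0]
  have e1 : ∀ᶠ y' in 𝓝 (φ t₀ (ψ s p)), dist (φ (-t₀) y') (ψ s p) < r := by
    have := hcφ.tendsto (φ t₀ (ψ s p))
    rw [hback] at this
    exact this.eventually (Metric.ball_mem_nhds _ hr)
  have e2 : ∀ᶠ y' in 𝓝 (φ t₀ (ψ s p)),
      f (φ (-t₀) y') ∈ Ioo (f (ψ (s - δ) p)) (f (ψ (s + δ) p)) := by
    have h1 := (S.fC.comp hcφ).tendsto (φ t₀ (ψ s p))
    simp only [Function.comp_def, hback] at h1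
    exact h1.eventually (Ioo_mem_nhds (hF (by linarith)) (hF (by linarith)))
  change V ∈ 𝓝 (φ t₀ (ψ s p))
  filter_upwards [e1, e2] with y' h1 h2
  obtain ⟨σ, hσ, hσf⟩ := intermediate_value_Icc (show s - δ ≤ s + δ by linarith)
    hFc.continuousOn ⟨h2.1.le, h2.2.le⟩
  have hσs : |σ - s| ≤ δ := abs_le.mpr ⟨by linarith [hσ.1], by linarith [hσ.2]⟩
  have h3 : dist (ψ σ p) (ψ s p) < r := hδ₀' (by rw [Real.dist_eq]; linarith)
  obtain ⟨u, hu, huy⟩ := harc (ψ σ p) (φ (-t₀) y') h3 h1 hσf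
  have h4 : φ (t₀ + u) (ψ σ p) = y' := by
    rw [S.pa, huy, ← S.pa, add_neg_cancel, S.p0]
  have h5 : ((σ, t₀ + u) : ℝ × ℝ) ∈ Metric.ball (s, t₀) ε := by
    rw [Metric.mem_ball, Prod.dist_eq]
    apply max_lt
    · rw [Real.dist_eq]; linarith
    · rw [Real.dist_eq]; simpa using hu
  have h6 := hball h5
  simp only [mem_preimage] at h6
  rwa [h4] at h6

theorem op (S : SD φ ψ f ρ) {p : M} (hp : ¬ Crit φ p) :
    IsOpen {x | ∃ σ t, x = φ t (ψ σ p)} := by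
  have h := (op_map S hp).isOpen_range
  have e : {x | ∃ σ t, x = φ t (ψ σ p)} = range (fun q : ℝ × ℝ => φ q.2 (ψ q.1 p)) := by
    ext x
    constructor
    · rintro ⟨σ, t, rfl⟩
      exact ⟨(σ, t), rfl⟩
    · rintro ⟨⟨σ, t⟩, rfl⟩
      exact ⟨σ, t, rfl⟩
  rw [e]
  exact h

end Pool.Agent.RBO
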