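import Pool.Agent.RBO.Ends
import Pool.Agent.RBO.Op
import Pool.Agent.RBO.Cl

set_option autoImplicit false

/-! Module All: in the bounded case the orbits `C_σ` fill everything except two critical points.
`A = {φ t (ψ σ p)}` is open (`op`), `A ∪ {a, b}` is closed (`cl`), `A` contains no critical point (`crit_flow`, `crit_grad`), in particular `A ⊆ {a, b}ᶜ`.  `{a, b}ᶜ` is preconnected (`SD.con`), `A` is nonempty, so
`{a, b}ᶜ ⊆ A` (`{a,b}ᶜ ⊆ A ∪ (A ∪ {a,b})ᶜ`, two disjoint open sets).  Hence every point `≠ a, b` is in `A`, so not critical. -/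

namespace Pool.Agent.RBO

open Set Filter Topology

variable {M : Type} [MetricSpace M] [CompactSpace M] {φ ψ : ℝ → M → M} {f ρ : M → ℝ}

theorem all (S : SD φ ψ f ρ) (hfin : {x | Crit φ x}.Finite) {p : M} (T1 : ℝ)
    (hb : ∀ σ, Per φ (ψ σ p) ∧ Tm φ (ψ σ p) ≤ T1) : ∃ a b, a ≠ b ∧
    (∀ x, Crit φ x ↔ x = a ∨ x = b) ∧ (∀ x, ¬ Crit φ x → ∃ σ t, x = φ t (ψ σ p)) ∧
    (∀ U ∈ 𝓝 b, ∃ σ0 : ℝ, ∀ σ, σ0 ≤ σ → ∀ t, φ t (ψ σ p) ∈ U) ∧
    (∀ U ∈ 𝓝 a, ∃ σ0 : ℝ, ∀ σ, σ ≤ σ0 → ∀ t, φ t (ψ σ p) ∈ U) := by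
  obtain ⟨a, b, ha, hbb, hab, hU, hL⟩ := ends S hfin T1 hb
  have hne : a ≠ b := by
    rintro rfl
    exact lt_irrefl _ hab
  have hp : ¬ Crit φ p := by
    have h1 := (hb 0).1.1
    rwa [S.s0] at h1
  have hopen := op S hp
  have hclosed := cl S T1 hb a b hU hL
  have hA : ∀ x ∈ {x | ∃ σ t, x = φ t (ψ σ p)}, ¬ Crit φ x := by
    rintro x ⟨σ, t, rfl⟩
    rw [crit_flow S, crit_grad S]
    exact hp
  have hAll : ∀ x, x ≠ a → x ≠ b → x ∈ {x | ∃ σ t, x = φ t (ψ σ p)} := by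
    intro x hxa hxb
    by_contra hx
    have hcon := S.con a b
    have h2 := hcon {x | ∃ σ t, x = φ t (ψ σ p)} ({x | ∃ σ t, x = φ t (ψ σ p)} ∪ {a, b})ᶜ hopen
      hclosed.isOpen_compl (by
        intro y hy
        by_cases hyA : y ∈ {x | ∃ σ t, x = φ t (ψ σ p)}
        · exact Or.inl hyA
        · right
          rintro (h3 | h3)
          · exact hyA h3
          · exact hy h3) (by
        refine ⟨p, ?_, ⟨0, 0, by rw [S.p0, S.s0]⟩⟩
        rintro (h3 | h3)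
        · exact hp (h3 ▸ ha)
        · exact hp (h3 ▸ hbb)) (by
        refine ⟨x, ?_, ?_⟩
        · rintro (h3 | h3)
          · exact hxa h3
          · exact hxb h3
        · rintro (h3 | (h3 | h3))
          · exact hx h3
          · exact hxa h3
          · exact hxb h3)
    obtain ⟨y, _, hy1, hy2⟩ := h2
    exact hy2 (Or.inl hy1)
  refine ⟨a, b, hne, ?_, ?_, hU, hL⟩
  · intro x
    constructor
    · intro hx
      by_contra h3
      push Not at h3
      exact hA x (hAll x h3.1 h3.2) hx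
    · rintro (rfl | rfl)
      · exact ha
      · exact hbb
  · intro x hx
    apply hAll x
    · rintro rfl; exact hx ha
    · rintro rfl; exact hx hbb

end Pool.Agent.RBO
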