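import Pool.Agent.RBO.Defs

set_option autoImplicit false

/-! Module Arc: near a regular point the level sets of `f` in the surface are arcs of orbits.
`ℓ(v) = X(q) ⬝ᵥ v`, `ℓ(X q) > 0`.  `G(x) = (ℓ(x), f(x), h(x)) : ℝ³ → ℝ³` is `C^1` and its derivative at `q` is injective: if `dh v = df v = 0` then `v = c X(q)` (`Geo.ker`) and `ℓ(v) = c ℓ(X q) = 0`
gives `v = 0`.  So (finite dimension, `HasStrictFDerivAt` and an injective, hence antilipschitz, derivative, or the inverse function theorem) `G` is injective on some ball `B(q, r₀)`.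
Put `μ = ℓ(X q)/2`.  By continuity of `X` and of the flow there are `r₁ ≤ r₀` and `τ₁ ≤ τ/2`, `τ₁ > 0` with `φ t x ∈ B(q, r₀)` and `ℓ(X(φ t x)) ≥ μ` for `dist x q < r₁`, `|t| ≤ τ₁`.
So `t ↦ ℓ(φ t x)` is increasing on `[-τ₁, τ₁]` with slope `≥ μ`, and takes all values in `[ℓ(x) - μ τ₁, ℓ(x) + μ τ₁]` (intermediate values).  Take `r ≤ r₁` so small that `|ℓ(y) - ℓ(x)| ≤ μ τ₁` for
`x, y ∈ B(q, r)`.  If moreover `h x = h y = 0`, `f x = f y`: there is `|t| ≤ τ₁` with `ℓ(φ t x) = ℓ(y)`; `f(φ t x) = f x = f y`, `h(φ t x) = h x = h y` (`f`, `h` are constant along the flow by `fX`, `hX`),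
so `φ t x = y` by the injectivity of `G` on `B(q, r₀)`. -/

namespace Pool.Agent.RBO

open Set

/-- scalar product with a fixed vector -/
noncomputable def Arc_ell (w : E3) : E3 →L[ℝ] ℝ :=
  ∑ i, (w i) • (ContinuousLinearMap.proj i : E3 →L[ℝ] ℝ)

theorem Arc_ell_apply (w v : E3) : Arc_ell w v = ∑ i, w i * v i := by
  simp [Arc_ell]

theorem Arc_ell_pos (w : E3) (hw : w ≠ 0) : 0 < Arc_ell w w := by
  rw [Arc_ell_apply]
  have h0 : ∀ i ∈ Finset.univ, 0 ≤ w i * w i := fun i _ => mul_self_nonneg _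
  obtain ⟨i, hi⟩ := Function.ne_iff.mp hw
  exact Finset.sum_pos' h0 ⟨i, Finset.mem_univ i, mul_self_pos.mpr hi⟩

/-- a function whose derivative vanishes on the field is constant along the flow -/
theorem Arc_const {g : E3 → ℝ} (hg : ContDiff ℝ 2 g) {X : E3 → E3}
    (h0 : ∀ x, fderiv ℝ g x (X x) = 0) {φ : ℝ → E3 → E3} (F : IsFlow X φ) (x : E3) (t : ℝ) :
    g (φ t x) = g x := by
  have hd : ∀ s : ℝ, HasDerivAt (fun u => g (φ u x)) 0 s := by
    intro s
    have h1 : HasFDerivAt g (fderiv ℝ g (φ s x)) (φ s x) :=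
      (hg.differentiable (by norm_num)).differentiableAt.hasFDerivAt
    have h2 := h1.comp_hasDerivAt s (F.der x s)
    rw [h0] at h2
    exact h2
  have h3 := is_const_of_deriv_eq_zero (fun s => (hd s).differentiableAt) (fun s => (hd s).deriv) t 0
  simp only [F.zero] at h3
  exact h3

/-- local injectivity of `(ℓ, f, h)` -/
theorem Arc_inj {h f : E3 → ℝ} {X Y : E3 → E3} {ρ : E3 → ℝ} (G : Geo h f X Y ρ)
    (q : E3) (hq : h q = 0) (hX : X q ≠ 0) : ∃ r : ℝ, 0 < r ∧ ∀ x y, dist x q < r → dist y q < r →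
      Arc_ell (X q) x = Arc_ell (X q) y → f x = f y → h x = h y → x = y := by
  let G0 : E3 → E3 := fun x => ![Arc_ell (X q) x, f x, h x]
  let G1 : E3 →L[ℝ] E3 := ContinuousLinearMap.pi ![Arc_ell (X q), fderiv ℝ f q, fderiv ℝ h q]
  have hG : HasStrictFDerivAt G0 G1 q := by
    rw [hasStrictFDerivAt_pi']
    intro i
    fin_cases i
    · exact (Arc_ell (X q)).hasStrictFDerivAt
    · exact (G.fC.contDiffAt).hasStrictFDerivAt (by norm_num)
    · exact (G.hC.contDiffAt).hasStrictFDerivAt (by norm_num)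
  have hinj : Function.Injective (G1 : E3 →ₗ[ℝ] E3) := by
    rw [← LinearMap.ker_eq_bot, LinearMap.ker_eq_bot']
    intro v hv
    have e0 : Arc_ell (X q) v = 0 := congrFun hv 0
    have e1 : fderiv ℝ f q v = 0 := congrFun hv 1
    have e2 : fderiv ℝ h q v = 0 := congrFun hv 2
    obtain ⟨c, hc⟩ := G.ker q hq hX v e2 e1
    rw [hc, map_smul, smul_eq_mul] at e0
    rcases mul_eq_zero.mp e0 with h1 | h1
    · rw [hc, h1, zero_smul]
    · exact absurd h1 (Arc_ell_pos _ hX).ne'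
  let L : E3 ≃L[ℝ] E3 := (LinearEquiv.ofInjectiveEndo (G1 : E3 →ₗ[ℝ] E3) hinj).toContinuousLinearEquiv
  have hL : (L : E3 →L[ℝ] E3) = G1 := by
    ext v i
    rfl
  rw [← hL] at hG
  let e := hG.toOpenPartialHomeomorph G0
  have he : (e : E3 → E3) = G0 := hG.toOpenPartialHomeomorph_coe
  have hsrc : q ∈ e.source := hG.mem_toOpenPartialHomeomorph_source
  obtain ⟨r, hr, hb⟩ := Metric.isOpen_iff.mp e.open_source q hsrc
  refine ⟨r, hr, ?_⟩
  intro x y hx hy h1 h2 h3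
  apply e.injOn (hb hx) (hb hy)
  rw [he]
  show ![Arc_ell (X q) x, f x, h x] = ![Arc_ell (X q) y, f y, h y]
  rw [h1, h2, h3]

theorem arc {h f : E3 → ℝ} {X Y : E3 → E3} {ρ : E3 → ℝ} (G : Geo h f X Y ρ) {φ : ℝ → E3 → E3}
    (F : IsFlow X φ) (q : E3) (hq : h q = 0) (hX : X q ≠ 0) (τ : ℝ) (hτ : 0 < τ) :
    ∃ r : ℝ, 0 < r ∧ ∀ x y, h x = 0 → h y = 0 → dist x q < r → dist y q < r → f x = f y →
      ∃ t : ℝ, |t| < τ ∧ φ t x = y := by
  obtain ⟨r0, hr0, hinj⟩ := Arc_inj G q hq hX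
  set ℓ := Arc_ell (X q) with hℓ
  have hpos : 0 < ℓ (X q) := Arc_ell_pos _ hX
  set μ := ℓ (X q) / 2 with hμ
  have hμ0 : 0 < μ := by positivity
  have hXc : Continuous X := G.XC.continuous
  have hc1 : Continuous (fun p : ℝ × E3 => ℓ (X (φ p.1 p.2))) :=
    ℓ.continuous.comp (hXc.comp F.cont)
  have hc2 : Continuous (fun p : ℝ × E3 => dist (φ p.1 p.2) q) := F.cont.dist continuous_const
  have hev := ((isOpen_lt continuous_const hc1).inter (isOpen_lt hc2 continuous_const)).mem_nhds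
    (show ((0 : ℝ), q) ∈ {p : ℝ × E3 | μ < ℓ (X (φ p.1 p.2))} ∩ {p : ℝ × E3 | dist (φ p.1 p.2) q < r0} by
      refine ⟨?_, ?_⟩
      · show μ < ℓ (X (φ 0 q))
        rw [F.zero]
        linarith
      · show dist (φ 0 q) q < r0
        rw [F.zero, dist_self]
        exact hr0)
  obtain ⟨δ, hδ, hb⟩ := Metric.mem_nhds_iff.mp hev
  set τ1 := min (δ / 2) (τ / 2) with hτ1
  have hτ10 : 0 < τ1 := lt_min (by linarith) (by linarith)
  have hτ11 : τ1 ≤ δ / 2 := min_le_left _ _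
  have hτ12 : τ1 ≤ τ / 2 := min_le_right _ _
  have hev2 := (isOpen_lt (continuous_abs.comp (ℓ.continuous.sub (continuous_const (y := ℓ q))))
    (continuous_const (y := μ * τ1 / 2))).mem_nhds (show q ∈ _ by
      show |ℓ q - ℓ q| < μ * τ1 / 2
      rw [sub_self, abs_zero]
      positivity)
  obtain ⟨r1, hr1, hb1⟩ := Metric.mem_nhds_iff.mp hev2
  refine ⟨min (min δ r1) r0, lt_min (lt_min hδ hr1) hr0, ?_⟩
  intro x y hx0 hy0 hxq hyq hfxy
  have hxδ : dist x q < δ := lt_of_lt_of_le hxq ((min_le_left _ _).trans (min_le_left _ _))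
  have hxr1 : dist x q < r1 := lt_of_lt_of_le hxq ((min_le_left _ _).trans (min_le_right _ _))
  have hyr1 : dist y q < r1 := lt_of_lt_of_le hyq ((min_le_left _ _).trans (min_le_right _ _))
  have hyr0 : dist y q < r0 := lt_of_lt_of_le hyq (min_le_right _ _)
  have hin : ∀ s : ℝ, |s| ≤ τ1 → μ < ℓ (X (φ s x)) ∧ dist (φ s x) q < r0 := by
    intro s hs
    have : (s, x) ∈ Metric.ball ((0 : ℝ), q) δ := by
      rw [Metric.mem_ball, Prod.dist_eq]
      refine max_lt ?_ hxδ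
      rw [dist_zero_right, Real.norm_eq_abs]
      linarith
    exact hb this
  have hd : ∀ s : ℝ, HasDerivAt (fun u => ℓ (φ u x)) (ℓ (X (φ s x))) s :=
    fun s => ℓ.hasFDerivAt.comp_hasDerivAt s (F.der x s)
  have hcont : Continuous (fun u => ℓ (φ u x)) := by
    rw [continuous_iff_continuousAt]
    exact fun s => (hd s).continuousAt
  have hgap : ∀ a b : ℝ, a ∈ Icc (-τ1) τ1 → b ∈ Icc (-τ1) τ1 → a ≤ b →
      μ * (b - a) ≤ ℓ (φ b x) - ℓ (φ a x) := by
    intro a b ha hb' hab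
    apply (convex_Icc (-τ1) τ1).mul_sub_le_image_sub_of_le_deriv hcont.continuousOn
      (fun s _ => (hd s).differentiableAt.differentiableWithinAt) _ a ha b hb' hab
    intro s hs
    rw [interior_Icc] at hs
    rw [(hd s).deriv]
    exact (hin s (abs_le.mpr ⟨hs.1.le, hs.2.le⟩)).1.le
  have e1 := hgap 0 τ1 ⟨by linarith, hτ10.le⟩ ⟨by linarith, le_refl _⟩ hτ10.le
  have e2 := hgap (-τ1) 0 ⟨le_refl _, by linarith⟩ ⟨by linarith, hτ10.le⟩ (by linarith)
  rw [F.zero] at e1 e2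
  have e3 : |ℓ x - ℓ q| < μ * τ1 / 2 := hb1 hxr1
  have e4 : |ℓ y - ℓ q| < μ * τ1 / 2 := hb1 hyr1
  rw [abs_lt] at e3 e4
  have hival := intermediate_value_Icc (show -τ1 ≤ τ1 by linarith) hcont.continuousOn
  have hmem : ℓ y ∈ Icc (ℓ (φ (-τ1) x)) (ℓ (φ τ1 x)) := by
    constructor
    · nlinarith
    · nlinarith
  obtain ⟨t, ht, hty⟩ := hival hmem
  have hty' : ℓ (φ t x) = ℓ y := hty
  refine ⟨t, ?_, ?_⟩
  · have := abs_le.mpr ht
    linarith
  · apply hinj _ _ (hin t (abs_le.mpr ht)).2 hyr0 hty'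
    · rw [Arc_const G.fC G.fX F, hfxy]
    · rw [Arc_const G.hC G.hX F, hx0, hy0]

end Pool.Agent.RBO
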