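import Pool.Agent.RBO.Defs

set_option autoImplicit false

/-! Module Clo: limits of periodic points with bounded periods.  Let `τ, r` be as in `SD.nor` at `q = x`: for large `n`, `dist (y n) x < r`, so `T n > τ` (otherwise `φ (T n) (y n) ≠ y n`).
`[τ, T1]` is compact: a subsequence of `T n` converges to `t ∈ [τ, T1]`, and `φ t x = x` by the joint continuity of `φ`. -/

namespace Pool.Agent.RBO

open Set Filter Topology

variable {M : Type} [MetricSpace M] [CompactSpace M] {φ ψ : ℝ → M → M} {f ρ : M → ℝ}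

theorem clo (S : SD φ ψ f ρ) {x : M} (hx : ¬ Crit φ x) (T1 : ℝ) (y : ℕ → M) (T : ℕ → ℝ)
    (hy : Tendsto y atTop (𝓝 x)) (hT : ∀ n, 0 < T n ∧ T n ≤ T1 ∧ φ (T n) (y n) = y n) :
    ∃ t : ℝ, 0 < t ∧ t ≤ T1 ∧ φ t x = x := by
  obtain ⟨τ, hτ, r, hr, hn⟩ := S.nor x hx
  have h1 : ∀ᶠ n in atTop, dist (y n) x < r := by
    have := Metric.tendsto_atTop.mp hy r hr
    obtain ⟨N, hN⟩ := this
    exact eventually_atTop.mpr ⟨N, hN⟩
  obtain ⟨N, hN⟩ := eventually_atTop.mp h1
  have h2 : ∀ n, T (n + N) ∈ Icc τ T1 := by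
    intro n
    refine ⟨?_, (hT (n + N)).2.1⟩
    by_contra hlt
    have hlt := not_le.mp hlt
    have h3 := hn (y (n + N)) (hN (n + N) (by omega)) (T (n + N)) (hT (n + N)).1.ne'
      (by rw [abs_of_pos (hT (n + N)).1]; exact hlt.le)
    exact h3 (hT (n + N)).2.2
  obtain ⟨t, ht, s, hs, hst⟩ := isCompact_Icc.tendsto_subseq h2
  refine ⟨t, lt_of_lt_of_le hτ ht.1, ht.2, ?_⟩
  have hy' : Tendsto (fun n => y (s n + N)) atTop (𝓝 x) := by
    have e1 : Tendsto (fun n => s n + N) atTop atTop :=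
      tendsto_atTop_mono (fun n => Nat.le_add_right _ _) hs.tendsto_atTop
    exact hy.comp e1
  have h4 : Tendsto (fun n => φ (T (s n + N)) (y (s n + N))) atTop (𝓝 (φ t x)) := by
    have e1 : Tendsto (fun n => (T (s n + N), y (s n + N))) atTop (𝓝 (t, x)) :=
      hst.prodMk_nhds hy'
    exact (S.pC.tendsto (t, x)).comp e1
  have h5 : (fun n => φ (T (s n + N)) (y (s n + N))) = fun n => y (s n + N) := by
    funext n
    exact (hT (s n + N)).2.2
  rw [h5] at h4
  exact tendsto_nhds_unique h4 hy'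

end Pool.Agent.RBO
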