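import Pool.Agent.RBO.Tmin

set_option autoImplicit false

/-! Module Cnt: counting closed orbits of the skew product.
`cnt_crit`: for a critical `c` the set `{c} × circle` is a closed orbit: `ρ c ≠ 0` (`rf`), `x = c`, `z = 0`, `T = 1/|ρ c|`, `∫_0^T ρ c = ± 1`, and `t ↦ t ρ(c)` is onto the circle.  Distinct `c` give distinct sets.
`cnt_rat`: if `x` is periodic, non-fixed with `Th x = a/b` (`b > 0`), then `T = b Tm x`: `φ T x = x`, `∫_0^T ρ = b Th x = a` (periodicity of the integrand): the set of `x`, `z = 0` is a closed orbit, contained in `{f = f x} × circle` and nonempty.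
So distinct levels give distinct orbits.
`po_crit`, `po_per`: a closed orbit through a critical `x` is `{x} × circle`; if `x` is not critical then `x` is periodic, `T = k Tm x` (`tm_int`), `k > 0`, `n = k Th x`, so `Th x` is rational and `f x ∈ RatLev`. -/

namespace Pool.Agent.RBO

open Set Filter Topology

variable {M : Type} [MetricSpace M] [CompactSpace M] {φ ψ : ℝ → M → M} {f ρ : M → ℝ}

/-- the curve through a critical point covers the whole circle -/
theorem Cnt_range (S : SD φ ψ f ρ) {c : M} (hc : Crit φ c) (z : ℝ) :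
    ({c} ×ˢ univ : Set (M × UnitAddCircle)) =
      range (fun t : ℝ => (φ t c, ((z + ∫ u in (0 : ℝ)..t, ρ (φ u c) : ℝ) : UnitAddCircle))) := by
  have hρ : ρ c ≠ 0 := fun h0 => by
    have := S.rf c hc
    rw [h0, zero_mul] at this
    exact zero_ne_one this
  have hi : ∀ t : ℝ, ∫ u in (0 : ℝ)..t, ρ (φ u c) = t * ρ c := by
    intro t
    have : (fun u => ρ (φ u c)) = fun _ => ρ c := funext fun u => by rw [hc u]
    rw [this]
    simp
  ext ⟨a, b⟩
  simp only [mem_prod, mem_singleton_iff, mem_univ, and_true, mem_range, Prod.mk.injEq]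
  constructor
  · rintro rfl
    induction b using QuotientAddGroup.induction_on with
    | H r =>
      refine ⟨(r - z) / ρ a, hc _, ?_⟩
      rw [hi, div_mul_cancel₀ _ hρ]
      congr 1
      ring
  · rintro ⟨t, ht, -⟩
    rw [← ht, hc t]

theorem po_of_crit (S : SD φ ψ f ρ) {c : M} (hc : Crit φ c) : IsPO φ ρ ({c} ×ˢ univ) := by
  have hρ : ρ c ≠ 0 := fun h0 => by
    have := S.rf c hc
    rw [h0, zero_mul] at this
    exact zero_ne_one this
  have hi : ∀ t : ℝ, ∫ u in (0 : ℝ)..t, ρ (φ u c) = t * ρ c := by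
    intro t
    have : (fun u => ρ (φ u c)) = fun _ => ρ c := funext fun u => by rw [hc u]
    rw [this]
    simp
  refine ⟨c, 0, 1 / |ρ c|, by positivity, hc _, ?_, Cnt_range S hc 0⟩
  rw [hi]
  rcases lt_or_gt_of_ne hρ with h | h
  · refine ⟨-1, ?_⟩
    rw [abs_of_neg h]
    push_cast
    field_simp
  · refine ⟨1, ?_⟩
    rw [abs_of_pos h]
    push_cast
    field_simp

theorem Cnt_per (S : SD φ ψ f ρ) {x : M} (hx : Per φ x) (k : ℤ) :
    φ (k * Tm φ x) x = x ∧ ∫ u in (0 : ℝ)..(k * Tm φ x), ρ (φ u x) = k * Th φ ρ x := by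
  have h1 : Function.Periodic (fun u => φ u x) (Tm φ x) := by
    intro u
    show φ (u + Tm φ x) x = φ u x
    rw [S.pa, (tm_spec S hx).2]
  have h2 : Function.Periodic (fun u => ρ (φ u x)) (Tm φ x) := by
    intro u
    exact congrArg ρ (h1 u)
  have h3 : Continuous (fun u => ρ (φ u x)) :=
    S.rC.comp (S.pC.comp (continuous_id.prodMk continuous_const))
  constructor
  · have := h1.int_mul k 0
    simp only [zero_add] at this
    rw [this, S.p0]
  · have := h2.intervalIntegral_add_zsmul_eq k 0 (fun a b => h3.intervalIntegrable a b)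
    simp only [zero_add, zsmul_eq_mul] at this
    exact this

theorem po_of_rat (S : SD φ ψ f ρ) {x : M} (hx : Per φ x) (q : ℚ) (hq : Th φ ρ x = q) :
    ∃ O, IsPO φ ρ O ∧ O.Nonempty ∧ ∀ y ∈ O, f y.1 = f x := by
  have hT := (tm_spec S hx).1
  obtain ⟨h1, h2⟩ := Cnt_per S hx q.den
  refine ⟨_, ⟨x, 0, ((q.den : ℤ) : ℝ) * Tm φ x, ?_, h1, ⟨q.num, ?_⟩, rfl⟩, range_nonempty _, ?_⟩
  · have : (0 : ℝ) < ((q.den : ℤ) : ℝ) := by exact_mod_cast q.den_pos
    positivity
  · rw [h2, hq]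
    have := Rat.den_mul_eq_num q
    exact_mod_cast this
  · rintro y ⟨t, rfl⟩
    exact S.finv t x

/-- every closed orbit is `{c} × circle`, `c` critical, or lies over a periodic point with rational `Th` -/
theorem po_cases (S : SD φ ψ f ρ) {O : Set (M × UnitAddCircle)} (hO : IsPO φ ρ O) :
    (∃ c, Crit φ c ∧ O = {c} ×ˢ univ) ∨ ∃ x, Per φ x ∧ ∃ q : ℚ, Th φ ρ x = q := by
  obtain ⟨x, z, T, hT, hx, ⟨n, hn⟩, rfl⟩ := hO
  by_cases hc : Crit φ x
  · left
    exact ⟨x, hc, (Cnt_range S hc z).symm⟩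
  · right
    have hp : Per φ x := ⟨hc, T, hT, hx⟩
    obtain ⟨k, hk⟩ := tm_int S hp hx
    have hTm := (tm_spec S hp).1
    have hk0 : (k : ℝ) ≠ 0 := by
      intro h0
      rw [h0, zero_mul] at hk
      exact hT.ne' hk
    refine ⟨x, hp, (n : ℚ) / k, ?_⟩
    have h2 := (Cnt_per S hp k).2
    rw [← hk, hn] at h2
    push_cast
    rw [eq_div_iff hk0, h2]
    ring

theorem cnt_crit (S : SD φ ψ f ρ) (h : {x | Crit φ x}.Infinite) : {O | IsPO φ ρ O}.Infinite := by
  refine Set.infinite_of_injOn_mapsTo (f := fun c : M => (({c} : Set M) ×ˢ (univ : Set UnitAddCircle)))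
    ?_ (fun c hc => po_of_crit S hc) h
  intro c _ d _ hcd
  have h0 : (({c} : Set M) ×ˢ (univ : Set UnitAddCircle)) = ({d} : Set M) ×ˢ univ := hcd
  have h1 : ((c, 0) : M × UnitAddCircle) ∈ (({c} : Set M) ×ˢ (univ : Set UnitAddCircle)) := by simp
  rw [h0] at h1
  simpa using h1

theorem cnt_rat (S : SD φ ψ f ρ) (h : (RatLev φ f ρ).Infinite) : {O | IsPO φ ρ O}.Infinite := by
  have h1 : ∀ s ∈ RatLev φ f ρ, ∃ O, IsPO φ ρ O ∧ O.Nonempty ∧ ∀ y ∈ O, f y.1 = s := by
    rintro s ⟨x, hx, rfl, q, hq⟩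
    exact po_of_rat S hx q hq
  choose! F hF1 hF2 hF3 using h1
  refine Set.infinite_of_injOn_mapsTo (f := F) ?_ (fun s hs => hF1 s hs) h
  intro s hs t ht hst
  obtain ⟨y, hy⟩ := hF2 s hs
  rw [← hF3 s hs y hy]
  exact hF3 t ht y (hst ▸ hy)

end Pool.Agent.RBO
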