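import Pool.Agent.RBO.Form

set_option autoImplicit false

/-! Module ConD: the contact condition gives `DD ≠ 0` on `{h = 0}`.
Let `n = gr h x ≠ 0` (as `fderiv ℝ h x v = n ⬝ᵥ v`), say `n i ≠ 0`; `{i, j, k} = {0, 1, 2}` cyclic (`e_j × e_k = e_i`), `u = n × e_j`, `v = n × e_k`: `u × v = (n · (e_j × e_k)) n = n_i n`
(`(a × b) × (a × c) = (a · (b × c)) a`), `n · u = n · v = 0`.  `(u,0), (v,0), (0,1)` are linearly independent (`u × v ≠ 0`) and tangent.  By `lam_eq`, `dlam_eq`:
`lam(u) dlam(v, ∂z) + lam(v) dlam(∂z, u) + lam(∂z) dlam(u, v) = (B·u)(∇f·v) - (B·v)(∇f·u) + f curl B · (u × v) = (B × ∇f + f curl B) · (u × v) = n_i DD` (`cross_dot_cross`). -/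

namespace Pool.Agent.RBO

open Set

theorem ConD_aux {h : E3 → ℝ} {lam : V4 → V4 →L[ℝ] ℝ} (hlam : ContDiff ℝ 2 lam)
    (hinv : ∀ x z s, lam (x, z + s) = lam (x, z)) (hc : IsContact h lam) (x : E3) (hx : h x = 0)
    (u v : E3) (c : ℝ) (hc0 : c ≠ 0) (hn : gr h x ≠ 0) (huv : crossProduct u v = c • gr h x)
    (hu : gr h x ⬝ᵥ u = 0) (hv : gr h x ⬝ᵥ v = 0) : DD h lam x ≠ 0 := by
  intro hD
  obtain ⟨k, hk⟩ := Function.ne_iff.mp hn
  have hk' : gr h x k ≠ 0 := hk
  have e0 : u 1 * v 2 - u 2 * v 1 = c * gr h x 0 := by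
    have := congrFun huv 0
    simpa [cross_apply] using this
  have e1 : u 2 * v 0 - u 0 * v 2 = c * gr h x 1 := by
    have := congrFun huv 1
    simpa [cross_apply] using this
  have e2 : u 0 * v 1 - u 1 * v 0 = c * gr h x 2 := by
    have := congrFun huv 2
    simpa [cross_apply] using this
  have hli : LinearIndependent ℝ ![((u, 0) : V4), (v, 0), (0, 1)] := by
    rw [Fintype.linearIndependent_iff]
    intro g hg
    simp only [Fin.sum_univ_three, Matrix.cons_val_zero, Matrix.cons_val_one, Matrix.cons_val] at hg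
    have hg2 : g 2 = 0 := by
      have := congrArg Prod.snd hg
      simpa using this
    have hg1 : ∀ i, g 0 * u i + g 1 * v i = 0 := by
      intro i
      have := congrFun (congrArg Prod.fst hg) i
      simpa using this
    have ha : ∀ i, g 0 * (c * gr h x i) = 0 := by
      intro i
      fin_cases i
      · show g 0 * (c * gr h x 0) = 0
        rw [← e0]
        linear_combination v 2 * hg1 1 - v 1 * hg1 2
      · show g 0 * (c * gr h x 1) = 0
        rw [← e1]
        linear_combination v 0 * hg1 2 - v 2 * hg1 0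
      · show g 0 * (c * gr h x 2) = 0
        rw [← e2]
        linear_combination v 1 * hg1 0 - v 0 * hg1 1
    have hb : ∀ i, g 1 * (c * gr h x i) = 0 := by
      intro i
      fin_cases i
      · show g 1 * (c * gr h x 0) = 0
        rw [← e0]
        linear_combination u 1 * hg1 2 - u 2 * hg1 1
      · show g 1 * (c * gr h x 1) = 0
        rw [← e1]
        linear_combination u 2 * hg1 0 - u 0 * hg1 2
      · show g 1 * (c * gr h x 2) = 0
        rw [← e2]
        linear_combination u 0 * hg1 1 - u 1 * hg1 0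
    have hne : c * gr h x k ≠ 0 := mul_ne_zero hc0 hk'
    have hg0 : g 0 = 0 := (mul_eq_zero.mp (ha k)).resolve_right hne
    have hg1' : g 1 = 0 := (mul_eq_zero.mp (hb k)).resolve_right hne
    intro i
    fin_cases i
    · exact hg0
    · exact hg1'
    · exact hg2
  have ht1 : ((u, 0) : V4) ∈ Tan h ((x, 0) : V4) := by
    show fderiv ℝ h x u = 0
    rw [gr_eq, hu]
  have ht2 : ((v, 0) : V4) ∈ Tan h ((x, 0) : V4) := by
    show fderiv ℝ h x v = 0
    rw [gr_eq, hv]
  have ht3 : ((0, 1) : V4) ∈ Tan h ((x, 0) : V4) := by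
    show fderiv ℝ h x 0 = 0
    rw [map_zero]
  apply hc (x, 0) hx (u, 0) (v, 0) (0, 1) ht1 ht2 ht3 hli
  rw [lam_eq hinv, lam_eq hinv, lam_eq hinv, dlam_eq hlam hinv, dlam_eq hlam hinv,
    dlam_eq hlam hinv, huv]
  have hD2 : c * DD h lam x = 0 := by rw [hD, mul_zero]
  rw [← hD2]
  simp only [DD, dotProduct, Fin.sum_univ_three, cross_apply, Pi.add_apply, Pi.smul_apply,
    smul_eq_mul, Matrix.cons_val_zero, Matrix.cons_val_one, Matrix.cons_val, Pi.zero_apply]
  linear_combination (BB lam x 1 * gr (ff lam) x 2 - BB lam x 2 * gr (ff lam) x 1) * e0 +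
    (BB lam x 2 * gr (ff lam) x 0 - BB lam x 0 * gr (ff lam) x 2) * e1 +
    (BB lam x 0 * gr (ff lam) x 1 - BB lam x 1 * gr (ff lam) x 0) * e2

theorem DD_ne {h : E3 → ℝ} (hreg : ∀ x, h x = 0 → fderiv ℝ h x ≠ 0)
    {lam : V4 → V4 →L[ℝ] ℝ} (hlam : ContDiff ℝ 2 lam)
    (hinv : ∀ x z s, lam (x, z + s) = lam (x, z)) (hc : IsContact h lam) :
    ∀ x, h x = 0 → DD h lam x ≠ 0 := by
  intro x hx
  have hn : gr h x ≠ 0 := by
    intro h0
    apply hreg x hx
    ext v
    rw [gr_eq, h0, zero_dotProduct]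
    rfl
  obtain ⟨i, hi⟩ := Function.ne_iff.mp hn
  have hi' : gr h x i ≠ 0 := hi
  set n := gr h x with hndef
  fin_cases i
  · refine ConD_aux hlam hinv hc x hx ![-n 2, 0, n 0] ![n 1, -n 0, 0] (n 0) hi' hn ?_ ?_ ?_
    · ext k
      fin_cases k <;> simp [cross_apply, ← hndef] <;> ring
    · simp [dotProduct, Fin.sum_univ_three, ← hndef]
      ring
    · simp [dotProduct, Fin.sum_univ_three, ← hndef]
      ring
  · refine ConD_aux hlam hinv hc x hx ![n 1, -n 0, 0] ![0, n 2, -n 1] (n 1) hi' hn ?_ ?_ ?_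
    · ext k
      fin_cases k <;> simp [cross_apply, ← hndef] <;> ring
    · simp [dotProduct, Fin.sum_univ_three, ← hndef]
      ring
    · simp [dotProduct, Fin.sum_univ_three, ← hndef]
      ring
  · refine ConD_aux hlam hinv hc x hx ![0, n 2, -n 1] ![-n 2, 0, n 0] (n 2) hi' hn ?_ ?_ ?_
    · ext k
      fin_cases k <;> simp [cross_apply, ← hndef] <;> ring
    · simp [dotProduct, Fin.sum_univ_three, ← hndef]
      ring
    · simp [dotProduct, Fin.sum_univ_three, ← hndef]
      ring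

end Pool.Agent.RBO
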