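import Pool.Agent.RBO.Defs

set_option autoImplicit false

/-! Module Conn: removing two points from a connected surface.
Lemma: `M` T1, `A ⊆ M` open and preconnected, `a ∈ A`, `U ⊆ A` open, `a ∈ U`, `U ∖ {a}` preconnected.  Then `A ∖ {a}` is preconnected.
Proof: if `A ∖ {a} ⊆ V ∪ W`, `V, W` open, disjoint on `A ∖ {a}`, both meeting `A ∖ {a}`: `U ∖ {a}` is preconnected, so it lies in one of them, say in `V`, and does not meet `W` (inside `A ∖ {a}`).  Then `A ⊆ (V ∪ U) ∪ (W ∖ {a})`,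
both open and meeting `A`, and disjoint on `A`: contradiction with `A` preconnected.  Apply this to `A = univ`, `a`, and then to `A = {a}ᶜ`, `b` (if `b ≠ a`; choose `U ⊆ {a}ᶜ`). -/

namespace Pool.Agent.RBO

open Set Topology

theorem Conn_aux {M : Type} [TopologicalSpace M] [T1Space M] {A U : Set M} (hA : IsPreconnected A)
    {a : M} (ha : a ∈ U) (hUA : U ⊆ A) (hU : IsOpen U) (hUa : IsPreconnected (U \ {a}))
    {V W : Set M} (hV : IsOpen V) (hW : IsOpen W) (hVW : A \ {a} ⊆ V ∪ W)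
    (hUV : U \ {a} ⊆ V) (hdis : A \ {a} ∩ (V ∩ W) = ∅) : (A \ {a} ∩ W) = ∅ := by
  by_contra hcon
  obtain ⟨w, hw, hwW⟩ := nonempty_iff_ne_empty.2 hcon
  have hW' : IsOpen (W \ {a}) := hW.sdiff isClosed_singleton
  have h1 := hA (V ∪ U) (W \ {a}) (hV.union hU) hW' (by
    intro x hx
    by_cases hxa : x = a
    · left; right; rw [hxa]; exact ha
    · rcases hVW ⟨hx, hxa⟩ with h | h
      · left; left; exact h
      · right; exact ⟨h, hxa⟩) ⟨a, hUA ha, Or.inr ha⟩ ⟨w, hw.1, hwW, hw.2⟩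
  obtain ⟨x, hxA, hxV, hxW, hxa⟩ := h1
  have h2 : x ∈ V := by
    rcases hxV with h | h
    · exact h
    · exact hUV ⟨h, hxa⟩
  have h3 : x ∈ A \ {a} ∩ (V ∩ W) := ⟨⟨hxA, hxa⟩, h2, hxW⟩
  rw [hdis] at h3
  exact h3

theorem Conn_one {M : Type} [TopologicalSpace M] [T1Space M] {A U : Set M} (hA : IsPreconnected A)
    {a : M} (ha : a ∈ U) (hUA : U ⊆ A) (hU : IsOpen U) (hUa : IsPreconnected (U \ {a})) :
    IsPreconnected (A \ {a}) := by
  intro V W hV hW hVW hnV hnW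
  by_contra hcon
  rw [not_nonempty_iff_eq_empty] at hcon
  by_cases hUW : (U \ {a} ∩ W).Nonempty
  · have hUV : ¬ (U \ {a} ∩ V).Nonempty := by
      intro hUV
      obtain ⟨x, hx, hxV, hxW⟩ := hUa V W hV hW (fun x hx => hVW ⟨hUA hx.1, hx.2⟩) hUV hUW
      have h3 : x ∈ A \ {a} ∩ (V ∩ W) := ⟨⟨hUA hx.1, hx.2⟩, hxV, hxW⟩
      rw [hcon] at h3
      exact h3
    have hsub : U \ {a} ⊆ W := by
      intro x hx
      rcases hVW ⟨hUA hx.1, hx.2⟩ with h | h
      · exact absurd ⟨x, hx, h⟩ hUV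
      · exact h
    have h1 := Conn_aux hA ha hUA hU hUa hW hV (by rw [union_comm]; exact hVW) hsub
      (by rw [inter_comm W V]; exact hcon)
    rw [h1] at hnV
    exact not_nonempty_empty hnV
  · have hsub : U \ {a} ⊆ V := by
      intro x hx
      rcases hVW ⟨hUA hx.1, hx.2⟩ with h | h
      · exact h
      · exact absurd ⟨x, hx, h⟩ hUW
    have h1 := Conn_aux hA ha hUA hU hUa hV hW hVW hsub hcon
    rw [h1] at hnW
    exact not_nonempty_empty hnW

theorem con_of {M : Type} [TopologicalSpace M] [T2Space M] [PreconnectedSpace M]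
    (hloc : ∀ a : M, ∀ N ∈ 𝓝 a, ∃ U : Set M, IsOpen U ∧ a ∈ U ∧ U ⊆ N ∧ IsPreconnected (U \ {a}))
    (a b : M) : IsPreconnected ({a, b}ᶜ : Set M) := by
  have h1 : IsPreconnected ({a}ᶜ : Set M) := by
    obtain ⟨U, hU, ha, _, hUa⟩ := hloc a univ Filter.univ_mem
    have := Conn_one (A := univ) isPreconnected_univ ha (subset_univ _) hU hUa
    rwa [← compl_eq_univ_sdiff] at this
  by_cases hab : b = a
  · subst hab
    simpa using h1
  · obtain ⟨U, hU, hb, hUN, hUb⟩ := hloc b ({a}ᶜ) (isOpen_ne.mem_nhds hab)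
    have h2 := Conn_one h1 hb hUN hU hUb
    have h3 : ({a, b}ᶜ : Set M) = {a}ᶜ \ {b} := by
      ext x
      simp only [mem_compl_iff, mem_insert_iff, mem_singleton_iff, mem_sdiff, not_or]
    rw [h3]
    exact h2

end Pool.Agent.RBO
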