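import Mathlib

set_option autoImplicit false

/-!
# Contact forms on `S × ℝ/ℤ`, `S = {h = 0}` a closed surface in `ℝ³`, and their Reeb orbits
-/

namespace Pool.Agent.RBO.St

open Set

/-- `ℝ³` -/
abbrev R3 : Type := Fin 3 → ℝ

/-- `ℝ³ × ℝ`, the ambient space of `S × ℝ` -/
abbrev R4 : Type := (Fin 3 → ℝ) × ℝ

/-- 1-forms on `ℝ³ × ℝ` -/
abbrev OneForm : Type := R4 → R4 →L[ℝ] ℝ

/-- `{h = 0}` is a closed connected surface: compact, connected, nonempty, and `dh ≠ 0` on it -/
def IsSurface (h : R3 → ℝ) : Prop :=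
  ContDiff ℝ 2 h ∧ (∀ x, h x = 0 → fderiv ℝ h x ≠ 0) ∧ IsCompact {x | h x = 0} ∧
    IsConnected {x | h x = 0}

/-- `lam` is of class `C²` and invariant under the translations of the last coordinate -/
def IsInvariantForm (lam : OneForm) : Prop :=
  ContDiff ℝ 2 lam ∧ ∀ (x : R3) (z s : ℝ), lam (x, z + s) = lam (x, z)

/-- derivative of `g` at `p` in the direction `u` -/
noncomputable def dirDeriv (g : R4 → ℝ) (p u : R4) : ℝ := fderiv ℝ g p u

/-- exterior derivative of the 1-form `lam` -/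
noncomputable def dForm (lam : OneForm) (p u v : R4) : ℝ :=
  dirDeriv (fun q => lam q v) p u - dirDeriv (fun q => lam q u) p v

/-- `lam ∧ d lam` -/
noncomputable def wedge (lam : OneForm) (p u v w : R4) : ℝ :=
  lam p u * dForm lam p v w + lam p v * dForm lam p w u + lam p w * dForm lam p u v

/-- `v` is tangent to `{h = 0} × ℝ` at `p` -/
def IsTangent (h : R3 → ℝ) (p v : R4) : Prop := fderiv ℝ h p.1 v.1 = 0

/-- `lam` restricts to a contact form on `{h = 0} × ℝ`: `lam ∧ d lam ≠ 0` on its tangent spaces -/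
def IsContactForm (h : R3 → ℝ) (lam : OneForm) : Prop :=
  ∀ p : R4, h p.1 = 0 → ∀ u v w : R4, IsTangent h p u → IsTangent h p v → IsTangent h p w →
    LinearIndependent ℝ ![u, v, w] → wedge lam p u v w ≠ 0

/-- `v` is the Reeb vector of `lam` at `p`: tangent, `lam(v) = 1`, `d lam(v, w) = 0` for tangent `w` -/
def IsReebVector (h : R3 → ℝ) (lam : OneForm) (p v : R4) : Prop :=
  IsTangent h p v ∧ lam p v = 1 ∧ ∀ w, IsTangent h p w → dForm lam p v w = 0

/-- trajectories of the Reeb flow in `{h = 0} × ℝ` -/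
def IsReebTrajectory (h : R3 → ℝ) (lam : OneForm) (γ : ℝ → R4) : Prop :=
  ∀ t, h (γ t).1 = 0 ∧ ∃ v, HasDerivAt γ v t ∧ IsReebVector h lam (γ t) v

/-- projection to `ℝ³ × ℝ/ℤ` -/
noncomputable def proj (p : R4) : R3 × UnitAddCircle := (p.1, (p.2 : UnitAddCircle))

/-- `O` is (the image of) a closed Reeb orbit in `{h = 0} × ℝ/ℤ` -/
def IsClosedOrbit (h : R3 → ℝ) (lam : OneForm) (O : Set (R3 × UnitAddCircle)) : Prop :=
  ∃ γ : ℝ → R4, IsReebTrajectory h lam γ ∧
    (∃ T : ℝ, 0 < T ∧ ∀ t, proj (γ (t + T)) = proj (γ t)) ∧ O = range (fun t => proj (γ t))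

/-- the closed surface `{h = 0}` has positive genus: some continuous map to the circle `ℝ/ℤ` does not
lift to a continuous real function -/
def PositiveGenus (h : R3 → ℝ) : Prop :=
  ∃ θ : {x // h x = 0} → UnitAddCircle, Continuous θ ∧
    ¬ ∃ g : {x // h x = 0} → ℝ, Continuous g ∧ ∀ x, ((g x : ℝ) : UnitAddCircle) = θ x

end Pool.Agent.RBO.St
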