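import Mathlib

set_option autoImplicit false

/-!
# RBO: Reeb orbits of circle-invariant contact forms on `S × ℝ/ℤ`, `S` a closed surface
Blueprint: /team-store/rbo_blueprint.md
-/

namespace Pool.Agent.RBO

open Set

/-- ambient space of the surface -/
abbrev E3 : Type := Fin 3 → ℝ

/-- ambient space of `S × ℝ` -/
abbrev V4 : Type := (Fin 3 → ℝ) × ℝ

/-- exterior derivative of the 1-form `lam` -/
noncomputable def dlam (lam : V4 → V4 →L[ℝ] ℝ) (p u v : V4) : ℝ :=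
  (fderiv ℝ lam p u) v - (fderiv ℝ lam p v) u

/-- tangent vectors of `{h = 0} × ℝ` at `p` -/
def Tan (h : E3 → ℝ) (p : V4) : Set V4 := {v | fderiv ℝ h p.1 v.1 = 0}

/-- `lam ∧ d lam ≠ 0` on the tangent spaces of `{h = 0} × ℝ` -/
def IsContact (h : E3 → ℝ) (lam : V4 → V4 →L[ℝ] ℝ) : Prop :=
  ∀ p : V4, h p.1 = 0 → ∀ u v w : V4, u ∈ Tan h p → v ∈ Tan h p → w ∈ Tan h p →
    LinearIndependent ℝ ![u, v, w] →
    lam p u * dlam lam p v w + lam p v * dlam lam p w u + lam p w * dlam lam p u v ≠ 0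

/-- `v` is the Reeb vector of `lam` at `p` -/
def IsReeb (h : E3 → ℝ) (lam : V4 → V4 →L[ℝ] ℝ) (p v : V4) : Prop :=
  v ∈ Tan h p ∧ lam p v = 1 ∧ ∀ w ∈ Tan h p, dlam lam p v w = 0

/-- trajectories of the Reeb flow in `{h = 0} × ℝ` -/
def IsTraj (h : E3 → ℝ) (lam : V4 → V4 →L[ℝ] ℝ) (γ : ℝ → V4) : Prop :=
  ∀ t, h (γ t).1 = 0 ∧ ∃ v, HasDerivAt γ v t ∧ IsReeb h lam (γ t) v

/-- projection to `ℝ³ × ℝ/ℤ` -/
noncomputable def pr (p : V4) : E3 × UnitAddCircle := (p.1, (p.2 : UnitAddCircle))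

/-- `O` is (the image of) a closed Reeb orbit in `{h = 0} × ℝ/ℤ` -/
def IsOrbit (h : E3 → ℝ) (lam : V4 → V4 →L[ℝ] ℝ) (O : Set (E3 × UnitAddCircle)) : Prop :=
  ∃ γ : ℝ → V4, IsTraj h lam γ ∧ (∃ T : ℝ, 0 < T ∧ ∀ t, pr (γ (t + T)) = pr (γ t)) ∧
    O = range (fun t => pr (γ t))

/-! ## Coordinates -/

/-- gradient -/
noncomputable def gr (g : E3 → ℝ) (x : E3) : E3 := fun i => fderiv ℝ g x (Pi.single i 1)

/-- coefficient of `dz` -/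
noncomputable def ff (lam : V4 → V4 →L[ℝ] ℝ) (x : E3) : ℝ := lam (x, 0) (0, 1)

/-- the other coefficients -/
noncomputable def BB (lam : V4 → V4 →L[ℝ] ℝ) (x : E3) : E3 := fun i => lam (x, 0) (Pi.single i 1, 0)

/-- curl -/
noncomputable def crl (B : E3 → E3) (x : E3) : E3 :=
  ![gr (fun y => B y 2) x 1 - gr (fun y => B y 1) x 2,
    gr (fun y => B y 0) x 2 - gr (fun y => B y 2) x 0,
    gr (fun y => B y 1) x 0 - gr (fun y => B y 0) x 1]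

/-- `∇h · (B × ∇f + f curl B)` -/
noncomputable def DD (h : E3 → ℝ) (lam : V4 → V4 →L[ℝ] ℝ) (x : E3) : ℝ :=
  gr h x ⬝ᵥ (crossProduct (BB lam x) (gr (ff lam) x) + ff lam x • crl (BB lam) x)

/-- what is needed of a vector field and its flow -/
structure IsFlow {E : Type} [NormedAddCommGroup E] [NormedSpace ℝ E] (X : E → E)
    (φ : ℝ → E → E) : Prop where
  cont : Continuous (fun p : ℝ × E => φ p.1 p.2)
  zero : ∀ x, φ 0 x = x
  add : ∀ s t x, φ (s + t) x = φ s (φ t x)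
  der : ∀ x t, HasDerivAt (fun u => φ u x) (X (φ t x)) t
  uniq : ∀ γ : ℝ → E, (∀ t, HasDerivAt γ (X (γ t)) t) → ∀ t, γ t = φ t (γ 0)

/-- the vector fields: `X` (Reeb, horizontal part), `Y` (gradient-like), `ρ` (Reeb, vertical part) -/
structure Geo (h f : E3 → ℝ) (X Y : E3 → E3) (ρ : E3 → ℝ) : Prop where
  hC : ContDiff ℝ 2 h
  fC : ContDiff ℝ 2 f
  XC : ContDiff ℝ 1 X
  Xs : HasCompactSupport X
  YC : ContDiff ℝ 1 Y
  Ys : HasCompactSupport Y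
  rC : Continuous ρ
  cpt : IsCompact {x | h x = 0}
  conn : IsConnected {x | h x = 0}
  reg : ∀ x, h x = 0 → fderiv ℝ h x ≠ 0
  hX : ∀ x, fderiv ℝ h x (X x) = 0
  fX : ∀ x, fderiv ℝ f x (X x) = 0
  hY : ∀ x, fderiv ℝ h x (Y x) = 0
  fY : ∀ x, 0 ≤ fderiv ℝ f x (Y x)
  fY0 : ∀ x, h x = 0 → X x ≠ 0 → 0 < fderiv ℝ f x (Y x)
  Y0 : ∀ x, h x = 0 → X x = 0 → Y x = 0
  rf : ∀ x, h x = 0 → X x = 0 → ρ x * f x = 1
  ker : ∀ x, h x = 0 → X x ≠ 0 → ∀ v, fderiv ℝ h x v = 0 → fderiv ℝ f x v = 0 →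
    ∃ c : ℝ, v = c • X x

/-! ## Abstract dynamics on a compact space -/

/-- fixed points of the flow -/
def Crit {M : Type} (φ : ℝ → M → M) (x : M) : Prop := ∀ t, φ t x = x

/-- non-fixed periodic points -/
def Per {M : Type} (φ : ℝ → M → M) (x : M) : Prop := ¬ Crit φ x ∧ ∃ T : ℝ, 0 < T ∧ φ T x = x

/-- minimal period -/
noncomputable def Tm {M : Type} (φ : ℝ → M → M) (x : M) : ℝ := sInf {T : ℝ | 0 < T ∧ φ T x = x}

/-- advance in the circle direction over one period -/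
noncomputable def Th {M : Type} (φ : ℝ → M → M) (ρ : M → ℝ) (x : M) : ℝ :=
  ∫ u in (0 : ℝ)..(Tm φ x), ρ (φ u x)

/-- surface dynamics: `φ` = Reeb flow (horizontal part), `ψ` = gradient-like flow of `f` -/
structure SD {M : Type} [MetricSpace M] [CompactSpace M] (φ ψ : ℝ → M → M) (f ρ : M → ℝ) :
    Prop where
  fC : Continuous f
  rC : Continuous ρ
  pC : Continuous (fun p : ℝ × M => φ p.1 p.2)
  p0 : ∀ x, φ 0 x = x
  pa : ∀ s t x, φ (s + t) x = φ s (φ t x)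
  sC : Continuous (fun p : ℝ × M => ψ p.1 p.2)
  s0 : ∀ x, ψ 0 x = x
  sa : ∀ s t x, ψ (s + t) x = ψ s (ψ t x)
  finv : ∀ t x, f (φ t x) = f x
  inc : ∀ x, ¬ Crit φ x → ∀ t : ℝ, 0 < t → f x < f (ψ t x)
  fixc : ∀ x, Crit φ x → ∀ t, ψ t x = x
  rf : ∀ x, Crit φ x → ρ x * f x = 1
  arc : ∀ q, ¬ Crit φ q → ∀ τ : ℝ, 0 < τ → ∃ r : ℝ, 0 < r ∧ ∀ x y, dist x q < r → dist y q < r →
    f x = f y → ∃ t : ℝ, |t| < τ ∧ φ t x = y
  nor : ∀ q, ¬ Crit φ q → ∃ τ : ℝ, 0 < τ ∧ ∃ r : ℝ, 0 < r ∧ ∀ x, dist x q < r →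
    ∀ t : ℝ, t ≠ 0 → |t| ≤ τ → φ t x ≠ x
  con : ∀ a b : M, IsPreconnected ({a, b}ᶜ : Set M)
  inf : Infinite M

/-- closed orbits of the skew product on `M × ℝ/ℤ` -/
def IsPO {M : Type} (φ : ℝ → M → M) (ρ : M → ℝ) (O : Set (M × UnitAddCircle)) : Prop :=
  ∃ (x : M) (z T : ℝ), 0 < T ∧ φ T x = x ∧ (∃ n : ℤ, ∫ u in (0 : ℝ)..T, ρ (φ u x) = n) ∧
    O = range (fun t : ℝ => (φ t x, ((z + ∫ u in (0 : ℝ)..t, ρ (φ u x) : ℝ) : UnitAddCircle)))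

/-- levels of the periodic points with rational rotation -/
def RatLev {M : Type} (φ : ℝ → M → M) (f ρ : M → ℝ) : Set ℝ :=
  {s | ∃ x, Per φ x ∧ f x = s ∧ ∃ q : ℚ, Th φ ρ x = q}

end Pool.Agent.RBO
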