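import Pool.Agent.RBO.Near

set_option autoImplicit false

/-! Module JJ: if the periods are bounded on the component `J` of `0` in the open set `I = {σ | ψ σ p periodic}` then `J` is everything.
`I` is open (`near`, continuity of `ψ`), so `J` is open (`IsOpen.connectedComponentIn`).  `J` is closed: let `σ_n ∈ J`, `σ_n → σ`.  `ψ σ p` is not critical (`crit_grad`), and by `clo` it is periodic with minimal period `≤ T1`, so `σ ∈ I`; a small
interval around `σ` is contained in `I` and meets `J`, so `σ ∈ J`.  `J` is nonempty, open and closed in `ℝ`: `J = univ` (`IsClopen.eq_univ`). -/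

namespace Pool.Agent.RBO

open Set Filter Topology

variable {M : Type} [MetricSpace M] [CompactSpace M] {φ ψ : ℝ → M → M} {f ρ : M → ℝ}

theorem JJ_gcont (S : SD φ ψ f ρ) (p : M) : Continuous (fun σ => ψ σ p) :=
  S.sC.comp (continuous_id.prodMk continuous_const)

theorem jj (S : SD φ ψ f ρ) {p : M} (hp : Per φ p) (T1 : ℝ)
    (hb : ∀ σ ∈ connectedComponentIn {σ | Per φ (ψ σ p)} 0, Tm φ (ψ σ p) ≤ T1) :
    ∀ σ, Per φ (ψ σ p) ∧ Tm φ (ψ σ p) ≤ T1 := by
  have hopen : IsOpen {σ : ℝ | Per φ (ψ σ p)} := by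
    rw [Metric.isOpen_iff]
    intro σ hσ
    obtain ⟨r, hr, h⟩ := near S hσ 1 one_pos
    have hc := (JJ_gcont S p).continuousAt (x := σ)
    rw [Metric.continuousAt_iff] at hc
    obtain ⟨δ, hδ, h2⟩ := hc r hr
    exact ⟨δ, hδ, fun y hy => (h (ψ y p) (h2 hy)).1⟩
  have h0 : (0 : ℝ) ∈ {σ : ℝ | Per φ (ψ σ p)} := by
    show Per φ (ψ 0 p)
    rw [S.s0]
    exact hp
  have hsub : connectedComponentIn {σ | Per φ (ψ σ p)} (0 : ℝ) ⊆ {σ | Per φ (ψ σ p)} :=
    connectedComponentIn_subset _ _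
  have hJo : IsOpen (connectedComponentIn {σ | Per φ (ψ σ p)} (0 : ℝ)) :=
    hopen.connectedComponentIn
  have hJc : IsClosed (connectedComponentIn {σ | Per φ (ψ σ p)} (0 : ℝ)) := by
    rw [← closure_subset_iff_isClosed]
    intro σ hσ
    obtain ⟨s, hs, hlim⟩ := mem_closure_iff_seq_limit.mp hσ
    have hper : ∀ n, Per φ (ψ (s n) p) := fun n => hsub (hs n)
    have hnc : ¬ Crit φ (ψ σ p) := fun h => hp.1 ((crit_grad S σ p).1 h)
    have hσI : Per φ (ψ σ p) := by
      have hl2 : Tendsto (fun n => ψ (s n) p) atTop (𝓝 (ψ σ p)) :=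
        ((JJ_gcont S p).tendsto σ).comp hlim
      obtain ⟨t, ht, _, hte⟩ := clo S hnc T1 (fun n => ψ (s n) p) (fun n => Tm φ (ψ (s n) p)) hl2
        (fun n => ⟨(tm_spec S (hper n)).1, hb _ (hs n), (tm_spec S (hper n)).2⟩)
      exact ⟨hnc, t, ht, hte⟩
    have hnb : {σ : ℝ | Per φ (ψ σ p)} ∈ 𝓝 σ := hopen.mem_nhds hσI
    obtain ⟨δ, hδ, hball⟩ := Metric.mem_nhds_iff.mp hnb
    obtain ⟨n, hn⟩ := ((Metric.tendsto_atTop.mp hlim) δ hδ)
    have hn' := hn n le_rfl
    have hsub2 := (convex_ball σ δ).isPreconnected.subset_connectedComponentIn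
      (x := s n) (by rwa [Metric.mem_ball]) hball
    have hmem : σ ∈ connectedComponentIn {σ | Per φ (ψ σ p)} (s n) :=
      hsub2 (Metric.mem_ball_self hδ)
    rwa [← connectedComponentIn_eq (hs n)] at hmem
  have huniv : connectedComponentIn {σ | Per φ (ψ σ p)} (0 : ℝ) = univ :=
    IsClopen.eq_univ ⟨hJc, hJo⟩ ⟨0, mem_connectedComponentIn h0⟩
  intro σ
  have hσ : σ ∈ connectedComponentIn {σ | Per φ (ψ σ p)} (0 : ℝ) := by
    rw [huniv]
    exact mem_univ _
  exact ⟨hsub hσ, hb σ hσ⟩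

end Pool.Agent.RBO
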