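import Pool.Agent.RBO.LiftA
import Pool.Agent.RBO.Op

set_option autoImplicit false

/-! Module LiftB: the lift on the surface.  `Φ(σ, t) = φ t (ψ σ p)` is continuous and open (`op_map`) onto `{a, b}ᶜ`.  `G` of `liftA` is constant on the fibres of `Φ`: `Φ(σ, t) = Φ(σ', t')` gives `f(ψ σ p) = f(ψ σ' p)` (`finv`), `σ = σ'` (`grad_mono`),
`φ (t - t') (ψ σ p) = ψ σ p`, `t - t' = k Tm` (`tm_int`), and `G(σ, ·)` has period `Tm`.  Define `g (Φ(σ, t)) = G(σ, t)`, `g a = ga`, `g b = gb`.  `g` is continuous at the points of `{a, b}ᶜ` (open map: `g ∘ Φ = G`).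
At `b`: let `ε > 0`, `σ0` as in `liftA`.  If `x` is close to `b`, `x ≠ b` (and `x ≠ a`), `x = Φ(σ, t)`, then `f x > f(ψ σ0 p)`: indeed `f(ψ σ p)` is strictly increasing with limit `f b` as `σ → ∞` (`hb'` and continuity of `f`), so
`f b > f(ψ σ0 p)`; hence `σ > σ0` and `|g x - g b| < ε`.  The same at `a`. -/

namespace Pool.Agent.RBO

open Set Filter Topology

variable {M : Type} [MetricSpace M] [CompactSpace M] {φ ψ : ℝ → M → M} {f ρ : M → ℝ}

theorem LiftB_per {G : ℝ → ℝ} {T : ℝ} (h : ∀ t, G (t + T) = G t) (k : ℤ) (t : ℝ) :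
    G (t + k * T) = G t := by
  have h1 : Function.Periodic G T := h
  have h2 := h1.int_mul k
  exact h2 t

/-- near the upper end all points have large parameter -/
theorem LiftB_near (S : SD φ ψ f ρ) {p : M} (hp : ¬ Crit φ p) (b : M)
    (hb' : ∀ U ∈ 𝓝 b, ∃ σ0 : ℝ, ∀ σ, σ0 ≤ σ → ∀ t, φ t (ψ σ p) ∈ U) (s : ℝ) :
    ∀ᶠ x in 𝓝 b, ∀ σ t, x = φ t (ψ σ p) → s < σ := by
  have hm := grad_mono S hp
  have h1 : f (ψ s p) < f b := by
    by_contra hcon
    push Not at hcon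
    have h2 : f b < f (ψ (s + 1) p) := lt_of_le_of_lt hcon (hm (by linarith))
    have h3 : {x | f x < f (ψ (s + 1) p)} ∈ 𝓝 b :=
      S.fC.continuousAt.preimage_mem_nhds (Iio_mem_nhds h2)
    obtain ⟨σ0, h0⟩ := hb' _ h3
    have h4 := h0 (max σ0 (s + 1)) (le_max_left _ _) 0
    rw [S.p0] at h4
    have h5 : f (ψ (s + 1) p) ≤ f (ψ (max σ0 (s + 1)) p) := hm.monotone (le_max_right _ _)
    exact absurd h4 (not_lt.2 h5)
  have h2 : {x | f (ψ s p) < f x} ∈ 𝓝 b :=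
    S.fC.continuousAt.preimage_mem_nhds (Ioi_mem_nhds h1)
  filter_upwards [h2] with x hx σ t hxe
  have h3 : f (ψ s p) < f (ψ σ p) := by
    have h4 : f x = f (ψ σ p) := by rw [hxe, S.finv]
    rw [← h4]
    exact hx
  exact hm.lt_iff_lt.1 h3

theorem LiftB_near' (S : SD φ ψ f ρ) {p : M} (hp : ¬ Crit φ p) (a : M)
    (ha' : ∀ U ∈ 𝓝 a, ∃ σ0 : ℝ, ∀ σ, σ ≤ σ0 → ∀ t, φ t (ψ σ p) ∈ U) (s : ℝ) :
    ∀ᶠ x in 𝓝 a, ∀ σ t, x = φ t (ψ σ p) → σ < s := by
  have h1 := LiftB_near (sd_symm S) (p := p) hp a (by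
    intro U hU
    obtain ⟨σ0, h0⟩ := ha' U hU
    exact ⟨-σ0, fun σ hσ t => h0 (-σ) (by linarith) t⟩) (-s)
  filter_upwards [h1] with x hx σ t hxe
  have h2 := hx (-σ) t (by simpa using hxe)
  linarith

theorem liftB (S : SD φ ψ f ρ) {p : M} (hb : ∀ σ, Per φ (ψ σ p)) (a b : M) (hab : a ≠ b)
    (hcr : ∀ x, Crit φ x ↔ x = a ∨ x = b) (hall : ∀ x, ¬ Crit φ x → ∃ σ t, x = φ t (ψ σ p))
    (hb' : ∀ U ∈ 𝓝 b, ∃ σ0 : ℝ, ∀ σ, σ0 ≤ σ → ∀ t, φ t (ψ σ p) ∈ U)
    (ha' : ∀ U ∈ 𝓝 a, ∃ σ0 : ℝ, ∀ σ, σ ≤ σ0 → ∀ t, φ t (ψ σ p) ∈ U)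
    (θ : M → UnitAddCircle) (hθ : Continuous θ) :
    ∃ g : M → ℝ, Continuous g ∧ ∀ x, ((g x : ℝ) : UnitAddCircle) = θ x := by
  classical
  obtain ⟨G, hGc, hG, hGT, ⟨gb, hgb, hgb'⟩, ⟨ga, hga, hga'⟩⟩ := liftA S hb a b hb' ha' θ hθ
  have hp : ¬ Crit φ p := by
    have h1 := (hb 0).1
    rwa [S.s0] at h1
  have hm := grad_mono S hp
  -- well defined
  have hwd : ∀ σ t σ' t', φ t (ψ σ p) = φ t' (ψ σ' p) → G (σ, t) = G (σ', t') := by
    intro σ t σ' t' he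
    have h1 : f (ψ σ p) = f (ψ σ' p) := by
      rw [← S.finv t (ψ σ p), he, S.finv]
    have h2 : σ = σ' := hm.injective h1
    subst h2
    have h3 : φ (-t' + t) (ψ σ p) = ψ σ p := by
      rw [S.pa, he, ← S.pa, neg_add_cancel, S.p0]
    obtain ⟨k, hk⟩ := tm_int S (hb σ) h3
    have h4 : t = t' + k * Tm φ (ψ σ p) := by linarith
    rw [h4]
    exact LiftB_per (G := fun u => G (σ, u)) (hGT σ) k t'
  have hnc : ∀ x, x ≠ a → x ≠ b → ∃ σ t, x = φ t (ψ σ p) := fun x h1 h2 =>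
    hall x (fun h => by rcases (hcr x).1 h with h | h; exact h1 h; exact h2 h)
  have hnab : ∀ σ t, φ t (ψ σ p) ≠ a ∧ φ t (ψ σ p) ≠ b := by
    intro σ t
    have h1 : ¬ Crit φ (φ t (ψ σ p)) := by
      rw [crit_flow S]
      exact (hb σ).1
    constructor
    · intro h
      exact h1 ((hcr _).2 (Or.inl h))
    · intro h
      exact h1 ((hcr _).2 (Or.inr h))
  set g : M → ℝ := fun x => if x = a then ga else if x = b then gb else
    if h : ∃ q : ℝ × ℝ, x = φ q.2 (ψ q.1 p) then G (Classical.choose h) else 0 with hg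
  have hgΦ : ∀ σ t, g (φ t (ψ σ p)) = G (σ, t) := by
    intro σ t
    obtain ⟨h1, h2⟩ := hnab σ t
    have hex : ∃ q : ℝ × ℝ, φ t (ψ σ p) = φ q.2 (ψ q.1 p) := ⟨(σ, t), rfl⟩
    simp only [hg]
    rw [if_neg h1, if_neg h2, dif_pos hex]
    exact (hwd _ _ _ _ (Classical.choose_spec hex)).symm
  have hgA : g a = ga := by simp [hg]
  have hgB : g b = gb := by simp [hg, hab.symm]
  refine ⟨g, ?_, ?_⟩
  · rw [continuous_iff_continuousAt]
    intro x
    by_cases hxa : x = a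
    · subst hxa
      rw [Metric.continuousAt_iff']
      intro ε hε
      obtain ⟨σ0, h0⟩ := hga' ε hε
      have h1 := LiftB_near' S hp x ha' σ0
      have h2 : ∀ᶠ y in 𝓝 x, y ≠ b := isOpen_ne.mem_nhds hab
      filter_upwards [h1, h2] with y hy hyb
      by_cases hyx : y = x
      · rw [hyx, dist_self]; exact hε
      · obtain ⟨σ, t, hyt⟩ := hnc y hyx hyb
        have h3 := hy σ t hyt
        rw [hyt, hgΦ, hgA, Real.dist_eq]
        exact h0 σ h3.le t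
    · by_cases hxb : x = b
      · subst hxb
        rw [Metric.continuousAt_iff']
        intro ε hε
        obtain ⟨σ0, h0⟩ := hgb' ε hε
        have h1 := LiftB_near S hp x hb' σ0
        have h2 : ∀ᶠ y in 𝓝 x, y ≠ a := isOpen_ne.mem_nhds hxa
        filter_upwards [h1, h2] with y hy hya
        by_cases hyx : y = x
        · rw [hyx, dist_self]; exact hε
        · obtain ⟨σ, t, hyt⟩ := hnc y hya hyx
          have h3 := hy σ t hyt
          rw [hyt, hgΦ, hgB, Real.dist_eq]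
          exact h0 σ h3.le t
      · obtain ⟨σ, t, hxt⟩ := hnc x hxa hxb
        have hopen := op_map S hp
        have h1 : map (fun q : ℝ × ℝ => φ q.2 (ψ q.1 p)) (𝓝 (σ, t)) ≥ 𝓝 x := by
          rw [hxt]
          exact hopen.nhds_le (σ, t)
        have h2 : Tendsto g (map (fun q : ℝ × ℝ => φ q.2 (ψ q.1 p)) (𝓝 (σ, t))) (𝓝 (g x)) := by
          rw [tendsto_map'_iff]
          have h3 : g ∘ (fun q : ℝ × ℝ => φ q.2 (ψ q.1 p)) = G := by
            funext q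
            exact hgΦ q.1 q.2
          rw [h3, hxt, hgΦ]
          exact hGc.continuousAt
        exact h2.mono_left h1
  · intro x
    by_cases hxa : x = a
    · rw [hxa, hgA, hga]
    · by_cases hxb : x = b
      · rw [hxb, hgB, hgb]
      · obtain ⟨σ, t, hxt⟩ := hnc x hxa hxb
        rw [hxt, hgΦ, hG]

end Pool.Agent.RBO
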