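import Pool.Agent.RBO.Tmin

set_option autoImplicit false

/-! Module Start.  `per_level`: if the level of `p` contains no critical point then `p` is periodic.  The sequence `φ n p` has a cluster point `q` (compactness), `f q = f p`, so `q` is not critical.
`SD.arc` at `q` with `τ = 1/2`: there are `n < m` with `φ n p, φ m p ∈ B(q, r)`, so `φ t (φ n p) = φ m p` with `|t| < 1/2`: `φ (m - n - t) p = p`, `m - n - t > 0`.
`start`: `M` is infinite and there are finitely many critical points, so there is a non-critical `x`; `t ↦ f (ψ t x)` is strictly increasing and continuous, so it takes infinitely many values on `[0, 1]`;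
the critical values are finitely many; take `p = ψ t x` (not critical: `crit_grad`) with a non-critical value. -/

namespace Pool.Agent.RBO

open Set Filter Topology

variable {M : Type} [MetricSpace M] [CompactSpace M] {φ ψ : ℝ → M → M} {f ρ : M → ℝ}

theorem per_level (S : SD φ ψ f ρ) {p : M} (hp : ¬ Crit φ p) (hl : ∀ c, Crit φ c → f c ≠ f p) :
    Per φ p := by
  refine ⟨hp, ?_⟩
  obtain ⟨q, θ, hθ, hq⟩ := CompactSpace.tendsto_subseq (fun n : ℕ => φ (n : ℝ) p)
  have hfq : f q = f p := by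
    have h1 : Tendsto (fun n => f (φ ((θ n : ℕ) : ℝ) p)) atTop (𝓝 (f q)) :=
      (S.fC.tendsto q).comp hq
    have h2 : (fun n => f (φ ((θ n : ℕ) : ℝ) p)) = fun _ => f p := by
      funext n
      exact S.finv _ _
    rw [h2] at h1
    exact tendsto_nhds_unique h1 tendsto_const_nhds
  have hqc : ¬ Crit φ q := fun h => hl q h hfq
  obtain ⟨r, hr, harc⟩ := S.arc q hqc (1 / 2) (by norm_num)
  have hev := (Metric.tendsto_atTop.mp hq) r hr
  obtain ⟨N, hN⟩ := hev
  have hn : dist (φ ((θ N : ℕ) : ℝ) p) q < r := hN N le_rfl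
  have hm : dist (φ ((θ (N + 1) : ℕ) : ℝ) p) q < r := hN (N + 1) (by omega)
  have hlt : θ N < θ (N + 1) := hθ (by omega)
  obtain ⟨t, ht, he⟩ := harc _ _ hn hm (by rw [S.finv, S.finv])
  have hlt' : ((θ N : ℕ) : ℝ) + 1 ≤ ((θ (N + 1) : ℕ) : ℝ) := by exact_mod_cast hlt
  refine ⟨-(t + (θ N : ℕ)) + (θ (N + 1) : ℕ), ?_, ?_⟩
  · have := (abs_lt.mp ht).2
    linarith
  · rw [S.pa, ← he, ← S.pa t, Tmin_inv S]

theorem start (S : SD φ ψ f ρ) (hfin : {x | Crit φ x}.Finite) : ∃ p, Per φ p := by
  have := S.inf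
  obtain ⟨x, hx⟩ := hfin.infinite_compl.nonempty
  have hx' : ¬ Crit φ x := hx
  have hmono := grad_mono S hx'
  have hC : (f '' {x | Crit φ x}).Finite := hfin.image f
  have hpre : ((fun σ => f (ψ σ x)) ⁻¹' (f '' {x | Crit φ x})).Finite :=
    hC.preimage hmono.injective.injOn
  obtain ⟨σ, hσ⟩ := hpre.infinite_compl.nonempty
  refine ⟨ψ σ x, per_level S (fun h => hx' ((crit_grad S σ x).1 h)) ?_⟩
  intro c hc he
  exact hσ ⟨c, hc, he⟩

end Pool.Agent.RBO
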