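import Pool.Agent.RBO.Unb
import Pool.Agent.RBO.JJ
import Pool.Agent.RBO.All
import Pool.Agent.RBO.Cnt
import Pool.Agent.RBO.Start
import Pool.Agent.RBO.LiftB

set_option autoImplicit false

/-! Module Dich: the dichotomy for the skew product. -/

namespace Pool.Agent.RBO

open Set Filter Topology

variable {M : Type} [MetricSpace M] [CompactSpace M] {φ ψ : ℝ → M → M} {f ρ : M → ℝ}

theorem dich (S : SD φ ψ f ρ) :
    ({O | IsPO φ ρ O}.encard = 2 ∧ ∀ θ : M → UnitAddCircle, Continuous θ →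
      ∃ g : M → ℝ, Continuous g ∧ ∀ x, ((g x : ℝ) : UnitAddCircle) = θ x) ∨
    {O | IsPO φ ρ O}.Infinite := by
  by_cases hfin : {x | Crit φ x}.Finite
  swap
  · exact Or.inr (cnt_crit S hfin)
  by_cases hr : (RatLev φ f ρ).Infinite
  · exact Or.inr (cnt_rat S hr)
  left
  obtain ⟨p, hp⟩ := start S hfin
  set J := connectedComponentIn {σ | Per φ (ψ σ p)} 0 with hJ
  have hJP : ∀ σ ∈ J, Per φ (ψ σ p) := by
    intro σ hσ
    have h1 : J ⊆ {σ | Per φ (ψ σ p)} := connectedComponentIn_subset _ _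
    exact h1 hσ
  have hJc : IsPreconnected J := isPreconnected_connectedComponentIn
  have hb : ∃ T1 : ℝ, ∀ σ ∈ J, Tm φ (ψ σ p) ≤ T1 := by
    by_contra hcon
    push Not at hcon
    exact hr (unb S hp.1 J hJc hJP (fun C => by
      obtain ⟨σ, h1, h2⟩ := hcon C
      exact ⟨σ, h1, h2⟩))
  obtain ⟨T1, hT1⟩ := hb
  have hall := jj S hp T1 hT1
  obtain ⟨a, b, hab, hcr, hreg, hbb, haa⟩ := all S hfin T1 hall
  refine ⟨?_, fun θ hθ => liftB S (fun σ => (hall σ).1) a b hab hcr hreg hbb haa θ hθ⟩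
  -- `Th` is constant
  have hconst : ∀ σ, Th φ ρ (ψ σ p) = Th φ ρ (ψ 0 p) := by
    intro σ
    by_contra hne
    exact hr (infinite_of_ne S hp.1 univ isPreconnected_univ (fun s _ => (hall s).1) σ 0
      (mem_univ _) (mem_univ _) hne)
  -- and irrational
  have hirr : ∀ q : ℚ, Th φ ρ (ψ 0 p) ≠ q := by
    intro q hq
    apply hr
    have h1 : (range (fun σ => f (ψ σ p))).Infinite :=
      infinite_range_of_injective (grad_mono S hp.1).injective
    refine h1.mono ?_
    rintro _ ⟨σ, rfl⟩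
    exact ⟨ψ σ p, (hall σ).1, rfl, q, by rw [hconst σ, hq]⟩
  have hset : {O | IsPO φ ρ O} = {{a} ×ˢ univ, {b} ×ˢ univ} := by
    ext O
    simp only [mem_ofPred_eq, mem_insert_iff, mem_singleton_iff]
    constructor
    · intro hO
      rcases po_cases S hO with ⟨c, hc, rfl⟩ | ⟨x, hx, q, hq⟩
      · rcases (hcr c).1 hc with rfl | rfl
        · exact Or.inl rfl
        · exact Or.inr rfl
      · exfalso
        obtain ⟨σ, t, rfl⟩ := hreg x hx.1
        rw [th_flow S (hall σ).1 t, hconst σ] at hq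
        exact hirr q hq
    · rintro (rfl | rfl)
      · exact po_of_crit S ((hcr a).2 (Or.inl rfl))
      · exact po_of_crit S ((hcr b).2 (Or.inr rfl))
  rw [hset]
  apply encard_pair
  intro h
  apply hab
  have h1 : (a, (0 : UnitAddCircle)) ∈ ({a} ×ˢ univ : Set (M × UnitAddCircle)) := by simp
  rw [h] at h1
  simpa using h1

end Pool.Agent.RBO
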