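import Pool.Agent.RBO.Tmin

set_option autoImplicit false

/-! Module Ends: the orbits `C_σ = {φ t (ψ σ p)}` shrink to a critical point as `σ → ∞`.
(1) If `σ_n → ∞` and `ψ σ_n p → q` then `q` is critical: `f(ψ σ p)` is increasing and bounded (`M` compact), so it converges to `c = sup`, `f q = c`; `ψ 1 (ψ σ_n p) = ψ (σ_n + 1) p`, so `f(ψ 1 q) = c = f q`,
contradiction with `inc` if `q` is not critical.
(2) For every open `V ⊇ Crit` there is `σ0` with `C_σ ⊆ V` for `σ ≥ σ0`: otherwise there are `σ_n → ∞`, `t_n`, which may be taken in `[0, T1]` (`φ (Tm) = id` on the orbit, `Tm ≤ T1`), with `φ t_n (ψ σ_n p) ∉ V`;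
along a subsequence `t_n → t`, `ψ σ_n p → q`, critical by (1), and the limit `φ t q = q` is not in the open set `V`, contradiction.
(3) The critical points are finitely many: choose disjoint balls `B(c, δ)` around them; by (2) `ψ σ p` is in their union for `σ ≥ σ0`, and by connectedness of `[σ0, ∞)` in one of them, `B(b, δ)`.  For smaller radii
`ε ≤ δ/2`: `C_σ ⊆ ⋃ B(c, ε)` for large `σ`; the orbit `C_σ` is connected and contains `ψ σ p ∈ B(b, δ)`, so it is contained in `B(b, ε)`.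
(`end_bot` follows from `end_top` applied to `sd_symm S`; `f a < f b`: `f a ≤ f(ψ σ p)`-type inequalities: `f(ψ σ p) → f b` as `σ → ∞`, `→ f a` as `σ → -∞`, strictly increasing.) -/

namespace Pool.Agent.RBO

open Set Filter Topology

variable {M : Type} [MetricSpace M] [CompactSpace M] {φ ψ : ℝ → M → M} {f ρ : M → ℝ}

theorem Ends_bdd (S : SD φ ψ f ρ) : BddAbove (range f) := by
  have := isCompact_range S.fC
  exact this.bddAbove

/-- cluster points of the gradient line are critical -/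
theorem Ends_cluster (S : SD φ ψ f ρ) {p : M} (hp : ¬ Crit φ p) {q : M}
    (hq : MapClusterPt q atTop (fun σ : ℝ => ψ σ p)) : Crit φ q := by
  by_contra hc
  have hmono := (grad_mono S hp).monotone
  have hb : BddAbove (range (fun σ : ℝ => f (ψ σ p))) := by
    refine (Ends_bdd S).mono ?_
    rintro _ ⟨σ, rfl⟩
    exact ⟨_, rfl⟩
  have hlim := tendsto_atTop_ciSup hmono hb
  have hlim2 : Tendsto (fun σ : ℝ => f (ψ (1 + σ) p)) atTop (𝓝 (⨆ σ : ℝ, f (ψ σ p))) :=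
    hlim.comp (tendsto_atTop_add_const_left atTop 1 tendsto_id)
  have hdiff := hlim2.sub hlim
  rw [sub_self] at hdiff
  have hinc : f q < f (ψ 1 q) := S.inc q hc 1 one_pos
  set ε := (f (ψ 1 q) - f q) / 2 with hε
  have hε0 : 0 < ε := by rw [hε]; linarith
  have hG : Continuous (fun x : M => f (ψ 1 x) - f x) := by
    have h1 : Continuous (fun x : M => ψ 1 x) := S.sC.comp (Continuous.prodMk_right 1)
    exact (S.fC.comp h1).sub S.fC
  have hopen : {x : M | ε < f (ψ 1 x) - f x} ∈ 𝓝 q := by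
    apply (isOpen_lt continuous_const hG).mem_nhds
    show ε < f (ψ 1 q) - f q
    rw [hε]
    linarith
  have hfreq := hq.frequently hopen
  have hev : ∀ᶠ σ : ℝ in atTop, f (ψ (1 + σ) p) - f (ψ σ p) < ε := hdiff.eventually_lt_const hε0
  obtain ⟨σ, h1, h2⟩ := (hfreq.and_eventually hev).exists
  have h3 : ε < f (ψ 1 (ψ σ p)) - f (ψ σ p) := h1
  rw [S.sa] at h2
  linarith

/-- the orbits `C_σ` are in any neighbourhood of the critical set -/
theorem Ends_near (S : SD φ ψ f ρ) {p : M} (T1 : ℝ)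
    (hb : ∀ σ, Per φ (ψ σ p) ∧ Tm φ (ψ σ p) ≤ T1) (hp : ¬ Crit φ p) (V : Set M) (hV : IsOpen V)
    (hC : ∀ x, Crit φ x → x ∈ V) : ∀ᶠ σ : ℝ in atTop, ∀ t, φ t (ψ σ p) ∈ V := by
  by_contra hcon
  rw [Filter.not_eventually] at hcon
  have hA : ∀ σ : ℝ, (¬ ∀ t, φ t (ψ σ p) ∈ V) → ∃ t ∈ Icc (0 : ℝ) T1, φ t (ψ σ p) ∉ V := by
    intro σ h
    push Not at h
    obtain ⟨t, ht⟩ := h
    obtain ⟨hper, hT⟩ := hb σ
    obtain ⟨hT0, hTp⟩ := tm_spec S hper
    set T := Tm φ (ψ σ p) with hTdef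
    have hper' : Function.Periodic (fun t => φ t (ψ σ p)) T := by
      intro t
      show φ (t + T) (ψ σ p) = φ t (ψ σ p)
      rw [S.pa, hTp]
    obtain ⟨t', ht', heq⟩ := hper'.exists_mem_Ico₀ hT0 t
    refine ⟨t', ⟨ht'.1, ht'.2.le.trans hT⟩, ?_⟩
    have heq' : φ t (ψ σ p) = φ t' (ψ σ p) := heq
    rw [← heq']
    exact ht
  classical
  set A : Set ℝ := {σ | ¬ ∀ t, φ t (ψ σ p) ∈ V} with hAdef
  have hch : ∀ σ : ℝ, ∃ t : ℝ, σ ∈ A → t ∈ Icc (0 : ℝ) T1 ∧ φ t (ψ σ p) ∉ V := by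
    intro σ
    by_cases h : σ ∈ A
    · obtain ⟨t, h1, h2⟩ := hA σ h
      exact ⟨t, fun _ => ⟨h1, h2⟩⟩
    · exact ⟨0, fun h' => absurd h' h⟩
  choose t ht using hch
  have hne : (atTop ⊓ 𝓟 A : Filter ℝ).NeBot := by
    rw [← frequently_iff_neBot]
    exact hcon
  have hcomp : IsCompact ((Icc (0 : ℝ) T1) ×ˢ (univ : Set M)) := isCompact_Icc.prod isCompact_univ
  obtain ⟨⟨t0, q⟩, -, hclu⟩ := hcomp.exists_mapClusterPt (f := (atTop ⊓ 𝓟 A : Filter ℝ))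
    (u := fun σ => (t σ, ψ σ p)) (by
      rw [le_principal_iff, mem_map]
      apply mem_of_superset (mem_inf_of_right (mem_principal_self A))
      intro σ hσ
      exact ⟨(ht σ hσ).1, mem_univ _⟩)
  have hq : MapClusterPt q (atTop ⊓ 𝓟 A) (fun σ : ℝ => ψ σ p) :=
    hclu.continuousAt_comp (f := Prod.snd) continuous_snd.continuousAt
  have hq' : MapClusterPt q atTop (fun σ : ℝ => ψ σ p) := hq.mono inf_le_left
  have hqc := Ends_cluster S hp hq'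
  have hclosed : IsClosed {x : ℝ × M | φ x.1 x.2 ∉ V} := (hV.preimage S.pC).isClosed_compl
  have hmem : (t0, q) ∈ {x : ℝ × M | φ x.1 x.2 ∉ V} := by
    by_contra hn
    have hnb : {x : ℝ × M | φ x.1 x.2 ∉ V}ᶜ ∈ 𝓝 (t0, q) := hclosed.isOpen_compl.mem_nhds hn
    have hfr := hclu.frequently hnb
    have hev : ∀ᶠ σ in (atTop ⊓ 𝓟 A : Filter ℝ), (t σ, ψ σ p) ∈ {x : ℝ × M | φ x.1 x.2 ∉ V} := by
      apply mem_of_superset (mem_inf_of_right (mem_principal_self A))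
      intro σ hσ
      exact (ht σ hσ).2
    obtain ⟨σ, h1, h2⟩ := (hfr.and_eventually hev).exists
    exact h1 h2
  have h1 : φ t0 q ∉ V := hmem
  rw [hqc t0] at h1
  exact h1 (hC q hqc)

theorem end_top (S : SD φ ψ f ρ) (hfin : {x | Crit φ x}.Finite) {p : M} (T1 : ℝ)
    (hb : ∀ σ, Per φ (ψ σ p) ∧ Tm φ (ψ σ p) ≤ T1) : ∃ b, Crit φ b ∧
    ∀ U ∈ 𝓝 b, ∃ σ0 : ℝ, ∀ σ, σ0 ≤ σ → ∀ t, φ t (ψ σ p) ∈ U := by
  have hp : ¬ Crit φ p := by
    have := (hb 0).1.1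
    rwa [S.s0] at this
  obtain ⟨W, hW1, hW2⟩ := hfin.t2_separation
  have h0 := Ends_near S T1 hb hp (⋃ c ∈ {x | Crit φ x}, W c)
    (isOpen_biUnion (fun c _ => (hW1 c).2)) (fun x hx => mem_biUnion hx (hW1 x).1)
  obtain ⟨σ0, hσ0⟩ := Filter.eventually_atTop.1 h0
  have h1 := hσ0 σ0 le_rfl 0
  rw [S.p0] at h1
  simp only [mem_iUnion] at h1
  obtain ⟨b, hbc, hbW⟩ := h1
  have hbc' : Crit φ b := hbc
  set O2 : Set M := ⋃ c ∈ {x | Crit φ x ∧ x ≠ b}, W c with hO2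
  have hO2open : IsOpen O2 := isOpen_biUnion (fun c _ => (hW1 c).2)
  have hdisj : Disjoint (W b) O2 := by
    rw [hO2, Set.disjoint_iUnion₂_right]
    intro c hc
    exact hW2 hbc hc.1 (fun h => hc.2 h.symm)
  have hcov : (⋃ c ∈ {x | Crit φ x}, W c) ⊆ W b ∪ O2 := by
    intro x hx
    simp only [mem_iUnion] at hx
    obtain ⟨c, hc, hxc⟩ := hx
    by_cases hcb : c = b
    · left
      rw [← hcb]
      exact hxc
    · right
      exact mem_biUnion (show c ∈ {x | Crit φ x ∧ x ≠ b} from ⟨hc, hcb⟩) hxc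
  have hψc : Continuous (fun σ : ℝ => ψ σ p) := S.sC.comp (Continuous.prodMk_left p)
  have hline : (fun σ : ℝ => ψ σ p) '' (Ici σ0) ⊆ W b := by
    apply (isPreconnected_Ici.image _ hψc.continuousOn).subset_left_of_subset_union (hW1 b).2
      hO2open hdisj
    · rintro _ ⟨σ, hσ, rfl⟩
      have := hσ0 σ hσ 0
      rw [S.p0] at this
      exact hcov this
    · exact ⟨ψ σ0 p, ⟨σ0, self_mem_Ici, rfl⟩, hbW⟩
  refine ⟨b, hbc', fun U hU => ?_⟩
  obtain ⟨U', hU'1, hU'2, hU'3⟩ := mem_nhds_iff.1 hU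
  have h2 := Ends_near S T1 hb hp ((U' ∩ W b) ∪ O2) ((hU'2.inter (hW1 b).2).union hO2open)
    (by
      intro x hx
      by_cases hxb : x = b
      · left
        rw [hxb]
        exact ⟨hU'3, (hW1 b).1⟩
      · right
        exact mem_biUnion (show x ∈ {x | Crit φ x ∧ x ≠ b} from ⟨hx, hxb⟩) (hW1 x).1)
  obtain ⟨σ1, hσ1⟩ := Filter.eventually_atTop.1 h2
  refine ⟨max σ0 σ1, fun σ hσ t => ?_⟩
  have hφc : Continuous (fun t : ℝ => φ t (ψ σ p)) := S.pC.comp (Continuous.prodMk_left _)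
  have horb : range (fun t : ℝ => φ t (ψ σ p)) ⊆ U' ∩ W b := by
    apply (isPreconnected_range hφc).subset_left_of_subset_union (hU'2.inter (hW1 b).2)
      hO2open (hdisj.mono_left inter_subset_right)
    · rintro _ ⟨t, rfl⟩
      exact hσ1 σ ((le_max_right _ _).trans hσ) t
    · refine ⟨ψ σ p, ⟨0, S.p0 _⟩, ?_⟩
      have h3 : ψ σ p ∈ W b := hline ⟨σ, (le_max_left _ _).trans hσ, rfl⟩
      have h4 := hσ1 σ ((le_max_right _ _).trans hσ) 0
      rw [S.p0] at h4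
      rcases h4 with h4 | h4
      · exact h4
      · exact absurd h4 (Set.disjoint_left.1 hdisj h3)
  exact hU'1 (horb ⟨t, rfl⟩).1

theorem ends (S : SD φ ψ f ρ) (hfin : {x | Crit φ x}.Finite) {p : M} (T1 : ℝ)
    (hb : ∀ σ, Per φ (ψ σ p) ∧ Tm φ (ψ σ p) ≤ T1) : ∃ a b, Crit φ a ∧ Crit φ b ∧ f a < f b ∧
    (∀ U ∈ 𝓝 b, ∃ σ0 : ℝ, ∀ σ, σ0 ≤ σ → ∀ t, φ t (ψ σ p) ∈ U) ∧
    (∀ U ∈ 𝓝 a, ∃ σ0 : ℝ, ∀ σ, σ ≤ σ0 → ∀ t, φ t (ψ σ p) ∈ U) := by
  have hp : ¬ Crit φ p := by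
    have := (hb 0).1.1
    rwa [S.s0] at this
  obtain ⟨b, hbc, hb1⟩ := end_top S hfin T1 hb
  obtain ⟨a, hac, ha1⟩ := end_top (sd_symm S) hfin (p := p) T1 (fun σ => hb (-σ))
  have ha2 : ∀ U ∈ 𝓝 a, ∃ σ0 : ℝ, ∀ σ, σ ≤ σ0 → ∀ t, φ t (ψ σ p) ∈ U := by
    intro U hU
    obtain ⟨σ0, hσ0⟩ := ha1 U hU
    refine ⟨-σ0, fun σ hσ t => ?_⟩
    have := hσ0 (-σ) (by linarith) t
    rwa [neg_neg] at this
  have hmono := grad_mono S hp
  have hlimb : Tendsto (fun σ : ℝ => f (ψ σ p)) atTop (𝓝 (f b)) := by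
    apply (S.fC.tendsto b).comp
    intro U hU
    obtain ⟨σ0, hσ0⟩ := hb1 U hU
    rw [mem_map, mem_atTop_sets]
    refine ⟨σ0, fun σ hσ => ?_⟩
    have := hσ0 σ hσ 0
    rwa [S.p0] at this
  have hlima : Tendsto (fun σ : ℝ => f (ψ σ p)) atBot (𝓝 (f a)) := by
    apply (S.fC.tendsto a).comp
    intro U hU
    obtain ⟨σ0, hσ0⟩ := ha2 U hU
    rw [mem_map, mem_atBot_sets]
    refine ⟨σ0, fun σ hσ => ?_⟩
    have := hσ0 σ hσ 0
    rwa [S.p0] at this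
  have h1 : f a ≤ f (ψ 0 p) := hmono.monotone.le_of_tendsto hlima 0
  have h2 : f (ψ 1 p) ≤ f b := hmono.monotone.ge_of_tendsto hlimb 1
  have h3 : f (ψ 0 p) < f (ψ 1 p) := hmono one_pos
  exact ⟨a, b, hac, hbc, by linarith, hb1, ha2⟩

end Pool.Agent.RBO
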