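import Pool.Agent.RBO.Defs

set_option autoImplicit false

/-! Module Red: Reeb orbits are the closed orbits of the skew product.
`⇒`: let `γ` be a trajectory; `γ' t = (X (γ t).1, ρ (γ t).1)` (`hR`), so `(γ t).1 = φ t (γ 0).1` (`uniq`) and `(γ t).2 = (γ 0).2 + ∫_0^t ρ(φ u (γ 0).1) du` (fundamental theorem of calculus, `ρ` continuous).
`x = ⟨(γ 0).1, _⟩`, `z = (γ 0).2`; at `t = 0` the period condition says `φ T x = x` and `∫_0^T ρ = n` for an integer `n` (`AddCircle` equality).
`⇐`: `γ t = (φ t x, z + ∫_0^t ρ(φ u x) du)`; period: `φ (t + T) x = φ t (φ T x) = φ t x`, and `∫_0^{t+T} = ∫_0^T + ∫_T^{T+t} = n + ∫_0^t`. -/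

namespace Pool.Agent.RBO

open Set

theorem orbit_iff {h : E3 → ℝ} {lam : V4 → V4 →L[ℝ] ℝ} {X : E3 → E3} {ρ : E3 → ℝ} (hρ : Continuous ρ)
    (hR : ∀ x z v, h x = 0 → (IsReeb h lam (x, z) v ↔ v = (X x, ρ x)))
    {φ : ℝ → E3 → E3} (F : IsFlow X φ) {φ' : ℝ → {x : E3 // h x = 0} → {x : E3 // h x = 0}}
    (hφ : ∀ t x, (φ' t x : E3) = φ t x) (O : Set (E3 × UnitAddCircle)) :
    IsOrbit h lam O ↔ ∃ O' : Set ({x : E3 // h x = 0} × UnitAddCircle),
      IsPO φ' (fun x => ρ x) O' ∧ O = (Prod.map Subtype.val id) '' O' := by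
  constructor
  · rintro ⟨γ, hγ, ⟨T, hT, hper⟩, rfl⟩
    have hder : ∀ t, HasDerivAt γ (X (γ t).1, ρ (γ t).1) t := by
      intro t
      obtain ⟨h0, v, hv, hr⟩ := hγ t
      have := (hR (γ t).1 (γ t).2 v h0).1 (by simpa using hr)
      rw [← this]; exact hv
    have h1 : ∀ t, HasDerivAt (fun t => (γ t).1) (X (γ t).1) t := fun t => (hder t).fst
    have h2 : ∀ t, HasDerivAt (fun t => (γ t).2) (ρ (γ t).1) t := fun t => (hder t).snd
    have hfl : ∀ t, (γ t).1 = φ t (γ 0).1 := fun t => F.uniq (fun t => (γ t).1) h1 t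
    set x : {x : E3 // h x = 0} := ⟨(γ 0).1, (hγ 0).1⟩ with hx
    have hc : Continuous (fun u => ρ (φ u (γ 0).1)) :=
      hρ.comp (F.cont.comp (Continuous.prodMk continuous_id continuous_const))
    have hint : ∀ t, (γ t).2 = (γ 0).2 + ∫ u in (0 : ℝ)..t, ρ (φ u (γ 0).1) := by
      intro t
      have : ∫ u in (0 : ℝ)..t, ρ (φ u (γ 0).1) = (γ t).2 - (γ 0).2 := by
        apply intervalIntegral.integral_eq_sub_of_hasDerivAt (f := fun t => (γ t).2)
        · intro u _
          rw [← hfl u]; exact h2 u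
        · exact hc.intervalIntegrable _ _
      rw [this]; ring
    have hrw : ∀ u, (fun x : {x : E3 // h x = 0} => ρ x) (φ' u x) = ρ (φ u (γ 0).1) := by
      intro u
      simp only [hφ]
      rfl
    refine ⟨range (fun t : ℝ => (φ' t x, (((γ 0).2 + ∫ u in (0 : ℝ)..t, (fun x : {x : E3 // h x = 0} => ρ x) (φ' u x) : ℝ) : UnitAddCircle))),
      ⟨x, (γ 0).2, T, hT, ?_, ?_, rfl⟩, ?_⟩
    · have := congrArg Prod.fst (hper 0)
      simp only [pr, zero_add] at this
      apply Subtype.ext
      rw [hφ]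
      show φ T (γ 0).1 = (γ 0).1
      rw [← hfl T, this]
    · have := congrArg Prod.snd (hper 0)
      simp only [pr, zero_add] at this
      have h3 : (((γ T).2 - (γ 0).2 : ℝ) : UnitAddCircle) = 0 := by
        rw [AddCircle.coe_sub, this, sub_self]
      rw [AddCircle.coe_eq_zero_iff] at h3
      obtain ⟨n, hn⟩ := h3
      refine ⟨n, ?_⟩
      simp only [hrw]
      have h4 := hint T
      have h5 : (n : ℝ) = (γ T).2 - (γ 0).2 := by rw [← hn]; simp
      rw [h5]; linarith
    · rw [← range_comp]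
      congr 1
      funext t
      simp only [Function.comp, Prod.map, id, pr, hφ]
      rw [← hint t]
      show ((γ t).1, _) = (φ t (γ 0).1, _)
      rw [← hfl t]
  · rintro ⟨O', ⟨x, z, T, hT, hTx, ⟨n, hn⟩, rfl⟩, rfl⟩
    have hrw : ∀ u, ρ (φ' u x) = ρ (φ u x) := by
      intro u
      rw [hφ]
    simp only [hrw] at hn
    have hc : Continuous (fun u => ρ (φ u x)) :=
      hρ.comp (F.cont.comp (Continuous.prodMk continuous_id continuous_const))
    have hTx' : φ T x = x := by rw [← hφ, hTx]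
    have h0 : ∀ t, h (φ t x) = 0 := fun t => by rw [← hφ]; exact (φ' t x).2
    set γ : ℝ → V4 := fun t => (φ t x, z + ∫ u in (0 : ℝ)..t, ρ (φ u x)) with hγ
    refine ⟨γ, ?_, ⟨T, hT, ?_⟩, ?_⟩
    · intro t
      refine ⟨h0 t, (X (φ t x), ρ (φ t x)), ?_, ?_⟩
      · apply HasDerivAt.prodMk
        · exact F.der x t
        · have := (intervalIntegral.integral_hasDerivAt_right (hc.intervalIntegrable 0 t)
            (hc.stronglyMeasurableAtFilter _ _) hc.continuousAt).const_add z
          exact this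
      · exact (hR (φ t x) _ _ (h0 t)).2 rfl
    · intro t
      have e1 : φ (t + T) x = φ t x := by rw [F.add, hTx']
      have hp : Function.Periodic (fun u => ρ (φ u x)) T := by
        intro u
        show ρ (φ (u + T) x) = ρ (φ u x)
        rw [F.add, hTx']
      have e2 : ∫ u in (0 : ℝ)..(t + T), ρ (φ u x) = (∫ u in (0 : ℝ)..t, ρ (φ u x)) + n := by
        have h6 := intervalIntegral.integral_add_adjacent_intervals (μ := MeasureTheory.volume)
          (hc.intervalIntegrable 0 t) (hc.intervalIntegrable t (t+T))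
        have h7 := hp.intervalIntegral_add_eq t 0
        rw [zero_add, hn] at h7
        rw [← h6, h7]
      simp only [pr, hγ, e1, e2]
      congr 1
      rw [← add_assoc, AddCircle.coe_add _ _ (n : ℝ)]
      have : ((n : ℝ) : UnitAddCircle) = 0 := by
        rw [AddCircle.coe_eq_zero_iff]
        exact ⟨n, by simp⟩
      rw [this, add_zero]
    · rw [← range_comp]
      congr 1
      funext t
      simp only [Function.comp, Prod.map, id, pr, hφ, hγ]

end Pool.Agent.RBO
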