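import Pool.Agent.RBO.Defs

set_option autoImplicit false

/-! Module Loc: local structure of the surface.  `h` is `C^1` at `a`, `dh_a ≠ 0` is surjective onto `ℝ`; the implicit function theorem (`HasStrictFDerivAt.implicitToOpenPartialHomeomorph`, in
`Mathlib/Analysis/Calculus/Implicit.lean`; source in `ℝ³`, target in `ℝ × ker dh_a`, first coordinate `h`) gives a homeomorphism of a neighbourhood of `a` in `{h = 0}` onto an open subset of the
plane `K = ker dh_a` (`finrank = 2`), `a ↦ 0`.  Let `U` be the preimage of a small ball `ball 0 ε` of `K`; `ball 0 ε ∖ {0}` is preconnected and infinite: image of `K ∖ {0}`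
(`isPreconnected_compl_singleton_of_one_lt_rank`) under `OpenPartialHomeomorph.univBall` (or directly), so `U ∖ {a}` is its image under a continuous map. -/

namespace Pool.Agent.RBO

open Set Topology

theorem Loc_ball {K : Type} [NormedAddCommGroup K] [NormedSpace ℝ K] (hr : 1 < Module.rank ℝ K)
    (ε : ℝ) (hε : 0 < ε) : IsPreconnected (Metric.ball (0 : K) ε \ {0}) := by
  have h1 : IsPreconnected (({0} : Set K)ᶜ) :=
    (isConnected_compl_singleton_of_one_lt_rank hr (0 : K)).isPreconnected
  have hc : Continuous (fun k : K => (ε / (1 + ‖k‖)) • k) := by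
    refine Continuous.smul ?_ continuous_id
    refine continuous_const.div (continuous_const.add continuous_norm) ?_
    intro x
    have := norm_nonneg x
    positivity
  have h2 := h1.image _ hc.continuousOn
  have h3 : (fun k : K => (ε / (1 + ‖k‖)) • k) '' (({0} : Set K)ᶜ) = Metric.ball (0 : K) ε \ {0} := by
    ext v
    constructor
    · rintro ⟨k, hk, rfl⟩
      have hk0 : k ≠ 0 := hk
      have hk1 : 0 < ‖k‖ := norm_pos_iff.mpr hk0
      refine ⟨?_, ?_⟩
      · rw [Metric.mem_ball, dist_zero_right, norm_smul, Real.norm_of_nonneg (by positivity),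
          div_mul_eq_mul_div, div_lt_iff₀ (by positivity)]
        nlinarith
      · intro h
        rw [mem_singleton_iff, smul_eq_zero] at h
        rcases h with h | h
        · have : 0 < ε / (1 + ‖k‖) := by positivity
          exact this.ne' h
        · exact hk0 h
    · rintro ⟨hv, hv0⟩
      rw [Metric.mem_ball, dist_zero_right] at hv
      have h4 : 0 < ε - ‖v‖ := by linarith
      have hv1 : v ≠ 0 := hv0
      refine ⟨(1 / (ε - ‖v‖)) • v, ?_, ?_⟩
      · intro h
        rw [mem_singleton_iff, smul_eq_zero] at h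
        rcases h with h | h
        · have : 0 < 1 / (ε - ‖v‖) := by positivity
          exact this.ne' h
        · exact hv1 h
      · have h5 : ‖(1 / (ε - ‖v‖)) • v‖ = ‖v‖ / (ε - ‖v‖) := by
          rw [norm_smul, Real.norm_of_nonneg (by positivity)]
          ring
        have h6 : ε / (1 + ‖v‖ / (ε - ‖v‖)) = ε - ‖v‖ := by
          have h7 : 1 + ‖v‖ / (ε - ‖v‖) = ε / (ε - ‖v‖) := by
            field_simp
            ring
          rw [h7]
          field_simp
        show (ε / (1 + ‖(1 / (ε - ‖v‖)) • v‖)) • ((1 / (ε - ‖v‖)) • v) = v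
        rw [h5, h6, smul_smul, mul_one_div_cancel h4.ne', one_smul]
  rw [h3] at h2
  exact h2

theorem loc {h : E3 → ℝ} (hh : ContDiff ℝ 2 h) (hreg : ∀ x, h x = 0 → fderiv ℝ h x ≠ 0)
    (a : {x : E3 // h x = 0}) (N : Set {x : E3 // h x = 0}) (hN : N ∈ 𝓝 a) :
    ∃ U : Set {x : E3 // h x = 0}, IsOpen U ∧ a ∈ U ∧ U ⊆ N ∧ IsPreconnected (U \ {a}) ∧
      U.Infinite := by
  set f' := fderiv ℝ h a.1 with hf'
  have hs : HasStrictFDerivAt h f' a.1 :=
    (hh.contDiffAt).hasStrictFDerivAt (by norm_num)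
  have hne : f' ≠ 0 := hreg a.1 a.2
  have hsurj : Function.Surjective f' := by
    obtain ⟨v, hv⟩ : ∃ v, f' v ≠ 0 := by
      by_contra hcon
      push Not at hcon
      exact hne (ContinuousLinearMap.ext hcon)
    intro y
    refine ⟨(y / f' v) • v, ?_⟩
    rw [map_smul, smul_eq_mul, div_mul_cancel₀ _ hv]
  have hrange : f'.range = ⊤ := LinearMap.range_eq_top.mpr hsurj
  have hrank : 1 < Module.rank ℝ f'.ker := by
    have h1 := LinearMap.finrank_range_add_finrank_ker (f' : E3 →ₗ[ℝ] ℝ)
    have h2 : Module.finrank ℝ E3 = 3 := by simp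
    have h3 : Module.finrank ℝ (LinearMap.range (f' : E3 →ₗ[ℝ] ℝ)) = 1 := by
      have : LinearMap.range (f' : E3 →ₗ[ℝ] ℝ) = ⊤ := LinearMap.range_eq_top.mpr hsurj
      rw [this, finrank_top]
      simp
    have h4 : Module.finrank ℝ f'.ker = 2 := by
      have h5 : Module.finrank ℝ (LinearMap.ker (f' : E3 →ₗ[ℝ] ℝ)) = 2 := by omega
      exact h5
    have h6 : ((Module.finrank ℝ f'.ker : ℕ) : Cardinal) = Module.rank ℝ f'.ker :=
      Module.finrank_eq_rank ℝ f'.ker
    rw [← h6, h4]
    norm_num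
  have hnt : Nontrivial f'.ker := by
    have : 0 < Module.rank ℝ f'.ker := lt_trans zero_lt_one hrank
    exact rank_pos_iff_nontrivial.mp this
  let e := hs.implicitToOpenPartialHomeomorph h f' hrange
  have he1 : ∀ x, (e x).1 = h x := fun x => hs.implicitToOpenPartialHomeomorph_fst hrange x
  have hea : e a.1 = (0, 0) := by
    have := hs.implicitToOpenPartialHomeomorph_self hrange
    rw [a.2] at this
    exact this
  have hsrc : a.1 ∈ e.source := hs.mem_implicitToOpenPartialHomeomorph_source hrange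
  -- the neighbourhood
  obtain ⟨O', hO'N, hO'o, haO'⟩ := mem_nhds_iff.mp hN
  obtain ⟨O, hOo, rfl⟩ := isOpen_induced_iff.mp hO'o
  have hTo : IsOpen (e.target ∩ e.symm ⁻¹' O) := e.symm.isOpen_inter_preimage hOo
  have h0T : ((0 : ℝ), (0 : f'.ker)) ∈ e.target ∩ e.symm ⁻¹' O := by
    rw [← hea]
    refine ⟨e.map_source hsrc, ?_⟩
    show e.symm (e a.1) ∈ O
    rw [e.left_inv hsrc]
    exact haO'
  obtain ⟨ε, hε, hball⟩ := Metric.isOpen_iff.mp hTo _ h0T
  have hb : ∀ k : f'.ker, k ∈ Metric.ball (0 : f'.ker) ε →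
      ((0 : ℝ), k) ∈ e.target ∩ e.symm ⁻¹' O := by
    intro k hk
    apply hball
    rw [Metric.mem_ball, Prod.dist_eq]
    rw [Metric.mem_ball] at hk
    exact max_lt (by rw [dist_self]; exact hε) hk
  refine ⟨{x | x.1 ∈ e.source ∧ x.1 ∈ O ∧ (e x.1).2 ∈ Metric.ball (0 : f'.ker) ε}, ?_, ?_, ?_, ?_, ?_⟩
  · have hV : IsOpen (e.source ∩ e ⁻¹' (Prod.snd ⁻¹' (Metric.ball (0 : f'.ker) ε))) :=
      e.isOpen_inter_preimage (Metric.isOpen_ball.preimage continuous_snd)
    have := (hV.inter hOo).preimage (continuous_subtype_val : Continuous (fun x : {x : E3 // h x = 0} => x.1))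
    convert this using 1
    ext x
    simp only [mem_ofPred_eq, mem_preimage, mem_inter_iff]
    tauto
  · refine ⟨hsrc, haO', ?_⟩
    rw [hea]
    exact Metric.mem_ball_self hε
  · intro x hx
    exact hO'N hx.2.1
  · have hind : Topology.IsInducing (Subtype.val : {x : E3 // h x = 0} → E3) :=
      Topology.IsInducing.subtypeVal
    rw [← hind.isPreconnected_image]
    have himg : Subtype.val '' ({x : {x : E3 // h x = 0} | x.1 ∈ e.source ∧ x.1 ∈ O ∧
        (e x.1).2 ∈ Metric.ball (0 : f'.ker) ε} \ {a}) =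
        (fun k : f'.ker => e.symm ((0 : ℝ), k)) '' (Metric.ball (0 : f'.ker) ε \ {0}) := by
      ext y
      constructor
      · rintro ⟨x, ⟨⟨hx1, hx2, hx3⟩, hxa⟩, rfl⟩
        have hex : e x.1 = (0, (e x.1).2) := by
          apply Prod.ext
          · rw [he1, x.2]
          · rfl
        refine ⟨(e x.1).2, ⟨hx3, ?_⟩, ?_⟩
        · intro hk
          apply hxa
          rw [mem_singleton_iff] at hk
          rw [hk] at hex
          have : e x.1 = e a.1 := by rw [hex, hea]
          exact Subtype.ext (e.injOn hx1 hsrc this)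
        · show e.symm (0, (e x.1).2) = x.1
          rw [← hex]
          exact e.left_inv hx1
      · rintro ⟨k, ⟨hk, hk0⟩, rfl⟩
        obtain ⟨ht, hO⟩ := hb k hk
        have hk2 : e (e.symm ((0 : ℝ), k)) = (0, k) := e.right_inv ht
        have hh0 : h (e.symm ((0 : ℝ), k)) = 0 := by
          rw [← he1, hk2]
        refine ⟨⟨e.symm ((0 : ℝ), k), hh0⟩, ⟨⟨e.map_target ht, hO, ?_⟩, ?_⟩, rfl⟩
        · show (e (e.symm ((0 : ℝ), k))).2 ∈ _
          rw [hk2]
          exact hk
        · intro hxa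
          apply hk0
          have h7 : e.symm ((0 : ℝ), k) = a.1 := congrArg Subtype.val hxa
          rw [h7, hea] at hk2
          exact (congrArg Prod.snd hk2).symm
    rw [himg]
    refine (Loc_ball hrank ε hε).image _ ?_
    refine e.continuousOn_symm.comp (by fun_prop) ?_
    intro k hk
    exact (hb k hk.1).1
  · have hinf : (Metric.ball (0 : f'.ker) ε).Infinite :=
      infinite_of_mem_nhds (0 : f'.ker) (Metric.ball_mem_nhds _ hε)
    intro hfin
    have himg : (fun x : {x : E3 // h x = 0} => (e x.1).2) ''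
        {x : {x : E3 // h x = 0} | x.1 ∈ e.source ∧ x.1 ∈ O ∧
        (e x.1).2 ∈ Metric.ball (0 : f'.ker) ε} ⊇ Metric.ball (0 : f'.ker) ε := by
      intro k hk
      obtain ⟨ht, hO⟩ := hb k hk
      have hk2 : e (e.symm ((0 : ℝ), k)) = (0, k) := e.right_inv ht
      have hh0 : h (e.symm ((0 : ℝ), k)) = 0 := by
        rw [← he1, hk2]
      refine ⟨⟨e.symm ((0 : ℝ), k), hh0⟩, ⟨e.map_target ht, hO, ?_⟩, ?_⟩
      · show (e (e.symm ((0 : ℝ), k))).2 ∈ _
        rw [hk2]
        exact hk
      · show (e (e.symm ((0 : ℝ), k))).2 = k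
        rw [hk2]
    exact hinf ((hfin.image _).subset himg)

end Pool.Agent.RBO
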