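import Pool.Agent.RBO.Defs

set_option autoImplicit false

/-! Module Nor: no short return near a regular point.  `ℓ(v) = X(q) ⬝ᵥ v`; by continuity of `X` and the flow there are `τ, r > 0` with `ℓ(X(φ t x)) > 0` for `dist x q < r`, `|t| ≤ τ`.
So `t ↦ ℓ(φ t x)` is strictly increasing on `[-τ, τ]`; if `φ t x = x = φ 0 x` then `t = 0`. -/

namespace Pool.Agent.RBO

open Set

/-- scalar product with a fixed vector -/
noncomputable def Nor_ell (w : E3) : E3 →L[ℝ] ℝ :=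
  ∑ i, (w i) • (ContinuousLinearMap.proj i : E3 →L[ℝ] ℝ)

theorem Nor_ell_apply (w v : E3) : Nor_ell w v = ∑ i, w i * v i := by
  simp [Nor_ell]

theorem Nor_ell_pos (w : E3) (hw : w ≠ 0) : 0 < Nor_ell w w := by
  rw [Nor_ell_apply]
  have h0 : ∀ i ∈ Finset.univ, 0 ≤ w i * w i := fun i _ => mul_self_nonneg _
  obtain ⟨i, hi⟩ := Function.ne_iff.mp hw
  exact Finset.sum_pos' h0 ⟨i, Finset.mem_univ i, mul_self_pos.mpr hi⟩

theorem nor {X : E3 → E3} (hXc : Continuous X) {φ : ℝ → E3 → E3} (F : IsFlow X φ) (q : E3)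
    (hX : X q ≠ 0) : ∃ τ : ℝ, 0 < τ ∧ ∃ r : ℝ, 0 < r ∧ ∀ x, dist x q < r →
    ∀ t : ℝ, t ≠ 0 → |t| ≤ τ → φ t x ≠ x := by
  have hc : Continuous (fun p : ℝ × E3 => Nor_ell (X q) (X (φ p.1 p.2))) :=
    (Nor_ell (X q)).continuous.comp (hXc.comp F.cont)
  have h0 : 0 < Nor_ell (X q) (X (φ 0 q)) := by
    rw [F.zero]
    exact Nor_ell_pos _ hX
  have hev := (isOpen_lt continuous_const hc).mem_nhds (show ((0 : ℝ), q) ∈
    {p : ℝ × E3 | 0 < Nor_ell (X q) (X (φ p.1 p.2))} from h0)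
  obtain ⟨δ, hδ, hb⟩ := Metric.mem_nhds_iff.mp hev
  refine ⟨δ / 2, by linarith, δ, hδ, ?_⟩
  intro x hx t ht hτ heq
  have hpos : ∀ s : ℝ, |s| ≤ δ / 2 → 0 < Nor_ell (X q) (X (φ s x)) := by
    intro s hs
    have : (s, x) ∈ Metric.ball ((0 : ℝ), q) δ := by
      rw [Metric.mem_ball, Prod.dist_eq]
      refine max_lt ?_ hx
      rw [dist_zero_right, Real.norm_eq_abs]
      linarith
    exact hb this
  have hd : ∀ s : ℝ, HasDerivAt (fun u => Nor_ell (X q) (φ u x)) (Nor_ell (X q) (X (φ s x))) s :=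
    fun s => (Nor_ell (X q)).hasFDerivAt.comp_hasDerivAt s (F.der x s)
  have hmono : StrictMonoOn (fun u => Nor_ell (X q) (φ u x)) (Icc (-(δ / 2)) (δ / 2)) := by
    apply strictMonoOn_of_deriv_pos (convex_Icc _ _)
    · exact fun s _ => (hd s).continuousAt.continuousWithinAt
    · intro s hs
      rw [interior_Icc] at hs
      rw [(hd s).deriv]
      exact hpos s (abs_le.mpr ⟨hs.1.le, hs.2.le⟩)
  have ht1 : t ∈ Icc (-(δ / 2)) (δ / 2) := abs_le.mp hτ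
  have ht0 : (0 : ℝ) ∈ Icc (-(δ / 2)) (δ / 2) := ⟨by linarith, by linarith⟩
  apply ht
  apply hmono.injOn ht1 ht0
  show Nor_ell (X q) (φ t x) = Nor_ell (X q) (φ 0 x)
  rw [heq, F.zero]

end Pool.Agent.RBO
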