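import Pool.Agent.RBO.Flow
import Pool.Agent.RBO.Arc
import Pool.Agent.RBO.Nor
import Pool.Agent.RBO.Loc
import Pool.Agent.RBO.Conn

set_option autoImplicit false

/-! Module SDof: the dynamics on the surface `M = {x // h x = 0}` satisfies `SD`.
`h` is constant along both flows (`hX`, `hY`: derivative zero), so they preserve `{h = 0}`: `φ' t x = ⟨φ t x, _⟩`, `ψ' t x = ⟨ψ t x, _⟩`.
`Crit φ' x ↔ X x = 0`: derivative at `t = 0` / `uniq` applied to the constant curve.  `finv`: `fX`.  `fixc`: `Y0` and `uniq` for the constant curve.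
`inc`: `d/dt f(ψ t x) = df(Y) ≥ 0` everywhere and `> 0` at `t = 0` (`fY0`), so `f(ψ t x) > f(x)` for `t > 0`.  `rf`: `Geo.rf`.  `arc`, `nor`: the theorems `arc`, `nor` (`dist` on the subtype is the
restriction).  `con`: `con_of` and `loc` (`PreconnectedSpace` from `Geo.conn`).  `inf`: `loc` at some point (`U` infinite). -/

namespace Pool.Agent.RBO

open Set

theorem SDof_der {g : E3 → ℝ} (hg : ContDiff ℝ 2 g) {X : E3 → E3} {φ : ℝ → E3 → E3}
    (F : IsFlow X φ) (x : E3) (t : ℝ) :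
    HasDerivAt (fun u => g (φ u x)) (fderiv ℝ g (φ t x) (X (φ t x))) t := by
  have h1 : HasFDerivAt g (fderiv ℝ g (φ t x)) (φ t x) :=
    (hg.differentiable (by norm_num)).differentiableAt.hasFDerivAt
  exact h1.comp_hasDerivAt t (F.der x t)

theorem SDof_const {g : E3 → ℝ} (hg : ContDiff ℝ 2 g) {X : E3 → E3} {φ : ℝ → E3 → E3}
    (F : IsFlow X φ) (h0 : ∀ x, fderiv ℝ g x (X x) = 0) (t : ℝ) (x : E3) : g (φ t x) = g x := by
  have h1 : ∀ s, HasDerivAt (fun u => g (φ u x)) 0 s := by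
    intro s
    have := SDof_der hg F x s
    rwa [h0] at this
  have h2 := is_const_of_deriv_eq_zero (f := fun u => g (φ u x))
    (fun s => (h1 s).differentiableAt) (fun s => (h1 s).deriv) t 0
  simpa [F.zero] using h2

theorem SDof_fix {X : E3 → E3} {φ : ℝ → E3 → E3} (F : IsFlow X φ) (x : E3) (hx : X x = 0)
    (t : ℝ) : φ t x = x := by
  have := F.uniq (fun _ => x) (fun s => by simpa [hx] using hasDerivAt_const s x) t
  exact this.symm

theorem SDof_zero {X : E3 → E3} {φ : ℝ → E3 → E3} (F : IsFlow X φ) (x : E3)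
    (hx : ∀ t, φ t x = x) : X x = 0 := by
  have h1 := F.der x 0
  rw [F.zero] at h1
  have h2 : (fun u => φ u x) = fun _ => x := funext hx
  rw [h2] at h1
  exact h1.unique (hasDerivAt_const 0 x)

theorem SDof_inc {f : E3 → ℝ} (hf : ContDiff ℝ 2 f) {Y : E3 → E3} {ψ : ℝ → E3 → E3}
    (P : IsFlow Y ψ) (h0 : ∀ x, 0 ≤ fderiv ℝ f x (Y x)) (x : E3) (hx : 0 < fderiv ℝ f x (Y x))
    (t : ℝ) (ht : 0 < t) : f x < f (ψ t x) := by
  have hm : Monotone (fun u => f (ψ u x)) := by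
    apply monotone_of_deriv_nonneg
    · intro s; exact (SDof_der hf P x s).differentiableAt
    · intro s; rw [(SDof_der hf P x s).deriv]; exact h0 _
  have h1 := SDof_der hf P x 0
  rw [P.zero] at h1
  rw [hasDerivAt_iff_tendsto_slope] at h1
  have h2 : ∀ᶠ u in nhdsWithin (0 : ℝ) {0}ᶜ, 0 < slope (fun u => f (ψ u x)) 0 u :=
    h1.eventually (lt_mem_nhds hx)
  have h3 : ∀ᶠ u in nhdsWithin (0 : ℝ) (Ioi 0), 0 < slope (fun u => f (ψ u x)) 0 u :=
    h2.filter_mono (nhdsWithin_mono _ (fun u hu => ne_of_gt hu))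
  have h4 : ∀ᶠ u in nhdsWithin (0 : ℝ) (Ioi 0), u ∈ Ioo 0 t := Ioo_mem_nhdsGT ht
  obtain ⟨u, hu1, hu2⟩ := (h3.and h4).exists
  have h5 : f x < f (ψ u x) := by
    rw [slope_def_field] at hu1
    simp only [P.zero, sub_zero] at hu1
    have := (div_pos_iff_of_pos_right hu2.1).mp hu1
    linarith
  exact lt_of_lt_of_le h5 (hm hu2.2.le)

theorem sd_of {h f : E3 → ℝ} {X Y : E3 → E3} {ρ : E3 → ℝ} (G : Geo h f X Y ρ)
    {φ ψ : ℝ → E3 → E3} (F : IsFlow X φ) (P : IsFlow Y ψ) [CompactSpace {x : E3 // h x = 0}] :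
    ∃ φ' ψ' : ℝ → {x : E3 // h x = 0} → {x : E3 // h x = 0},
      (∀ t x, (φ' t x : E3) = φ t x) ∧ (∀ t x, (ψ' t x : E3) = ψ t x) ∧
      SD φ' ψ' (fun x => f x) (fun x => ρ x) := by
  have hφ : ∀ t (x : {x : E3 // h x = 0}), h (φ t x) = 0 := fun t x => by
    rw [SDof_const G.hC F G.hX]; exact x.2
  have hψ : ∀ t (x : {x : E3 // h x = 0}), h (ψ t x) = 0 := fun t x => by
    rw [SDof_const G.hC P G.hY]; exact x.2
  have hcrit : ∀ x : {x : E3 // h x = 0},
      Crit (fun t (x : {x : E3 // h x = 0}) => (⟨φ t x, hφ t x⟩ : {x : E3 // h x = 0})) x →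
        X x = 0 := by
    intro x hx
    exact SDof_zero F x (fun t => congrArg Subtype.val (hx t))
  have hncrit : ∀ x : {x : E3 // h x = 0},
      ¬ Crit (fun t (x : {x : E3 // h x = 0}) => (⟨φ t x, hφ t x⟩ : {x : E3 // h x = 0})) x →
        X x ≠ 0 := by
    intro x hx h0
    exact hx (fun t => Subtype.ext (SDof_fix F x h0 t))
  have : PreconnectedSpace {x : E3 // h x = 0} :=
    Subtype.preconnectedSpace G.conn.isPreconnected
  refine ⟨fun t x => ⟨φ t x, hφ t x⟩, fun t x => ⟨ψ t x, hψ t x⟩, fun _ _ => rfl,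
    fun _ _ => rfl, ?_⟩
  constructor
  · exact G.fC.continuous.comp continuous_subtype_val
  · exact G.rC.comp continuous_subtype_val
  · apply Continuous.subtype_mk
    exact F.cont.comp (continuous_fst.prodMk (continuous_subtype_val.comp continuous_snd))
  · intro x; exact Subtype.ext (F.zero x)
  · intro s t x; exact Subtype.ext (F.add s t x)
  · apply Continuous.subtype_mk
    exact P.cont.comp (continuous_fst.prodMk (continuous_subtype_val.comp continuous_snd))
  · intro x; exact Subtype.ext (P.zero x)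
  · intro s t x; exact Subtype.ext (P.add s t x)
  · intro t x; exact SDof_const G.fC F G.fX t x
  · intro x hx t ht
    exact SDof_inc G.fC P G.fY x (G.fY0 x x.2 (hncrit x hx)) t ht
  · intro x hx t
    exact Subtype.ext (SDof_fix P x (G.Y0 x x.2 (hcrit x hx)) t)
  · intro x hx
    exact G.rf x x.2 (hcrit x hx)
  · intro q hq τ hτ
    obtain ⟨r, hr, hr2⟩ := arc G F q q.2 (hncrit q hq) τ hτ
    refine ⟨r, hr, fun x y hx hy hxy => ?_⟩
    obtain ⟨t, ht, ht2⟩ := hr2 x y x.2 y.2 hx hy hxy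
    exact ⟨t, ht, Subtype.ext ht2⟩
  · intro q hq
    obtain ⟨τ, hτ, r, hr, hr2⟩ := nor G.XC.continuous F q (hncrit q hq)
    refine ⟨τ, hτ, r, hr, fun x hx t ht ht2 he => ?_⟩
    exact hr2 x hx t ht ht2 (congrArg Subtype.val he)
  · intro a b
    apply con_of
    intro a N hN
    obtain ⟨U, h1, h2, h3, h4, -⟩ := loc G.hC G.reg a N hN
    exact ⟨U, h1, h2, h3, h4⟩
  · obtain ⟨a, ha⟩ := G.conn.nonempty
    obtain ⟨U, -, -, -, -, h5⟩ := loc G.hC G.reg ⟨a, ha⟩ univ Filter.univ_mem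
    exact Set.infinite_univ_iff.mp (h5.mono (subset_univ _))

end Pool.Agent.RBO
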