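import Pool.Agent.RBO.GeoEx
import Pool.Agent.RBO.SDof
import Pool.Agent.RBO.Red
import Pool.Agent.RBO.Dich

set_option autoImplicit false

/-! Module Fin: conclusion. -/

namespace Pool.Agent.RBO

open Set

theorem fin_main {h : E3 → ℝ} (hh : ContDiff ℝ 2 h) (hreg : ∀ x, h x = 0 → fderiv ℝ h x ≠ 0)
    (hcpt : IsCompact {x | h x = 0}) (hconn : IsConnected {x | h x = 0})
    {lam : V4 → V4 →L[ℝ] ℝ} (hlam : ContDiff ℝ 2 lam)
    (hinv : ∀ x z s, lam (x, z + s) = lam (x, z)) (hc : IsContact h lam) :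
    ({O | IsOrbit h lam O}.encard = 2 ∨ {O | IsOrbit h lam O}.Infinite) ∧
    (∀ θ : {x : E3 // h x = 0} → UnitAddCircle, Continuous θ →
      (¬ ∃ g : {x : E3 // h x = 0} → ℝ, Continuous g ∧ ∀ x, ((g x : ℝ) : UnitAddCircle) = θ x) →
      {O | IsOrbit h lam O}.Infinite) := by
  obtain ⟨f, X, Y, ρ, G, hR⟩ := geo_exists hh hreg hcpt hconn hlam hinv hc
  obtain ⟨φ, F⟩ := exists_flow X G.XC G.Xs
  obtain ⟨ψ, P⟩ := exists_flow Y G.YC G.Ys
  have hcs : CompactSpace {x : E3 // h x = 0} := isCompact_iff_compactSpace.1 hcpt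
  obtain ⟨φ', ψ', hφ, hψ, S⟩ := sd_of G F P
  have hinj : Function.Injective
      (image (Prod.map (Subtype.val : {x : E3 // h x = 0} → E3) (id : UnitAddCircle → UnitAddCircle))) :=
    Set.image_injective.2 (Subtype.val_injective.prodMap Function.injective_id)
  have hset : {O | IsOrbit h lam O} =
      (image (Prod.map Subtype.val id)) '' {O' | IsPO φ' (fun x => ρ x) O'} := by
    ext O
    rw [mem_ofPred_eq, orbit_iff G.rC hR F hφ O]
    constructor
    · rintro ⟨O', h1, rfl⟩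
      exact ⟨O', h1, rfl⟩
    · rintro ⟨O', h1, rfl⟩
      exact ⟨O', h1, rfl⟩
  rw [hset, hinj.encard_image, infinite_image_iff hinj.injOn]
  rcases dich S with ⟨h1, h2⟩ | h1
  · exact ⟨Or.inl h1, fun θ hθ hn => absurd (h2 θ hθ) hn⟩
  · exact ⟨Or.inr h1, fun _ _ _ => h1⟩

end Pool.Agent.RBO
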