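import Pool.Agent.RBO.Contact
import Pool.Agent.RBO.Fin

set_option autoImplicit false

/-! The theorem in terms of the definitions of `Contact.lean`. -/

namespace Pool.Agent.RBO

open Set St

theorem dForm_eq {lam : V4 → V4 →L[ℝ] ℝ} (hlam : ContDiff ℝ 2 lam) (p u v : V4) :
    dForm lam p u v = dlam lam p u v := by
  have hd : DifferentiableAt ℝ lam p := hlam.differentiable (by norm_num) p
  have h1 : ∀ v : V4, ∀ u : V4, fderiv ℝ (fun q => lam q v) p u = (fderiv ℝ lam p u) v := by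
    intro v u
    have h2 := hd.hasFDerivAt.clm_apply (hasFDerivAt_const v p)
    rw [h2.fderiv]
    simp
  unfold dForm dlam dirDeriv
  rw [h1, h1]

theorem isReeb_eq {h : E3 → ℝ} {lam : V4 → V4 →L[ℝ] ℝ} (hlam : ContDiff ℝ 2 lam) (p v : V4) :
    IsReebVector h lam p v ↔ IsReeb h lam p v := by
  unfold IsReebVector IsReeb
  constructor
  · rintro ⟨h1, h2, h3⟩
    exact ⟨h1, h2, fun w hw => by rw [← dForm_eq hlam]; exact h3 w hw⟩
  · rintro ⟨h1, h2, h3⟩
    exact ⟨h1, h2, fun w hw => by rw [dForm_eq hlam]; exact h3 w hw⟩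

theorem isTraj_eq {h : E3 → ℝ} {lam : V4 → V4 →L[ℝ] ℝ} (hlam : ContDiff ℝ 2 lam) (γ : ℝ → V4) :
    IsReebTrajectory h lam γ ↔ IsTraj h lam γ := by
  unfold IsReebTrajectory IsTraj
  simp only [isReeb_eq hlam]

theorem isOrbit_eq {h : E3 → ℝ} {lam : V4 → V4 →L[ℝ] ℝ} (hlam : ContDiff ℝ 2 lam)
    (O : Set (E3 × UnitAddCircle)) : IsClosedOrbit h lam O ↔ IsOrbit h lam O := by
  unfold IsClosedOrbit IsOrbit
  simp only [isTraj_eq hlam]
  rfl

theorem final_main (h : R3 → ℝ) (hS : IsSurface h) (lam : OneForm) (hinv : IsInvariantForm lam)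
    (hc : IsContactForm h lam) :
    ({O | IsClosedOrbit h lam O}.encard = 2 ∨ {O | IsClosedOrbit h lam O}.Infinite) ∧
    (PositiveGenus h → {O | IsClosedOrbit h lam O}.Infinite) := by
  have hset : {O | IsClosedOrbit h lam O} = {O | IsOrbit h lam O} := by
    ext O
    exact isOrbit_eq hinv.1 O
  have hc' : IsContact h lam := by
    intro p hp u v w hu hv hw hl
    have := hc p hp u v w hu hv hw hl
    unfold wedge at this
    rw [dForm_eq hinv.1, dForm_eq hinv.1, dForm_eq hinv.1] at this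
    exact this
  obtain ⟨h1, h2⟩ := fin_main hS.1 hS.2.1 hS.2.2.1 hS.2.2.2 hinv.1 hinv.2 hc'
  rw [hset]
  exact ⟨h1, fun ⟨θ, hθ, hn⟩ => h2 θ hθ hn⟩

end Pool.Agent.RBO
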