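import Pool.Agent.RBO.Defs

set_option autoImplicit false

/-! Module Form: the invariant form in coordinates: `lam = B · dx + f dz`, `d lam = curl B · (dx × dx) + df ∧ dz`.
`(v, s) = ∑ i, v i • (Pi.single i 1, 0) + s • (0, 1)`, `lam (x, z) = lam (x, 0)` (`hinv` with `z = 0`, `s = z`).
`fderiv ℝ lam (x, z) (u, s) = fderiv ℝ lam (x, 0) (u, 0)` (`lam = (fun x => lam (x, 0)) ∘ Prod.fst`), and
`(fderiv ℝ lam (x, 0) (u, 0)) (v, t) = ∑_{i j} u j * v i * ∂_j B_i + t ∑_j u j ∂_j f` (the derivative commutes with the evaluation at a vector).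
`∑_{ij} (u_j v_i - v_j u_i) ∂_j B_i = curl B · (u × v)`. -/

namespace Pool.Agent.RBO

open Set

theorem Form_basis (v : E3) : v = v 0 • (Pi.single 0 1 : E3) + v 1 • (Pi.single 1 1 : E3) +
    v 2 • (Pi.single 2 1 : E3) := by
  ext i
  fin_cases i <;> simp

theorem gr_eq {g : E3 → ℝ} (x v : E3) : fderiv ℝ g x v = gr g x ⬝ᵥ v := by
  conv_lhs => rw [Form_basis v]
  simp only [map_add, map_smul, smul_eq_mul, dotProduct, Fin.sum_univ_three, gr]
  ring

theorem Form_basis4 (v : E3) (s : ℝ) : ((v, s) : V4) = v 0 • ((Pi.single 0 1, 0) : V4) +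
    v 1 • ((Pi.single 1 1, 0) : V4) + v 2 • ((Pi.single 2 1, 0) : V4) + s • ((0, 1) : V4) := by
  apply Prod.ext
  · simp only [Prod.fst_add, Prod.smul_fst, smul_zero, add_zero]
    exact Form_basis v
  · simp

theorem Form_inv {lam : V4 → V4 →L[ℝ] ℝ} (hinv : ∀ x z s, lam (x, z + s) = lam (x, z))
    (x : E3) (z : ℝ) : lam (x, z) = lam (x, 0) := by
  have := hinv x 0 z
  rwa [zero_add] at this

theorem lam_eq {lam : V4 → V4 →L[ℝ] ℝ} (hinv : ∀ x z s, lam (x, z + s) = lam (x, z))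
    (x : E3) (z : ℝ) (v : E3) (s : ℝ) : lam (x, z) (v, s) = BB lam x ⬝ᵥ v + ff lam x * s := by
  rw [Form_inv hinv x z, Form_basis4 v s]
  simp only [map_add, map_smul, smul_eq_mul, dotProduct, Fin.sum_univ_three, BB, ff]
  ring

theorem Form_fderiv {lam : V4 → V4 →L[ℝ] ℝ} (hlam : ContDiff ℝ 2 lam)
    (hinv : ∀ x z s, lam (x, z + s) = lam (x, z)) (x : E3) (z : ℝ) (u : E3) (s : ℝ) (w : V4) :
    (fderiv ℝ lam (x, z) (u, s)) w = fderiv ℝ (fun y => lam (y, 0) w) x u := by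
  have hL : ContDiff ℝ 2 (fun y : E3 => lam (y, 0)) :=
    hlam.comp (contDiff_id.prodMk contDiff_const)
  have hd : HasFDerivAt (fun y : E3 => lam (y, 0)) (fderiv ℝ (fun y : E3 => lam (y, 0)) x) x :=
    (hL.differentiable (by norm_num)).differentiableAt.hasFDerivAt
  have h1 : HasFDerivAt lam ((fderiv ℝ (fun y : E3 => lam (y, 0)) x).comp
      (ContinuousLinearMap.fst ℝ E3 ℝ)) (x, z) := by
    have h2 : lam = fun p : V4 => (fun y : E3 => lam (y, 0)) p.1 := by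
      funext p
      exact Form_inv hinv p.1 p.2
    have h3 : HasFDerivAt (fun p : V4 => (fun y : E3 => lam (y, 0)) p.1)
        ((fderiv ℝ (fun y : E3 => lam (y, 0)) x).comp (ContinuousLinearMap.fst ℝ E3 ℝ)) (x, z) :=
      HasFDerivAt.comp (x, z) (f := (Prod.fst : V4 → E3)) (g := fun y : E3 => lam (y, 0)) hd
        hasFDerivAt_fst
    rw [← h2] at h3
    exact h3
  have h4 : HasFDerivAt (fun y : E3 => lam (y, 0) w)
      ((ContinuousLinearMap.apply ℝ ℝ w).comp (fderiv ℝ (fun y : E3 => lam (y, 0)) x)) x :=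
    (ContinuousLinearMap.apply ℝ ℝ w).hasFDerivAt.comp x hd
  rw [h1.fderiv, h4.fderiv]
  rfl

theorem Form_fderiv2 {lam : V4 → V4 →L[ℝ] ℝ} (hlam : ContDiff ℝ 2 lam)
    (hinv : ∀ x z s, lam (x, z + s) = lam (x, z)) (x : E3) (z : ℝ) (u v : E3) (s t : ℝ) :
    (fderiv ℝ lam (x, z) (u, s)) (v, t) =
      v 0 * (gr (fun y => BB lam y 0) x ⬝ᵥ u) + v 1 * (gr (fun y => BB lam y 1) x ⬝ᵥ u) +
      v 2 * (gr (fun y => BB lam y 2) x ⬝ᵥ u) + t * (gr (ff lam) x ⬝ᵥ u) := by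
  rw [Form_basis4 v t]
  simp only [map_add, map_smul, smul_eq_mul]
  rw [Form_fderiv hlam hinv, Form_fderiv hlam hinv, Form_fderiv hlam hinv, Form_fderiv hlam hinv,
    ← gr_eq, ← gr_eq, ← gr_eq, ← gr_eq]
  rfl

theorem dlam_eq {lam : V4 → V4 →L[ℝ] ℝ} (hlam : ContDiff ℝ 2 lam)
    (hinv : ∀ x z s, lam (x, z + s) = lam (x, z)) (x : E3) (z : ℝ) (u v : E3) (s t : ℝ) :
    dlam lam (x, z) (u, s) (v, t) = crl (BB lam) x ⬝ᵥ crossProduct u v +
      (gr (ff lam) x ⬝ᵥ u) * t - (gr (ff lam) x ⬝ᵥ v) * s := by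
  unfold dlam
  rw [Form_fderiv2 hlam hinv, Form_fderiv2 hlam hinv]
  simp only [dotProduct, Fin.sum_univ_three, crl, cross_apply, Matrix.cons_val_zero,
    Matrix.cons_val_one, Matrix.cons_val]
  ring

theorem gr_C {g : E3 → ℝ} (hg : ContDiff ℝ 2 g) : ContDiff ℝ 1 (gr g) := by
  rw [contDiff_pi]
  intro i
  exact (hg.fderiv_right (m := 1) (by norm_num)).clm_apply contDiff_const

theorem ff_C {lam : V4 → V4 →L[ℝ] ℝ} (hlam : ContDiff ℝ 2 lam) : ContDiff ℝ 2 (ff lam) :=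
  (hlam.comp (contDiff_id.prodMk contDiff_const)).clm_apply contDiff_const

theorem BB_C {lam : V4 → V4 →L[ℝ] ℝ} (hlam : ContDiff ℝ 2 lam) : ContDiff ℝ 2 (BB lam) := by
  rw [contDiff_pi]
  intro i
  exact (hlam.comp (contDiff_id.prodMk contDiff_const)).clm_apply contDiff_const

theorem Form_grc {g : E3 → ℝ} (hg : ContDiff ℝ 2 g) (i : Fin 3) :
    ContDiff ℝ 1 (fun x => gr g x i) := (contDiff_pi.mp (gr_C hg)) i

theorem crl_C {B : E3 → E3} (hB : ContDiff ℝ 2 B) : ContDiff ℝ 1 (crl B) := by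
  have h : ∀ i j, ContDiff ℝ 1 (fun x => gr (fun y => B y i) x j) :=
    fun i j => Form_grc ((contDiff_pi.mp hB) i) j
  rw [contDiff_pi]
  intro i
  fin_cases i
  · exact (h 2 1).sub (h 1 2)
  · exact (h 0 2).sub (h 2 0)
  · exact (h 1 0).sub (h 0 1)

theorem DD_C {h : E3 → ℝ} {lam : V4 → V4 →L[ℝ] ℝ} (hh : ContDiff ℝ 2 h) (hlam : ContDiff ℝ 2 lam) :
    ContDiff ℝ 1 (DD h lam) := by
  have h1 : ∀ i, ContDiff ℝ 1 (fun x => gr h x i) := Form_grc hh
  have h2 : ∀ i, ContDiff ℝ 1 (fun x => gr (ff lam) x i) := Form_grc (ff_C hlam)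
  have h3 : ∀ i, ContDiff ℝ 1 (fun x => BB lam x i) :=
    contDiff_pi.mp ((BB_C hlam).of_le (by norm_num))
  have h4 : ∀ i, ContDiff ℝ 1 (fun x => crl (BB lam) x i) := contDiff_pi.mp (crl_C (BB_C hlam))
  have h5 : ContDiff ℝ 1 (ff lam) := (ff_C hlam).of_le (by norm_num)
  have h6 : DD h lam = fun x =>
      gr h x 0 * ((BB lam x 1 * gr (ff lam) x 2 - BB lam x 2 * gr (ff lam) x 1) +
        ff lam x * crl (BB lam) x 0) +
      gr h x 1 * ((BB lam x 2 * gr (ff lam) x 0 - BB lam x 0 * gr (ff lam) x 2) +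
        ff lam x * crl (BB lam) x 1) +
      gr h x 2 * ((BB lam x 0 * gr (ff lam) x 1 - BB lam x 1 * gr (ff lam) x 0) +
        ff lam x * crl (BB lam) x 2) := by
    funext x
    simp only [DD, dotProduct, Fin.sum_univ_three, cross_apply, Pi.add_apply, Pi.smul_apply,
      smul_eq_mul, Matrix.cons_val_zero, Matrix.cons_val_one, Matrix.cons_val]
  rw [h6]
  exact (((h1 0).mul ((((h3 1).mul (h2 2)).sub ((h3 2).mul (h2 1))).add (h5.mul (h4 0)))).add
    ((h1 1).mul ((((h3 2).mul (h2 0)).sub ((h3 0).mul (h2 2))).add (h5.mul (h4 1))))).add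
    ((h1 2).mul ((((h3 0).mul (h2 1)).sub ((h3 1).mul (h2 0))).add (h5.mul (h4 2))))

end Pool.Agent.RBO
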