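import Pool.Agent.RBO.Reeb
import Pool.Agent.RBO.ConD

set_option autoImplicit false

/-! Module GeoEx: the vector fields on `ℝ³`.  Let `χ` be a `ContDiffBump` centred at `0`, equal to `1` on a ball containing the compact set `{h = 0}`, `D = DD h lam`, `q = D / (D² + h²)`
(`C^1` on all of `ℝ³`: the denominator is positive, since `D ≠ 0` where `h = 0`).  `f = ff lam`,
`X = χ q • (∇f × ∇h)`, `ρ = q (curl B · ∇h)`, `Y = χ • (∇h × (∇f × ∇h))`.
`fderiv h x (X x) = ∇h · (∇f × ∇h) χ q = 0`, `fderiv f x (X x) = 0`, `fderiv h x (Y x) = 0`, `fderiv f x (Y x) = χ |∇f × ∇h|² ≥ 0`.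
On `{h = 0}`: `q = 1/D`, `χ = 1`; `X = 0` iff `∇f × ∇h = 0`; then `Y = 0` and `ρ f = (curl B·∇h) f / D = 1` since `D = B·(∇f × ∇h) + f curl B·∇h`.
`ker`: `X ≠ 0`, `∇h·v = 0`, `∇f·v = 0`: `(∇f × ∇h) × v = ∇h (∇f·v) - ∇f (∇h·v) = 0` (up to sign), so `v` is a multiple of `c = ∇f × ∇h` (`c ≠ 0`, `c × v = 0`: `v = (c·v)/(c·c) c`). -/

namespace Pool.Agent.RBO

open Set

private theorem GeoEx_cross {a b : E3 → E3} (ha : ContDiff ℝ 1 a) (hb : ContDiff ℝ 1 b) :
    ContDiff ℝ 1 (fun x => crossProduct (a x) (b x)) := by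
  have A := fun i => (contDiff_pi.1 ha) i
  have B := fun i => (contDiff_pi.1 hb) i
  rw [contDiff_pi]
  intro i
  fin_cases i
  · simpa [cross_apply] using ((A 1).mul (B 2)).sub ((A 2).mul (B 1))
  · simpa [cross_apply] using ((A 2).mul (B 0)).sub ((A 0).mul (B 2))
  · simpa [cross_apply] using ((A 0).mul (B 1)).sub ((A 1).mul (B 0))

private theorem GeoEx_dot {a b : E3 → E3} (ha : ContDiff ℝ 1 a) (hb : ContDiff ℝ 1 b) :
    ContDiff ℝ 1 (fun x => a x ⬝ᵥ b x) := by
  have A := fun i => (contDiff_pi.1 ha) i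
  have B := fun i => (contDiff_pi.1 hb) i
  simpa [dotProduct, Fin.sum_univ_three] using
    (((A 0).mul (B 0)).add ((A 1).mul (B 1))).add ((A 2).mul (B 2))

private theorem GeoEx_ker {g n v : E3} (hc : crossProduct g n ≠ 0) (h1 : n ⬝ᵥ v = 0)
    (h2 : g ⬝ᵥ v = 0) : ∃ t : ℝ, v = t • crossProduct g n := by
  set c := crossProduct g n with hcdef
  have hcc : c ⬝ᵥ c ≠ 0 := by
    intro h
    exact hc (dotProduct_self_eq_zero.1 h)
  have c0 : c 0 = g 1 * n 2 - g 2 * n 1 := by rw [hcdef, cross_apply]; rfl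
  have c1 : c 1 = g 2 * n 0 - g 0 * n 2 := by rw [hcdef, cross_apply]; rfl
  have c2 : c 2 = g 0 * n 1 - g 1 * n 0 := by rw [hcdef, cross_apply]; rfl
  simp only [dotProduct, Fin.sum_univ_three] at h1 h2 hcc
  have x0 : c 1 * v 2 - c 2 * v 1 = 0 := by
    rw [c1, c2]; linear_combination n 0 * h2 - g 0 * h1
  have x1 : c 2 * v 0 - c 0 * v 2 = 0 := by
    rw [c0, c2]; linear_combination n 1 * h2 - g 1 * h1
  have x2 : c 0 * v 1 - c 1 * v 0 = 0 := by
    rw [c0, c1]; linear_combination n 2 * h2 - g 2 * h1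
  refine ⟨(c ⬝ᵥ v) / (c ⬝ᵥ c), ?_⟩
  funext i
  simp only [Pi.smul_apply, smul_eq_mul, dotProduct, Fin.sum_univ_three]
  rw [div_mul_eq_mul_div, eq_div_iff hcc]
  fin_cases i
  · simp only [Fin.zero_eta]
    linear_combination c 2 * x1 - c 1 * x2
  · simp only [Fin.mk_one]
    linear_combination c 0 * x2 - c 2 * x0
  · simp only [Fin.reduceFinMk]
    linear_combination c 1 * x0 - c 0 * x1

theorem geo_exists {h : E3 → ℝ} (hh : ContDiff ℝ 2 h) (hreg : ∀ x, h x = 0 → fderiv ℝ h x ≠ 0)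
    (hcpt : IsCompact {x | h x = 0}) (hconn : IsConnected {x | h x = 0})
    {lam : V4 → V4 →L[ℝ] ℝ} (hlam : ContDiff ℝ 2 lam)
    (hinv : ∀ x z s, lam (x, z + s) = lam (x, z)) (hc : IsContact h lam) :
    ∃ (f : E3 → ℝ) (X Y : E3 → E3) (ρ : E3 → ℝ), Geo h f X Y ρ ∧
      ∀ x z v, h x = 0 → (IsReeb h lam (x, z) v ↔ v = (X x, ρ x)) := by
  have hDne := DD_ne hreg hlam hinv hc
  have hDC : ContDiff ℝ 1 (DD h lam) := DD_C hh hlam
  have hh1 : ContDiff ℝ 1 h := hh.of_le (by norm_num)
  have hden : ∀ x, DD h lam x ^ 2 + h x ^ 2 ≠ 0 := by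
    intro x
    by_cases h0 : h x = 0
    · have := hDne x h0
      positivity
    · positivity
  have hqC : ContDiff ℝ 1 (fun x => DD h lam x / (DD h lam x ^ 2 + h x ^ 2)) :=
    hDC.div ((hDC.pow 2).add (hh1.pow 2)) hden
  have hnC : ContDiff ℝ 1 (gr h) := gr_C hh
  have hgC : ContDiff ℝ 1 (gr (ff lam)) := gr_C (ff_C hlam)
  have hcC : ContDiff ℝ 1 (fun x => crossProduct (gr (ff lam) x) (gr h x)) := GeoEx_cross hgC hnC
  obtain ⟨R, hR⟩ := hcpt.isBounded.subset_closedBall (0 : E3)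
  set χ : ContDiffBump (0 : E3) := ⟨|R| + 1, |R| + 2, by positivity, by linarith⟩ with hχ
  have hχC : ContDiff ℝ 1 χ := χ.contDiff
  have hχ1 : ∀ x, h x = 0 → χ x = 1 := by
    intro x hx
    refine χ.one_of_mem_closedBall ?_
    have h1 := hR hx
    rw [Metric.mem_closedBall] at h1 ⊢
    have h2 : χ.rIn = |R| + 1 := rfl
    rw [h2]
    linarith [le_abs_self R]
  have hq1 : ∀ x, h x = 0 → DD h lam x / (DD h lam x ^ 2 + h x ^ 2) = 1 / DD h lam x := by
    intro x hx
    have := hDne x hx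
    rw [hx]
    field_simp
    ring
  refine ⟨ff lam,
    fun x => (χ x * (DD h lam x / (DD h lam x ^ 2 + h x ^ 2))) •
      crossProduct (gr (ff lam) x) (gr h x),
    fun x => χ x • crossProduct (gr h x) (crossProduct (gr (ff lam) x) (gr h x)),
    fun x => (DD h lam x / (DD h lam x ^ 2 + h x ^ 2)) * (crl (BB lam) x ⬝ᵥ gr h x), ?_, ?_⟩
  · have hXeq : ∀ x, h x = 0 → (χ x * (DD h lam x / (DD h lam x ^ 2 + h x ^ 2))) •
        crossProduct (gr (ff lam) x) (gr h x) =
        (1 / DD h lam x) • crossProduct (gr (ff lam) x) (gr h x) := by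
      intro x hx
      rw [hχ1 x hx, hq1 x hx, one_mul]
    have hX0 : ∀ x, h x = 0 → ((χ x * (DD h lam x / (DD h lam x ^ 2 + h x ^ 2))) •
        crossProduct (gr (ff lam) x) (gr h x) = 0 ↔ crossProduct (gr (ff lam) x) (gr h x) = 0) := by
      intro x hx
      rw [hXeq x hx, smul_eq_zero]
      have := hDne x hx
      constructor
      · rintro (h1 | h1)
        · exact absurd h1 (by positivity)
        · exact h1
      · exact Or.inr
    have htrip : ∀ x, gr (ff lam) x ⬝ᵥ crossProduct (gr h x) (crossProduct (gr (ff lam) x) (gr h x)) =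
        crossProduct (gr (ff lam) x) (gr h x) ⬝ᵥ crossProduct (gr (ff lam) x) (gr h x) := by
      intro x
      rw [triple_product_permutation, triple_product_permutation]
    refine
      { hC := hh
        fC := ff_C hlam
        XC := (hχC.mul hqC).smul hcC
        Xs := χ.hasCompactSupport.mono ?_
        YC := hχC.smul (GeoEx_cross hnC hcC)
        Ys := χ.hasCompactSupport.mono ?_
        rC := ?_
        cpt := hcpt
        conn := hconn
        reg := hreg
        hX := ?_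
        fX := ?_
        hY := ?_
        fY := ?_
        fY0 := ?_
        Y0 := ?_
        rf := ?_
        ker := ?_ }
    · intro x hx
      rw [Function.mem_support] at hx ⊢
      intro h0
      exact hx (by simp only [h0, zero_mul, zero_smul])
    · intro x hx
      rw [Function.mem_support] at hx ⊢
      intro h0
      exact hx (by simp only [h0, zero_smul])
    · have hCC : ContDiff ℝ 1 (crl (BB lam)) := crl_C (BB_C hlam)
      exact (hqC.mul (GeoEx_dot hCC hnC)).continuous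
    · intro x
      rw [gr_eq, dotProduct_smul, dot_cross_self, smul_zero]
    · intro x
      rw [gr_eq, dotProduct_smul, dot_self_cross, smul_zero]
    · intro x
      rw [gr_eq, dotProduct_smul, dot_self_cross, smul_zero]
    · intro x
      rw [gr_eq, dotProduct_smul, htrip, smul_eq_mul]
      exact mul_nonneg χ.nonneg (Finset.sum_nonneg fun i _ => mul_self_nonneg _)
    · intro x hx hXx
      rw [gr_eq, dotProduct_smul, htrip, smul_eq_mul, hχ1 x hx, one_mul]
      have hcx : crossProduct (gr (ff lam) x) (gr h x) ≠ 0 := fun h0 => hXx ((hX0 x hx).2 h0)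
      have h1 : crossProduct (gr (ff lam) x) (gr h x) ⬝ᵥ crossProduct (gr (ff lam) x) (gr h x) ≠ 0 :=
        fun h0 => hcx (dotProduct_self_eq_zero.1 h0)
      have h2 : 0 ≤ crossProduct (gr (ff lam) x) (gr h x) ⬝ᵥ
          crossProduct (gr (ff lam) x) (gr h x) :=
        Finset.sum_nonneg fun i _ => mul_self_nonneg _
      exact lt_of_le_of_ne h2 (Ne.symm h1)
    · intro x hx hXx
      rw [(hX0 x hx).1 hXx]
      simp
    · intro x hx hXx
      have h0 := (hX0 x hx).1 hXx
      have hD := hDne x hx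
      rw [hq1 x hx]
      have hDeq : DD h lam x = ff lam x * (crl (BB lam) x ⬝ᵥ gr h x) := by
        rw [DD, dotProduct_add, dotProduct_smul, smul_eq_mul]
        rw [triple_product_permutation, h0, dotProduct_zero, zero_add, dotProduct_comm]
      have e1 : 1 / DD h lam x * (crl (BB lam) x ⬝ᵥ gr h x) * ff lam x =
          (ff lam x * (crl (BB lam) x ⬝ᵥ gr h x)) / DD h lam x := by ring
      rw [e1, ← hDeq, div_self hD]
    · intro x hx hXx v hv1 hv2
      rw [gr_eq] at hv1 hv2
      have hcx : crossProduct (gr (ff lam) x) (gr h x) ≠ 0 := fun h0 => hXx ((hX0 x hx).2 h0)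
      obtain ⟨t, ht⟩ := GeoEx_ker hcx hv1 hv2
      have hD := hDne x hx
      refine ⟨t * DD h lam x, ?_⟩
      rw [hXeq x hx, smul_smul]
      have : t * DD h lam x * (1 / DD h lam x) = t := by field_simp
      rw [this]
      exact ht
  · intro x z v hx
    rw [reeb_iff hlam hinv x (hDne x hx) z v]
    simp only
    rw [hχ1 x hx, hq1 x hx, one_mul]

end Pool.Agent.RBO
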