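import Pool.Agent.RBO.Near

set_option autoImplicit false

/-! Module LiftA: lifting a circle-valued function along the family.  `H(σ, t) = θ(φ t (ψ σ p))` is a continuous map `ℝ × ℝ → ℝ/ℤ`; `ℝ × ℝ` is simply connected and locally path connected and `ℝ → ℝ/ℤ` is a covering map
(`AddCircle.isCoveringMap_coe` or so, `IsCoveringMap.existsUnique_continuousMap_lifts`), so there is a continuous real lift `G`.
End `b`: let `gb₀` be a real number over `θ b` and `0 < ε < 1/4`; for `σ ≥ σ0` all values of `H` are in the arc `{u | dist u (θ b) < ε}`, so `G(σ, t) ∈ ⋃_n (gb₀ + n - ε, gb₀ + n + ε)`, and by connectedness of `[σ0, ∞) × ℝ` in one of these intervals;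
`n` is the same for all `ε < 1/4` (compare on the common part), `gb = gb₀ + n`.  The same for `a`.
Period: `w(σ) = G(σ, t + Tm (ψ σ p)) - G(σ, t)` is an integer, continuous in `(σ, t)` (`tm_cont`), so constant; for `σ` large it has absolute value `< 1/2`, so it is `0`. -/

namespace Pool.Agent.RBO

open Set Filter Topology

variable {M : Type} [MetricSpace M] [CompactSpace M] {φ ψ : ℝ → M → M} {f ρ : M → ℝ}

theorem LiftA_round {x : ℝ} {n : ℤ} (h : |x - round x| < 1 / 4) : x ≠ n + 1 / 2 := by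
  intro hx
  have h1 := abs_lt.1 h
  rw [hx] at h1
  rcases le_or_gt (round ((n : ℝ) + 1 / 2)) n with h2 | h2
  · have h3 : ((round ((n : ℝ) + 1 / 2) : ℤ) : ℝ) ≤ n := by exact_mod_cast h2
    linarith [h1.2]
  · have h3 : ((n : ℝ) + 1) ≤ ((round ((n : ℝ) + 1 / 2) : ℤ) : ℝ) := by exact_mod_cast h2
    linarith [h1.1]

theorem LiftA_end (G : ℝ × ℝ → ℝ) (hG : Continuous G) (D : ℝ → Set (ℝ × ℝ))
    (hpre : ∀ s, IsPreconnected (D s)) (hne : ∀ s, (D s).Nonempty)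
    (hdir : ∀ s s', ∃ s'', D s'' ⊆ D s ∩ D s') (θb : UnitAddCircle)
    (h : ∀ ε : ℝ, 0 < ε → ∃ s, ∀ q ∈ D s, dist ((G q : ℝ) : UnitAddCircle) θb < ε) :
    ∃ gb : ℝ, (gb : UnitAddCircle) = θb ∧
      ∀ ε : ℝ, 0 < ε → ∃ s, ∀ q ∈ D s, |G q - gb| < ε := by
  obtain ⟨g0, rfl⟩ := QuotientAddGroup.mk_surjective θb
  have hd : ∀ q : ℝ × ℝ, dist ((G q : ℝ) : UnitAddCircle) (g0 : UnitAddCircle) =
      |(G q - g0) - round (G q - g0)| := by
    intro q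
    rw [dist_eq_norm, ← AddCircle.coe_sub, UnitAddCircle.norm_eq]
  have h' : ∀ ε : ℝ, 0 < ε → ∃ s, ∀ q ∈ D s, |(G q - g0) - round (G q - g0)| < ε := by
    intro ε hε
    obtain ⟨s, hs⟩ := h ε hε
    exact ⟨s, fun q hq => by rw [← hd]; exact hs q hq⟩
  obtain ⟨s1, hs1⟩ := h' (1 / 4) (by norm_num)
  -- the rounding is constant on `D s1`
  have hconst : ∀ q ∈ D s1, ∀ q' ∈ D s1, ¬ (round (G q - g0) < round (G q' - g0)) := by
    intro q hq q' hq' hlt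
    have h1 := abs_lt.1 (hs1 q hq)
    have h2 := abs_lt.1 (hs1 q' hq')
    have h3 : ((round (G q - g0) : ℤ) : ℝ) + 1 ≤ ((round (G q' - g0) : ℤ) : ℝ) := by
      exact_mod_cast hlt
    have h4 : ContinuousOn (fun q => G q - g0) (D s1) := (hG.sub continuous_const).continuousOn
    have h5 := (hpre s1).intermediate_value hq hq' h4
    have h6 : ((round (G q - g0) : ℤ) : ℝ) + 1 / 2 ∈ Icc (G q - g0) (G q' - g0) := by
      constructor
      · linarith [h1.2]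
      · linarith [h2.1]
    obtain ⟨q'', hq'', he⟩ := h5 h6
    exact LiftA_round (hs1 q'' hq'') he
  obtain ⟨q0, hq0⟩ := hne s1
  set n : ℤ := round (G q0 - g0) with hn
  have hconst' : ∀ q ∈ D s1, round (G q - g0) = n := by
    intro q hq
    rcases lt_trichotomy (round (G q - g0)) n with h1 | h1 | h1
    · exact absurd h1 (hconst q hq q0 hq0)
    · exact h1
    · exact absurd h1 (hconst q0 hq0 q hq)
  refine ⟨g0 + n, ?_, fun ε hε => ?_⟩
  · have h0 : ((n : ℝ) : UnitAddCircle) = 0 := by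
      rw [AddCircle.coe_eq_zero_iff]
      exact ⟨n, by simp⟩
    rw [AddCircle.coe_add, h0, add_zero]
  · obtain ⟨s2, hs2⟩ := h' ε hε
    obtain ⟨s3, hs3⟩ := hdir s1 s2
    refine ⟨s3, fun q hq => ?_⟩
    have h1 := hs2 q (hs3 hq).2
    rw [hconst' q (hs3 hq).1] at h1
    have h2 : G q - (g0 + n) = G q - g0 - n := by ring
    rw [h2]
    exact h1

theorem liftA (S : SD φ ψ f ρ) {p : M} (hb : ∀ σ, Per φ (ψ σ p)) (a b : M)
    (hb' : ∀ U ∈ 𝓝 b, ∃ σ0 : ℝ, ∀ σ, σ0 ≤ σ → ∀ t, φ t (ψ σ p) ∈ U)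
    (ha' : ∀ U ∈ 𝓝 a, ∃ σ0 : ℝ, ∀ σ, σ ≤ σ0 → ∀ t, φ t (ψ σ p) ∈ U)
    (θ : M → UnitAddCircle) (hθ : Continuous θ) :
    ∃ G : ℝ × ℝ → ℝ, Continuous G ∧ (∀ σ t, ((G (σ, t) : ℝ) : UnitAddCircle) = θ (φ t (ψ σ p))) ∧
      (∀ σ t, G (σ, t + Tm φ (ψ σ p)) = G (σ, t)) ∧
      (∃ gb : ℝ, (gb : UnitAddCircle) = θ b ∧
        ∀ ε : ℝ, 0 < ε → ∃ σ0 : ℝ, ∀ σ, σ0 ≤ σ → ∀ t, |G (σ, t) - gb| < ε) ∧
      (∃ ga : ℝ, (ga : UnitAddCircle) = θ a ∧
        ∀ ε : ℝ, 0 < ε → ∃ σ0 : ℝ, ∀ σ, σ ≤ σ0 → ∀ t, |G (σ, t) - ga| < ε) := by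
  have hΦ : Continuous (fun q : ℝ × ℝ => φ q.2 (ψ q.1 p)) := by
    have h1 : Continuous (fun q : ℝ × ℝ => ψ q.1 p) :=
      S.sC.comp (continuous_fst.prodMk continuous_const)
    exact S.pC.comp (continuous_snd.prodMk h1)
  have hψ : Continuous (fun σ : ℝ => ψ σ p) := S.sC.comp (continuous_id.prodMk continuous_const)
  let H : C(ℝ × ℝ, UnitAddCircle) := ⟨fun q => θ (φ q.2 (ψ q.1 p)), hθ.comp hΦ⟩
  obtain ⟨e0, he0⟩ := QuotientAddGroup.mk_surjective (H (0, 0))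
  have hcov := AddCircle.isCoveringMap_coe (𝕜 := ℝ) (p := 1)
  obtain ⟨G, ⟨_, hG⟩, _⟩ := hcov.existsUnique_continuousMap_lifts H (0, 0) e0 he0
  have hGc : Continuous G := G.continuous
  have hlift : ∀ σ t, ((G (σ, t) : ℝ) : UnitAddCircle) = θ (φ t (ψ σ p)) := fun σ t =>
    congrFun hG (σ, t)
  have hfib : ∀ (c : M), (∀ ε : ℝ, 0 < ε → {x | dist (θ x) (θ c) < ε} ∈ 𝓝 c) := by
    intro c ε hε
    exact hθ.continuousAt.preimage_mem_nhds (Metric.ball_mem_nhds _ hε)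
  have htop := LiftA_end G hGc (fun s => Ici s ×ˢ univ)
    (fun s => isPreconnected_Ici.prod isPreconnected_univ) (fun s => ⟨(s, 0), by simp⟩)
    (fun s s' => ⟨max s s', by
      rintro ⟨x, y⟩ hxy
      simp only [mem_prod, mem_Ici, mem_univ, and_true, sup_le_iff, mem_inter_iff] at hxy ⊢
      exact hxy⟩) (θ b) (by
      intro ε hε
      obtain ⟨σ0, h0⟩ := hb' _ (hfib b ε hε)
      refine ⟨σ0, ?_⟩
      rintro ⟨σ, t⟩ hq
      simp only [mem_prod, mem_Ici, mem_univ, and_true] at hq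
      rw [hlift]
      exact h0 σ hq t)
  have hbot := LiftA_end G hGc (fun s => Iic s ×ˢ univ)
    (fun s => isPreconnected_Iic.prod isPreconnected_univ) (fun s => ⟨(s, 0), by simp⟩)
    (fun s s' => ⟨min s s', by
      rintro ⟨x, y⟩ hxy
      simp only [mem_prod, mem_Iic, mem_univ, and_true, le_inf_iff, mem_inter_iff] at hxy ⊢
      exact hxy⟩) (θ a) (by
      intro ε hε
      obtain ⟨σ0, h0⟩ := ha' _ (hfib a ε hε)
      refine ⟨σ0, ?_⟩
      rintro ⟨σ, t⟩ hq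
      simp only [mem_prod, mem_Iic, mem_univ, and_true] at hq
      rw [hlift]
      exact h0 σ hq t)
  obtain ⟨gb, hgb, hgb'⟩ := htop
  obtain ⟨ga, hga, hga'⟩ := hbot
  have htop' : ∀ ε : ℝ, 0 < ε → ∃ σ0 : ℝ, ∀ σ, σ0 ≤ σ → ∀ t, |G (σ, t) - gb| < ε := by
    intro ε hε
    obtain ⟨s, hs⟩ := hgb' ε hε
    exact ⟨s, fun σ hσ t => hs (σ, t) (by simp [hσ])⟩
  have hbot' : ∀ ε : ℝ, 0 < ε → ∃ σ0 : ℝ, ∀ σ, σ ≤ σ0 → ∀ t, |G (σ, t) - ga| < ε := by
    intro ε hε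
    obtain ⟨s, hs⟩ := hga' ε hε
    exact ⟨s, fun σ hσ t => hs (σ, t) (by simp [hσ])⟩
  refine ⟨G, hGc, hlift, ?_, ⟨gb, hgb, htop'⟩, ⟨ga, hga, hbot'⟩⟩
  -- periodicity
  have hT : Continuous (fun σ : ℝ => Tm φ (ψ σ p)) := by
    rw [continuous_iff_continuousAt]
    intro σ
    exact ContinuousAt.comp (g := Tm φ) (f := fun σ => ψ σ p) (tm_cont S (hb σ)) hψ.continuousAt
  set w : ℝ × ℝ → ℝ := fun q => G (q.1, q.2 + Tm φ (ψ q.1 p)) - G (q.1, q.2) with hw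
  have hwc : Continuous w := by
    have h1 : Continuous (fun q : ℝ × ℝ => (q.1, q.2 + Tm φ (ψ q.1 p))) :=
      continuous_fst.prodMk (continuous_snd.add (hT.comp continuous_fst))
    exact (hGc.comp h1).sub hGc
  have hwint : ∀ q, ∃ n : ℤ, w q = n := by
    rintro ⟨σ, t⟩
    have h1 : ((G (σ, t + Tm φ (ψ σ p)) : ℝ) : UnitAddCircle) = ((G (σ, t) : ℝ) : UnitAddCircle) := by
      rw [hlift, hlift, S.pa, (tm_spec S (hb σ)).2]
    have h2 : (((G (σ, t + Tm φ (ψ σ p)) - G (σ, t) : ℝ)) : UnitAddCircle) = 0 := by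
      rw [AddCircle.coe_sub, h1, sub_self]
    rw [AddCircle.coe_eq_zero_iff] at h2
    obtain ⟨n, hn⟩ := h2
    exact ⟨n, by rw [hw]; simp only; rw [← hn]; simp⟩
  have hwconst : ∀ q q', ¬ (w q < w q') := by
    intro q q' hlt
    obtain ⟨n, hn⟩ := hwint q
    obtain ⟨n', hn'⟩ := hwint q'
    rw [hn, hn'] at hlt
    have h1 : n < n' := by exact_mod_cast hlt
    have h2 : (n : ℝ) + 1 ≤ n' := by exact_mod_cast h1
    obtain ⟨q'', hq''⟩ := mem_range_of_exists_le_of_exists_ge (c := (n : ℝ) + 1 / 2) hwc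
      ⟨q, by rw [hn]; linarith⟩ ⟨q', by rw [hn']; linarith⟩
    obtain ⟨m, hm⟩ := hwint q''
    rw [hm] at hq''
    have h3 : (2 * m : ℝ) = 2 * n + 1 := by linarith
    have h4 : 2 * m = 2 * n + 1 := by exact_mod_cast h3
    omega
  obtain ⟨σ0, h0⟩ := htop' (1 / 4) (by norm_num)
  have hw0 : w (σ0, 0) = 0 := by
    obtain ⟨n, hn⟩ := hwint (σ0, 0)
    have h1 := abs_lt.1 (h0 σ0 le_rfl (0 + Tm φ (ψ σ0 p)))
    have h2 := abs_lt.1 (h0 σ0 le_rfl 0)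
    have h3 : w (σ0, 0) = G (σ0, 0 + Tm φ (ψ σ0 p)) - G (σ0, 0) := rfl
    have h4 : -(1 : ℝ) < n := by rw [← hn, h3]; linarith [h1.1, h2.2]
    have h5 : (n : ℝ) < 1 := by rw [← hn, h3]; linarith [h1.2, h2.1]
    have h6 : -1 < n := by exact_mod_cast h4
    have h7 : n < 1 := by exact_mod_cast h5
    have h8 : n = 0 := by omega
    rw [hn, h8]
    simp
  intro σ t
  have h1 : w (σ, t) = 0 := by
    rcases lt_trichotomy (w (σ, t)) (w (σ0, 0)) with h | h | h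
    · exact absurd h (hwconst _ _)
    · rw [h, hw0]
    · exact absurd h (hwconst _ _)
  have h2 : G (σ, t + Tm φ (ψ σ p)) - G (σ, t) = 0 := h1
  linarith

end Pool.Agent.RBO
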