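import Pool.Agent.RBO.Tmin

set_option autoImplicit false

/-! Module Meas: long periods give large `Th`.
`N = {x | ρ x * f x > 1/2}` is open and contains the critical points (`rf`); its complement `K` is compact and consists of non-fixed points.
For `q ∈ K` let `r_q` be from `SD.arc` with `τ = 1`; finitely many balls `B(q_i, r_i)`, `i < m`, cover `K`.
Claim: for periodic non-fixed `x` with minimal period `T`, `S_i = {u ∈ [0, T] | φ u x ∈ B(q_i, r_i)}` has measure `≤ 6 + ...` : if `u, u' ∈ S_i` there is `|t| < 1` with `φ (t + u) x = φ u' x`, so `u' - u - t = k T`,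
`k : ℤ` (`tm_int`).  If `T ≤ 1` the measure of `[0, T]` is `≤ 1`.  If `T > 1`: `|k| T ≤ |u' - u| + 1 ≤ T + 1 < 2 T`, so `k ∈ {-1, 0, 1}`, and with `u = u_0` fixed, `S_i ⊆ ⋃_{k} [u_0 + k T - 1, u_0 + k T + 1]`: measure `≤ 6`.
So the measure of `{u ∈ [0, T] | φ u x ∈ K}` is `≤ 6 m`.  Let `|ρ f| ≤ C1` and `|f| ≤ F`, `F > 0`.  `f(x) Th(x) = ∫_0^T f(φ u x) ρ(φ u x) du ≥ (1/2)(T - 6m) - C1 6m`, so `|Th(x)| ≥ (T/2 - (3 + 6 C1) m)/F`. -/

namespace Pool.Agent.RBO

open Set MeasureTheory Topology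

variable {M : Type} [MetricSpace M] [CompactSpace M] {φ ψ : ℝ → M → M} {f ρ : M → ℝ}

private theorem Meas_vol (S : SD φ ψ f ρ) {q : M} {r : ℝ}
    (hr : ∀ x y, dist x q < r → dist y q < r → f x = f y → ∃ t : ℝ, |t| < 1 ∧ φ t x = y)
    {x : M} (hx : Per φ x) :
    volume {u : ℝ | u ∈ Ioc 0 (Tm φ x) ∧ dist (φ u x) q < r} ≤ 6 := by
  obtain ⟨hT, hTx⟩ := tm_spec S hx
  rcases Set.eq_empty_or_nonempty {u : ℝ | u ∈ Ioc 0 (Tm φ x) ∧ dist (φ u x) q < r} with
    h | ⟨u0, hu0, hd0⟩
  · rw [h]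
    simp
  have htm := fun t h => tm_int S hx (t := t) h
  generalize Tm φ x = T at *
  have hsub : {u : ℝ | u ∈ Ioc 0 T ∧ dist (φ u x) q < r} ⊆
      Icc (u0 - T - 1) (u0 - T + 1) ∪ (Icc (u0 - 1) (u0 + 1) ∪ Icc (u0 + T - 1) (u0 + T + 1)) := by
    rintro u ⟨hu, hd⟩
    obtain ⟨t, ht, hph⟩ := hr _ _ hd0 hd (by rw [S.finv, S.finv])
    have h1 : φ (t + u0 - u) x = x := by
      have h2 : φ (-u) (φ t (φ u0 x)) = x := by rw [hph, ← S.pa, neg_add_cancel, S.p0]
      rw [← S.pa, ← S.pa] at h2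
      have h3 : t + u0 - u = -u + t + u0 := by ring
      rw [h3]
      exact h2
    obtain ⟨k, hk⟩ := htm _ h1
    rw [abs_lt] at ht
    by_cases hTT : T < 1
    · right; left
      constructor
      · linarith [hu.1, hu0.2]
      · linarith [hu.2, hu0.1]
    · push Not at hTT
      have hk1 : -2 < k := by
        by_contra hcon
        push Not at hcon
        have : (k : ℝ) ≤ -2 := by exact_mod_cast hcon
        nlinarith [hu.1, hu.2, hu0.1, hu0.2]
      have hk2 : k < 2 := by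
        by_contra hcon
        push Not at hcon
        have : (2 : ℝ) ≤ k := by exact_mod_cast hcon
        nlinarith [hu.1, hu.2, hu0.1, hu0.2]
      have hk3 : k = -1 ∨ k = 0 ∨ k = 1 := by omega
      rcases hk3 with h | h | h
      · right; right
        rw [h] at hk
        push_cast at hk
        constructor <;> linarith
      · right; left
        rw [h] at hk
        push_cast at hk
        constructor <;> linarith
      · left
        rw [h] at hk
        push_cast at hk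
        constructor <;> linarith
  refine le_trans (measure_mono hsub) (le_trans (measure_union_le _ _) ?_)
  refine le_trans (add_le_add le_rfl (measure_union_le _ _)) ?_
  rw [Real.volume_Icc, Real.volume_Icc, Real.volume_Icc]
  have e1 : u0 - T + 1 - (u0 - T - 1) = 2 := by ring
  have e2 : u0 + 1 - (u0 - 1) = 2 := by ring
  have e3 : u0 + T + 1 - (u0 + T - 1) = 2 := by ring
  rw [e1, e2, e3]
  have e4 : ENNReal.ofReal 2 = 2 := by norm_num
  rw [e4]
  norm_num

theorem th_big (S : SD φ ψ f ρ) : ∃ c C : ℝ, 0 < c ∧ ∀ x, Per φ x → c * Tm φ x - C ≤ |Th φ ρ x| := by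
  have hwc : Continuous (fun x => ρ x * f x) := S.rC.mul S.fC
  set K : Set M := {x | ρ x * f x ≤ 1 / 2} with hK
  have hKc : IsClosed K := isClosed_le hwc continuous_const
  have hKnc : ∀ q ∈ K, ¬ Crit φ q := by
    intro q hq hc
    have h1 := S.rf q hc
    have h2 : ρ q * f q ≤ 1 / 2 := hq
    rw [h1] at h2
    norm_num at h2
  -- radii
  have hex : ∀ q : M, ∃ r : ℝ, 0 < r ∧ (q ∈ K → ∀ x y, dist x q < r → dist y q < r → f x = f y →
      ∃ t : ℝ, |t| < 1 ∧ φ t x = y) := by
    intro q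
    by_cases hq : q ∈ K
    · obtain ⟨r, hr, h⟩ := S.arc q (hKnc q hq) 1 one_pos
      exact ⟨r, hr, fun _ => h⟩
    · exact ⟨1, one_pos, fun h => absurd h hq⟩
  choose r hr0 hr using hex
  obtain ⟨t, htK, hcov⟩ := hKc.isCompact.elim_nhds_subcover (fun q => Metric.ball q (r q))
    (fun q _ => Metric.ball_mem_nhds q (hr0 q))
  -- bounds
  obtain ⟨C1, hC1⟩ := (isCompact_range hwc).isBounded.exists_norm_le
  obtain ⟨F, hF⟩ := (isCompact_range S.fC).isBounded.exists_norm_le
  have hC1' : ∀ x, |ρ x * f x| ≤ |C1| := fun x =>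
    le_trans (hC1 _ (mem_range_self x)) (le_abs_self _)
  have hF' : ∀ x, |f x| ≤ |F| + 1 := fun x =>
    le_trans (le_trans (hF _ (mem_range_self x)) (le_abs_self _)) (by linarith)
  have hF0 : 0 < |F| + 1 := by positivity
  refine ⟨1 / (2 * (|F| + 1)), (1 / 2 + |C1|) * (6 * t.card) / (|F| + 1), by positivity, ?_⟩
  intro x hx
  obtain ⟨hT, hTx⟩ := tm_spec S hx
  have hφc : Continuous (fun u : ℝ => φ u x) := S.pC.comp (continuous_id.prodMk continuous_const)
  have hvol : (volume.restrict (Ioc 0 (Tm φ x))) ((fun u : ℝ => φ u x) ⁻¹' K) ≤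
      ENNReal.ofReal (6 * t.card) := by
    rw [Measure.restrict_apply (hKc.preimage hφc).measurableSet]
    have hs : ((fun u : ℝ => φ u x) ⁻¹' K) ∩ Ioc 0 (Tm φ x) ⊆
        ⋃ q ∈ t, {u : ℝ | u ∈ Ioc 0 (Tm φ x) ∧ dist (φ u x) q < r q} := by
      rintro u ⟨hu1, hu2⟩
      have h1 := hcov hu1
      simp only [mem_iUnion, Metric.mem_ball, exists_prop] at h1 ⊢
      obtain ⟨q, hq, hd⟩ := h1
      exact ⟨q, hq, hu2, hd⟩
    refine le_trans (measure_mono hs) (le_trans (measure_biUnion_finset_le _ _) ?_)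
    refine le_trans (Finset.sum_le_sum (fun q hq => Meas_vol S (hr q (htK q hq)) hx)) ?_
    rw [Finset.sum_const, nsmul_eq_mul, mul_comm]
    rw [ENNReal.ofReal_mul (by norm_num)]
    simp
  have hreal : (volume.restrict (Ioc 0 (Tm φ x))).real ((fun u : ℝ => φ u x) ⁻¹' K) ≤ 6 * t.card := by
    rw [Measure.real]
    exact ENNReal.toReal_le_of_le_ofReal (by positivity) hvol
  -- the integral
  have hint : f x * Th φ ρ x = ∫ u in Ioc 0 (Tm φ x), ρ (φ u x) * f (φ u x) := by
    rw [Th, intervalIntegral.integral_of_le hT.le, ← integral_const_mul]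
    refine integral_congr_ae (Filter.Eventually.of_forall fun u => ?_)
    simp only
    rw [S.finv, mul_comm]
  have hcw : Continuous (fun u : ℝ => ρ (φ u x) * f (φ u x)) := hwc.comp hφc
  have hintw : IntegrableOn (fun u : ℝ => ρ (φ u x) * f (φ u x)) (Ioc 0 (Tm φ x)) :=
    (hcw.integrableOn_Icc (a := 0) (b := Tm φ x)).mono_set Ioc_subset_Icc_self
  have hmeasK : MeasurableSet ((fun u : ℝ => φ u x) ⁻¹' K) := (hKc.preimage hφc).measurableSet
  have hintind : IntegrableOn (((fun u : ℝ => φ u x) ⁻¹' K).indicator (1 : ℝ → ℝ))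
      (Ioc 0 (Tm φ x)) := by
    refine IntegrableOn.indicator ?_ hmeasK
    exact integrableOn_const (by simp)
  have hlow : (1 / 2) * Tm φ x - (1 / 2 + |C1|) * (6 * t.card) ≤ f x * Th φ ρ x := by
    rw [hint]
    have h1 : ∫ u in Ioc 0 (Tm φ x), ((1 / 2 : ℝ) - (1 / 2 + |C1|) *
        ((fun u : ℝ => φ u x) ⁻¹' K).indicator (1 : ℝ → ℝ) u) ≤
        ∫ u in Ioc 0 (Tm φ x), ρ (φ u x) * f (φ u x) := by
      refine integral_mono ?_ hintw ?_
      · exact (integrableOn_const (by simp)).sub (hintind.const_mul _)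
      · intro u
        simp only
        by_cases hu : φ u x ∈ K
        · rw [indicator_of_mem (show u ∈ (fun u : ℝ => φ u x) ⁻¹' K from hu)]
          have := (abs_le.1 (hC1' (φ u x))).1
          simp only [Pi.one_apply]
          linarith
        · rw [indicator_of_notMem (show u ∉ (fun u : ℝ => φ u x) ⁻¹' K from hu)]
          have h2 : 1 / 2 < ρ (φ u x) * f (φ u x) := not_le.1 hu
          linarith
    have h3 : ∫ u in Ioc 0 (Tm φ x), ((1 / 2 : ℝ) - (1 / 2 + |C1|) *
        ((fun u : ℝ => φ u x) ⁻¹' K).indicator (1 : ℝ → ℝ) u) =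
        (1 / 2) * Tm φ x - (1 / 2 + |C1|) *
          (volume.restrict (Ioc 0 (Tm φ x))).real ((fun u : ℝ => φ u x) ⁻¹' K) := by
      have hc : Integrable (fun _ : ℝ => (1 / 2 : ℝ)) (volume.restrict (Ioc 0 (Tm φ x))) :=
        integrableOn_const (by simp)
      rw [integral_sub hc (hintind.const_mul _),
        integral_const_mul, integral_indicator_one hmeasK, integral_const]
      simp only [Measure.real, Measure.restrict_apply MeasurableSet.univ, univ_inter,
        Real.volume_Ioc, sub_zero, ENNReal.toReal_ofReal hT.le, smul_eq_mul]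
      ring
    rw [h3] at h1
    have h4 : (1 / 2 + |C1|) *
          (volume.restrict (Ioc 0 (Tm φ x))).real ((fun u : ℝ => φ u x) ⁻¹' K) ≤
        (1 / 2 + |C1|) * (6 * t.card) := mul_le_mul_of_nonneg_left hreal (by positivity)
    linarith
  have hup : f x * Th φ ρ x ≤ (|F| + 1) * |Th φ ρ x| := by
    refine le_trans (le_abs_self _) ?_
    rw [abs_mul]
    exact mul_le_mul_of_nonneg_right (hF' x) (abs_nonneg _)
  have hfin : (1 / 2) * Tm φ x - (1 / 2 + |C1|) * (6 * t.card) ≤ (|F| + 1) * |Th φ ρ x| :=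
    le_trans hlow hup
  have h5 : 1 / (2 * (|F| + 1)) * Tm φ x - (1 / 2 + |C1|) * (6 * t.card) / (|F| + 1) =
      ((1 / 2) * Tm φ x - (1 / 2 + |C1|) * (6 * t.card)) / (|F| + 1) := by
    field_simp
  rw [h5, div_le_iff₀ hF0]
  linarith

end Pool.Agent.RBO
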