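import Pool.Agent.RBO.Tmin
import Pool.Agent.RBO.Clo

set_option autoImplicit false

/-! Module Near: periodicity is an open condition and the minimal period is continuous.
Let `T = Tm φ x`.  Non-fixed points are open (the fixed points form a closed set).  Upper bound: let `r` be from `SD.arc` at `q = x` with `τ = min ε T`; for `y` close to `x`, `y` and `φ T y` are in `B(x, r)` (continuity,
`φ T x = x`) and `f (φ T y) = f y`, so there is `|t| < τ` with `φ t (φ T y) = y`: `φ (t + T) y = y`, `t + T > 0`: `y` is periodic and `Tm y ≤ T + t < T + ε` (`tm_le`).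
Lower bound: otherwise there are `y_n → x` periodic with `Tm y_n ≤ T - ε`; by `clo` there is `0 < t ≤ T - ε` with `φ t x = x`, contradiction with `tm_le`.
`th_cont`: `(t, x) ↦ ∫_0^t ρ(φ u x) du` is continuous (`continuous_parametric_intervalIntegral_of_continuous` or similar), and `Tm` is continuous at `x`. -/

namespace Pool.Agent.RBO

open Set Filter Topology

variable {M : Type} [MetricSpace M] [CompactSpace M] {φ ψ : ℝ → M → M} {f ρ : M → ℝ}

theorem near (S : SD φ ψ f ρ) {x : M} (hx : Per φ x) (ε : ℝ) (hε : 0 < ε) :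
    ∃ r : ℝ, 0 < r ∧ ∀ y, dist y x < r → Per φ y ∧ |Tm φ y - Tm φ x| < ε := by
  obtain ⟨hT0, hTx⟩ := tm_spec S hx
  set T := Tm φ x with hT
  -- upper bound
  obtain ⟨r, hr, harc⟩ := S.arc x hx.1 (min ε T) (lt_min hε hT0)
  have hct : ∀ t : ℝ, Continuous (fun y => φ t y) := fun t =>
    S.pC.comp (continuous_const.prodMk continuous_id)
  have hcT : Continuous (fun y => φ T y) := hct T
  have hcl : IsClosed {y : M | Crit φ y} := by
    have : {y : M | Crit φ y} = ⋂ t : ℝ, {y | φ t y = y} := by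
      ext y; simp [Crit]
    rw [this]
    exact isClosed_iInter fun t => isClosed_eq (hct t) continuous_id
  have e1 : ∀ᶠ y in 𝓝 x, dist y x < r := Metric.ball_mem_nhds x hr
  have e2 : ∀ᶠ y in 𝓝 x, dist (φ T y) x < r := by
    have := hcT.tendsto x
    simp only [hTx] at this
    exact this.eventually (Metric.ball_mem_nhds x hr)
  have e3 : ∀ᶠ y in 𝓝 x, ¬ Crit φ y := hcl.isOpen_compl.mem_nhds hx.1
  have hup : ∀ᶠ y in 𝓝 x, Per φ y ∧ Tm φ y < T + ε := by
    filter_upwards [e1, e2, e3] with y h1 h2 h3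
    obtain ⟨t, ht, hty⟩ := harc (φ T y) y h2 h1 (S.finv T y)
    rw [← S.pa] at hty
    have h4 := abs_lt.mp ht
    have h5 : min ε T ≤ T := min_le_right _ _
    have h6 : min ε T ≤ ε := min_le_left _ _
    have h7 : 0 < t + T := by linarith [h4.1]
    exact ⟨⟨h3, t + T, h7, hty⟩, lt_of_le_of_lt (tm_le S h7 hty) (by linarith [h4.2])⟩
  -- lower bound
  have hlow : ∃ r : ℝ, 0 < r ∧ ∀ y, dist y x < r → Per φ y → T - ε < Tm φ y := by
    by_contra hcon
    push Not at hcon
    have hch : ∀ n : ℕ, ∃ y, dist y x < 1 / ((n : ℝ) + 1) ∧ Per φ y ∧ Tm φ y ≤ T - ε :=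
      fun n => hcon (1 / ((n : ℝ) + 1)) (by positivity)
    choose y hy1 hy2 hy3 using hch
    have hyx : Tendsto y atTop (𝓝 x) := by
      rw [tendsto_iff_dist_tendsto_zero]
      exact squeeze_zero (fun n => dist_nonneg) (fun n => (hy1 n).le)
        tendsto_one_div_add_atTop_nhds_zero_nat
    obtain ⟨t, ht0, ht1, htx⟩ := clo S hx.1 (T - ε) y (fun n => Tm φ (y n)) hyx
      (fun n => ⟨(tm_spec S (hy2 n)).1, hy3 n, (tm_spec S (hy2 n)).2⟩)
    have := tm_le S ht0 htx
    linarith
  obtain ⟨r1, hr1, hlow'⟩ := hlow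
  obtain ⟨r2, hr2, hup'⟩ := Metric.eventually_nhds_iff.mp hup
  refine ⟨min r1 r2, lt_min hr1 hr2, fun y hy => ?_⟩
  have h1 := hup' (lt_of_lt_of_le hy (min_le_right _ _))
  have h2 := hlow' y (lt_of_lt_of_le hy (min_le_left _ _)) h1.1
  exact ⟨h1.1, abs_lt.mpr ⟨by linarith, by linarith [h1.2]⟩⟩

theorem tm_cont (S : SD φ ψ f ρ) {x : M} (hx : Per φ x) : ContinuousAt (Tm φ) x := by
  rw [Metric.continuousAt_iff]
  intro ε hε
  obtain ⟨r, hr, h⟩ := near S hx ε hε
  exact ⟨r, hr, fun {y} hy => by rw [Real.dist_eq]; exact (h y hy).2⟩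

theorem th_cont (S : SD φ ψ f ρ) {x : M} (hx : Per φ x) : ContinuousAt (Th φ ρ) x := by
  have h1 : Continuous (fun q : ℝ × M => ∫ u in (0 : ℝ)..q.1, ρ (φ u q.2)) := by
    apply intervalIntegral.continuous_parametric_intervalIntegral_of_continuous
    · exact S.rC.comp (S.pC.comp (continuous_snd.prodMk (continuous_snd.comp continuous_fst)))
    · exact continuous_fst
  have h2 : ContinuousAt (fun y => (Tm φ y, y)) x := (tm_cont S hx).prodMk continuousAt_id
  have h3 : ContinuousAt ((fun q : ℝ × M => ∫ u in (0 : ℝ)..q.1, ρ (φ u q.2)) ∘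
      (fun y => (Tm φ y, y))) x := ContinuousAt.comp h1.continuousAt h2
  exact h3

end Pool.Agent.RBO
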