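import Pool.Agent.RBO.Form

set_option autoImplicit false

/-! Module Reeb: the Reeb vector.  `n = gr h x`, `g = gr (ff lam) x`, `B = BB lam x`, `C = crl (BB lam) x`, `f = ff lam x`, `D = n · (B × g + f C) ≠ 0`.
`⇐`: `X = (1/D) g × n`, `r = (1/D) C · n`: `n · X = 0`; `B · X + f r = (B · (g × n) + f C · n)/D = 1` (`B · (g × n) = n · (B × g)`); `g · X = 0` and for `n · w = 0`:
`C · (X × w) = (1/D) C · (n (g·w) - g (n·w)) = (1/D) (C·n)(g·w)`, so `dlam ((X, r), (w, t)) = C · (X × w) + (g·X) t - (g·w) r = 0`.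
`⇒` (uniqueness): the difference `(a, s)` of two Reeb vectors satisfies `n·a = 0`, `B·a + f s = 0`, `g·a = 0` (`w = (0, 1)`), `C·(a × w) = s (g·w)` for all `w` with `n·w = 0`.
With `w = n × a`: `a × w = n |a|²` (`a·n = 0`).  `D |a|² = (B × g + f C)·(a × w) = (B·a)(g·w) - (B·w)(g·a) + f s (g·w) = (g·w)(B·a + f s) = 0` so `a = 0` (`|a|² = a ⬝ᵥ a`).
Then `f s = 0` and `s (g·w) = 0` for all `w` with `n·w = 0`.  If `s ≠ 0` then `f = 0` and `g·(n × e_i) = 0` for all `i`, i.e. `g × n = 0`, so `D = B·(g × n) + f C·n = 0`, contradiction. -/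

namespace Pool.Agent.RBO

open Set

theorem Reeb_dot (a b : E3) : a ⬝ᵥ b = a 0 * b 0 + a 1 * b 1 + a 2 * b 2 := by
  rw [dotProduct, Fin.sum_univ_three]

theorem Reeb_c0 (a b : E3) : crossProduct a b 0 = a 1 * b 2 - a 2 * b 1 := by
  rw [cross_apply]; rfl

theorem Reeb_c1 (a b : E3) : crossProduct a b 1 = a 2 * b 0 - a 0 * b 2 := by
  rw [cross_apply]; rfl

theorem Reeb_c2 (a b : E3) : crossProduct a b 2 = a 0 * b 1 - a 1 * b 0 := by
  rw [cross_apply]; rfl

theorem Reeb_alg (n g B C a : E3) (f s D : ℝ)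
    (hD : D = n ⬝ᵥ (crossProduct B g + f • C)) (hD0 : D ≠ 0) :
    (n ⬝ᵥ a = 0 ∧ B ⬝ᵥ a + f * s = 1 ∧ ∀ (w : E3) (t : ℝ), n ⬝ᵥ w = 0 →
      C ⬝ᵥ crossProduct a w + (g ⬝ᵥ a) * t - (g ⬝ᵥ w) * s = 0) ↔
    (a = (1 / D) • crossProduct g n ∧ s = (1 / D) * (C ⬝ᵥ n)) := by
  simp only [Reeb_dot, Pi.add_apply, Pi.smul_apply, smul_eq_mul, Reeb_c0, Reeb_c1, Reeb_c2] at *
  constructor
  · rintro ⟨h1, h2, h3⟩
    have h3' := h3 0 1 (by simp)
    simp only [Pi.zero_apply, mul_zero, sub_zero, add_zero, zero_mul, mul_one, zero_add] at h3'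
    have h40 := h3 ![0, n 2, - n 1] 0 (by
      simp only [Matrix.cons_val_zero, Matrix.cons_val_one, Matrix.cons_val]; ring)
    have h41 := h3 ![- n 2, 0, n 0] 0 (by
      simp only [Matrix.cons_val_zero, Matrix.cons_val_one, Matrix.cons_val]; ring)
    have h42 := h3 ![n 1, - n 0, 0] 0 (by
      simp only [Matrix.cons_val_zero, Matrix.cons_val_one, Matrix.cons_val]; ring)
    simp only [Matrix.cons_val_zero, Matrix.cons_val_one, Matrix.cons_val] at h40 h41 h42
    constructor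
    · funext i
      have key : D * a i = crossProduct g n i := by
        fin_cases i
        · show D * a 0 = crossProduct g n 0
          rw [Reeb_c0, hD]
          linear_combination (g 1 * n 2 - g 2 * n 1) * h2 +
            ((B 1 * g 2 - B 2 * g 1) + f * C 0) * h1 - (B 1 * n 2 - B 2 * n 1) * h3' + f * h40
        · show D * a 1 = crossProduct g n 1
          rw [Reeb_c1, hD]
          linear_combination (g 2 * n 0 - g 0 * n 2) * h2 +
            ((B 2 * g 0 - B 0 * g 2) + f * C 1) * h1 - (B 2 * n 0 - B 0 * n 2) * h3' + f * h41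
        · show D * a 2 = crossProduct g n 2
          rw [Reeb_c2, hD]
          linear_combination (g 0 * n 1 - g 1 * n 0) * h2 +
            ((B 0 * g 1 - B 1 * g 0) + f * C 2) * h1 - (B 0 * n 1 - B 1 * n 0) * h3' + f * h42
      show a i = (1 / D) * crossProduct g n i
      rw [← key]
      field_simp
    · have key : D * s = C 0 * n 0 + C 1 * n 1 + C 2 * n 2 := by
        rw [hD]
        linear_combination (C 0 * n 0 + C 1 * n 1 + C 2 * n 2) * h2 -
          (B 0 * C 0 + B 1 * C 1 + B 2 * C 2) * h1 - B 0 * h40 - B 1 * h41 - B 2 * h42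
      rw [← key]
      field_simp
  · rintro ⟨ha, hs⟩
    have ha0 : a 0 = (1 / D) * (g 1 * n 2 - g 2 * n 1) := by
      rw [ha, Pi.smul_apply, Reeb_c0, smul_eq_mul]
    have ha1 : a 1 = (1 / D) * (g 2 * n 0 - g 0 * n 2) := by
      rw [ha, Pi.smul_apply, Reeb_c1, smul_eq_mul]
    have ha2 : a 2 = (1 / D) * (g 0 * n 1 - g 1 * n 0) := by
      rw [ha, Pi.smul_apply, Reeb_c2, smul_eq_mul]
    rw [ha0, ha1, ha2, hs]
    refine ⟨by ring, ?_, ?_⟩
    · have e1 : B 0 * (1 / D * (g 1 * n 2 - g 2 * n 1)) + B 1 * (1 / D * (g 2 * n 0 - g 0 * n 2))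
          + B 2 * (1 / D * (g 0 * n 1 - g 1 * n 0))
          + f * (1 / D * (C 0 * n 0 + C 1 * n 1 + C 2 * n 2)) = (1 / D) * D := by
        rw [hD]
        ring
      rw [e1]
      field_simp
    · intro w t hw
      linear_combination (-(1 / D) * (C 0 * g 0 + C 1 * g 1 + C 2 * g 2)) * hw

theorem reeb_iff {h : E3 → ℝ} {lam : V4 → V4 →L[ℝ] ℝ} (hlam : ContDiff ℝ 2 lam)
    (hinv : ∀ x z s, lam (x, z + s) = lam (x, z)) (x : E3) (hD : DD h lam x ≠ 0) (z : ℝ) (v : V4) :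
    IsReeb h lam (x, z) v ↔
      v = ((1 / DD h lam x) • crossProduct (gr (ff lam) x) (gr h x),
        (1 / DD h lam x) * (crl (BB lam) x ⬝ᵥ gr h x)) := by
  obtain ⟨a, s⟩ := v
  have halg := Reeb_alg (gr h x) (gr (ff lam) x) (BB lam x) (crl (BB lam) x) a (ff lam x) s
    (DD h lam x) rfl hD
  rw [Prod.mk.injEq, ← halg]
  unfold IsReeb Tan
  simp only [mem_ofPred_eq, Prod.forall]
  rw [gr_eq, lam_eq hinv]
  refine and_congr Iff.rfl (and_congr Iff.rfl ?_)
  constructor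
  · intro h1 w t hw
    have h2 := h1 w t (by rw [gr_eq]; exact hw)
    rw [dlam_eq hlam hinv] at h2
    exact h2
  · intro h1 w t hw
    rw [gr_eq] at hw
    rw [dlam_eq hlam hinv]
    exact h1 w t hw

end Pool.Agent.RBO
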