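import Pool.Agent.RBO.Defs

set_option autoImplicit false

/-! Module Tmin: minimal periods.  For a periodic non-fixed `x` the set `{T > 0 | φ T x = x}` is nonempty, closed in `(0, ∞)` (continuity of `t ↦ φ t x`) and bounded below by the `τ` of `SD.nor` at `q = x`,
so the infimum is positive and attained.  `tm_int`: divide `t` by `T = Tm` with remainder `0 ≤ s < T` (`Int.floor (t / T)`): `φ s x = x` (multiples of `T` fix `x`), so `s = 0` by minimality.
`per_flow`, `tm_flow`: `φ t` commutes with the flow and is injective.  `crit_grad`: fixed points of `φ` are fixed by `ψ` (`fixc`); conversely if `ψ t x = c` is critical then `x = ψ (-t) c = c`.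
`th_flow`: `Tm (φ s x) = Tm x` and `u ↦ ρ(φ u x)` has period `Tm x` (`Function.Periodic.intervalIntegral_add_eq`). -/

namespace Pool.Agent.RBO

open Set

variable {M : Type} [MetricSpace M] [CompactSpace M] {φ ψ : ℝ → M → M} {f ρ : M → ℝ}

theorem Tmin_inv (S : SD φ ψ f ρ) (t : ℝ) (x : M) : φ (-t) (φ t x) = x := by
  rw [← S.pa, neg_add_cancel, S.p0]

theorem Tmin_cont (S : SD φ ψ f ρ) (x : M) : Continuous (fun t => φ t x) :=
  S.pC.comp (continuous_id.prodMk continuous_const)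

theorem tm_spec (S : SD φ ψ f ρ) {x : M} (hx : Per φ x) : 0 < Tm φ x ∧ φ (Tm φ x) x = x := by
  obtain ⟨hc, T0, hT0, hT0x⟩ := hx
  obtain ⟨τ, hτ, r, hr, hn⟩ := S.nor x hc
  have hlow : ∀ T : ℝ, 0 < T → φ T x = x → τ ≤ T := by
    intro T hT hTx
    by_contra hlt
    push Not at hlt
    exact hn x (by simpa using hr) T hT.ne' (by rw [abs_of_pos hT]; exact hlt.le) hTx
  have hset : {T : ℝ | 0 < T ∧ φ T x = x} = {T : ℝ | τ ≤ T ∧ φ T x = x} := by
    ext T
    constructor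
    · intro h
      exact ⟨hlow T h.1 h.2, h.2⟩
    · intro h
      exact ⟨lt_of_lt_of_le hτ h.1, h.2⟩
  have hcl : IsClosed {T : ℝ | τ ≤ T ∧ φ T x = x} :=
    (isClosed_le continuous_const continuous_id).inter
      (isClosed_eq (Tmin_cont S x) continuous_const)
  have hne : {T : ℝ | τ ≤ T ∧ φ T x = x}.Nonempty := ⟨T0, hlow T0 hT0 hT0x, hT0x⟩
  have hbd : BddBelow {T : ℝ | τ ≤ T ∧ φ T x = x} := ⟨τ, fun T hT => hT.1⟩
  have hm := hcl.csInf_mem hne hbd
  unfold Tm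
  rw [hset]
  exact ⟨lt_of_lt_of_le hτ hm.1, hm.2⟩

theorem tm_le (S : SD φ ψ f ρ) {x : M} {t : ℝ} (ht : 0 < t) (h : φ t x = x) :
    Tm φ x ≤ t := by
  have _ := S.p0
  exact csInf_le ⟨0, fun T hT => hT.1.le⟩ ⟨ht, h⟩

theorem Tmin_nat (S : SD φ ψ f ρ) {x : M} {T : ℝ} (h : φ T x = x) (n : ℕ) :
    φ ((n : ℝ) * T) x = x := by
  induction n with
  | zero => simp [S.p0]
  | succ n ih =>
    have e : ((n + 1 : ℕ) : ℝ) * T = (n : ℝ) * T + T := by push_cast; ring
    rw [e, S.pa, h, ih]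

theorem Tmin_int (S : SD φ ψ f ρ) {x : M} {T : ℝ} (h : φ T x = x) (n : ℤ) :
    φ ((n : ℝ) * T) x = x := by
  obtain ⟨m, rfl | rfl⟩ := n.eq_nat_or_neg
  · exact_mod_cast Tmin_nat S h m
  · have h1 := Tmin_nat S h m
    have h2 := Tmin_inv S ((m : ℝ) * T) x
    rw [h1] at h2
    have e : (((-(m : ℤ)) : ℤ) : ℝ) * T = -((m : ℝ) * T) := by push_cast; ring
    rw [e, h2]

theorem tm_int (S : SD φ ψ f ρ) {x : M} (hx : Per φ x) {t : ℝ} (h : φ t x = x) :
    ∃ k : ℤ, t = k * Tm φ x := by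
  obtain ⟨hT, hTx⟩ := tm_spec S hx
  set T := Tm φ x with hTdef
  refine ⟨⌊t / T⌋, ?_⟩
  set k : ℤ := ⌊t / T⌋ with hk
  have h1 : (k : ℝ) ≤ t / T := Int.floor_le _
  have h2 : t / T < (k : ℝ) + 1 := Int.lt_floor_add_one _
  have h3 : (k : ℝ) * T ≤ t := by rwa [le_div_iff₀ hT] at h1
  have h4 : t < ((k : ℝ) + 1) * T := by rwa [div_lt_iff₀ hT] at h2
  have h5 : φ (t - (k : ℝ) * T) x = x := by
    have h6 := Tmin_int S hTx (-k)
    have e : t - (k : ℝ) * T = ((-k : ℤ) : ℝ) * T + t := by push_cast; ring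
    rw [e, S.pa, h, h6]
  by_contra hne
  have hpos : 0 < t - (k : ℝ) * T := by
    rcases h3.lt_or_eq with h7 | h7
    · linarith
    · exact absurd h7.symm hne
  have h8 := tm_le S hpos h5
  rw [← hTdef] at h8
  linarith

theorem crit_flow (S : SD φ ψ f ρ) (t : ℝ) (x : M) : Crit φ (φ t x) ↔ Crit φ x := by
  constructor
  · intro h
    have h1 := h (-t)
    rw [Tmin_inv S] at h1
    rw [← h1] at h
    exact h
  · intro h
    rw [h t]
    exact h

theorem Tmin_ginv (S : SD φ ψ f ρ) (t : ℝ) (x : M) : ψ (-t) (ψ t x) = x := by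
  rw [← S.sa, neg_add_cancel, S.s0]

theorem crit_grad (S : SD φ ψ f ρ) (t : ℝ) (x : M) : Crit φ (ψ t x) ↔ Crit φ x := by
  constructor
  · intro h
    have h1 := S.fixc _ h (-t)
    rw [Tmin_ginv S] at h1
    rw [← h1] at h
    exact h
  · intro h
    rw [S.fixc x h t]
    exact h

theorem Tmin_ret (S : SD φ ψ f ρ) (t T : ℝ) (x : M) : φ T (φ t x) = φ t x ↔ φ T x = x := by
  have e : φ T (φ t x) = φ t (φ T x) := by rw [← S.pa, ← S.pa, add_comm]
  rw [e]
  constructor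
  · intro h
    have h1 := congrArg (φ (-t)) h
    rwa [Tmin_inv S, Tmin_inv S] at h1
  · intro h
    rw [h]

theorem per_flow (S : SD φ ψ f ρ) {x : M} (hx : Per φ x) (t : ℝ) : Per φ (φ t x) := by
  obtain ⟨hc, T, hT, hTx⟩ := hx
  exact ⟨fun h => hc ((crit_flow S t x).1 h), T, hT, (Tmin_ret S t T x).2 hTx⟩

theorem tm_flow (S : SD φ ψ f ρ) (t : ℝ) (x : M) : Tm φ (φ t x) = Tm φ x := by
  unfold Tm
  congr 1
  ext T
  simp only [Set.mem_ofPred_eq, Tmin_ret S]

theorem th_flow (S : SD φ ψ f ρ) {x : M} (hx : Per φ x) (t : ℝ) :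
    Th φ ρ (φ t x) = Th φ ρ x := by
  obtain ⟨_, hTx⟩ := tm_spec S hx
  unfold Th
  rw [tm_flow S]
  have hp : Function.Periodic (fun u => ρ (φ u x)) (Tm φ x) := by
    intro u
    show ρ (φ (u + Tm φ x) x) = ρ (φ u x)
    rw [S.pa, hTx]
  have e1 : (∫ u in (0 : ℝ)..(Tm φ x), ρ (φ u (φ t x))) =
      ∫ u in (0 : ℝ)..(Tm φ x), (fun u => ρ (φ u x)) (u + t) := by
    refine intervalIntegral.integral_congr fun u _ => ?_
    show ρ (φ u (φ t x)) = ρ (φ (u + t) x)
    rw [S.pa]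
  rw [e1, intervalIntegral.integral_comp_add_right (fun u => ρ (φ u x)) t, zero_add,
    add_comm (Tm φ x) t, hp.intervalIntegral_add_eq t 0, zero_add]

/-- reversed gradient flow -/
theorem sd_symm (S : SD φ ψ f ρ) : SD φ (fun t => ψ (-t)) (fun x => - f x) (fun x => - ρ x) where
  fC := S.fC.neg
  rC := S.rC.neg
  pC := S.pC
  p0 := S.p0
  pa := S.pa
  sC := S.sC.comp ((continuous_fst.neg).prodMk continuous_snd)
  s0 x := by
    show ψ (-0) x = x
    rw [neg_zero, S.s0]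
  sa s t x := by
    show ψ (-(s + t)) x = ψ (-s) (ψ (-t) x)
    rw [neg_add, S.sa]
  finv t x := by
    show -f (φ t x) = -f x
    rw [S.finv]
  inc x hx t ht := by
    show -f x < -f (ψ (-t) x)
    have h1 := S.inc (ψ (-t) x) (fun h => hx ((crit_grad S (-t) x).1 h)) t ht
    have h2 : ψ t (ψ (-t) x) = x := by rw [← S.sa, add_neg_cancel, S.s0]
    rw [h2] at h1
    linarith
  fixc x hx t := S.fixc x hx (-t)
  rf x hx := by
    show -ρ x * -f x = 1
    rw [neg_mul_neg]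
    exact S.rf x hx
  arc q hq τ hτ := by
    obtain ⟨r, hr, h⟩ := S.arc q hq τ hτ
    exact ⟨r, hr, fun x y hx hy hxy => h x y hx hy (neg_injective hxy)⟩
  nor := S.nor
  con := S.con
  inf := S.inf

theorem grad_mono (S : SD φ ψ f ρ) {p : M} (hp : ¬ Crit φ p) : StrictMono (fun σ => f (ψ σ p)) := by
  intro a b hab
  show f (ψ a p) < f (ψ b p)
  have h1 := S.inc (ψ a p) (fun h => hp ((crit_grad S a p).1 h)) (b - a) (by linarith)
  rwa [← S.sa, sub_add_cancel] at h1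

end Pool.Agent.RBO
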