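import Pool.Agent.RBO.Near
import Pool.Agent.RBO.Meas

set_option autoImplicit false

/-! Module Unb: unbounded periods give infinitely many rational tori.
`g σ = Th φ ρ (ψ σ p)` is continuous on the preconnected set `J` (`th_cont`, continuity of `ψ`) and unbounded (`th_big`).  So it takes two different values `α < β` on `J`, hence all values in `[α, β]`
(`IsPreconnected.intermediate_value`), in particular infinitely many rational numbers.  Distinct values come from distinct `σ`, and `σ ↦ f (ψ σ p)` is injective (`grad_mono`, `p` is not critical), so `RatLev` is infinite.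
`infinite_of_ne`: same proof. -/

namespace Pool.Agent.RBO

open Set Filter Topology

variable {M : Type} [MetricSpace M] [CompactSpace M] {φ ψ : ℝ → M → M} {f ρ : M → ℝ}

theorem infinite_of_ne (S : SD φ ψ f ρ) {p : M} (hp : ¬ Crit φ p) (J : Set ℝ)
    (hJ : IsPreconnected J) (hJP : ∀ σ ∈ J, Per φ (ψ σ p)) (σ1 σ2 : ℝ) (h1 : σ1 ∈ J) (h2 : σ2 ∈ J)
    (hne : Th φ ρ (ψ σ1 p) ≠ Th φ ρ (ψ σ2 p)) : (RatLev φ f ρ).Infinite := by
  wlog hlt : Th φ ρ (ψ σ1 p) < Th φ ρ (ψ σ2 p) generalizing σ1 σ2 with H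
  · exact H σ2 σ1 h2 h1 hne.symm (lt_of_le_of_ne (not_lt.1 hlt) hne.symm)
  have hg : ContinuousOn (fun σ => Th φ ρ (ψ σ p)) J := by
    intro σ hσ
    have h3 : ContinuousAt (fun σ => ψ σ p) σ :=
      (S.sC.comp (Continuous.prodMk continuous_id continuous_const)).continuousAt
    exact (ContinuousAt.comp (f := fun σ => ψ σ p) (g := Th φ ρ) (th_cont S (hJP σ hσ)) h3).continuousWithinAt
  have hiv := hJ.intermediate_value h1 h2 hg
  -- rationals in the interval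
  have hinf : ((fun q : ℚ => (q : ℝ)) ⁻¹' (Ioo (Th φ ρ (ψ σ1 p)) (Th φ ρ (ψ σ2 p)))).Infinite := by
    obtain ⟨a, ha1, ha2⟩ := exists_rat_btwn hlt
    obtain ⟨b, hb1, hb2⟩ := exists_rat_btwn ha2
    have hab : a < b := by exact_mod_cast hb1
    refine (Ioo_infinite hab).mono ?_
    intro q hq
    have h4 : (a : ℝ) < q := by exact_mod_cast hq.1
    have h5 : (q : ℝ) < b := by exact_mod_cast hq.2
    exact ⟨ha1.trans h4, h5.trans hb2⟩
  have hch : ∀ q : ℚ, q ∈ ((fun q : ℚ => (q : ℝ)) ⁻¹' (Ioo (Th φ ρ (ψ σ1 p)) (Th φ ρ (ψ σ2 p)))) →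
      ∃ σ ∈ J, Th φ ρ (ψ σ p) = q := by
    intro q hq
    obtain ⟨σ, hσ, he⟩ := hiv ⟨le_of_lt hq.1, le_of_lt hq.2⟩
    exact ⟨σ, hσ, he⟩
  choose! s hs1 hs2 using hch
  have hinj : InjOn (fun q : ℚ => f (ψ (s q) p)) ((fun q : ℚ => (q : ℝ)) ⁻¹' (Ioo (Th φ ρ (ψ σ1 p)) (Th φ ρ (ψ σ2 p)))) := by
    intro q hq q' hq' he
    have h6 : s q = s q' := (grad_mono S hp).injective he
    have h7 := hs2 q hq
    rw [h6, hs2 q' hq'] at h7
    exact_mod_cast h7.symm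
  refine (hinf.image hinj).mono ?_
  rintro _ ⟨q, hq, rfl⟩
  exact ⟨ψ (s q) p, hJP _ (hs1 q hq), rfl, q, hs2 q hq⟩

theorem unb (S : SD φ ψ f ρ) {p : M} (hp : ¬ Crit φ p) (J : Set ℝ) (hJ : IsPreconnected J)
    (hJP : ∀ σ ∈ J, Per φ (ψ σ p)) (hu : ∀ C : ℝ, ∃ σ ∈ J, C < Tm φ (ψ σ p)) :
    (RatLev φ f ρ).Infinite := by
  obtain ⟨c, C, hc, hb⟩ := th_big S
  obtain ⟨σ1, h1, _⟩ := hu 0
  obtain ⟨σ2, h2, h3⟩ := hu ((C + |Th φ ρ (ψ σ1 p)|) / c)
  have h4 := hb _ (hJP σ2 h2)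
  have h5 : C + |Th φ ρ (ψ σ1 p)| < c * Tm φ (ψ σ2 p) := by
    rw [div_lt_iff₀ hc] at h3
    linarith
  refine infinite_of_ne S hp J hJ hJP σ1 σ2 h1 h2 ?_
  intro he
  rw [he] at h5
  linarith

end Pool.Agent.RBO
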